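import Mathlib
import Pool.Agent.H39.Q1.CutEnv

set_option autoImplicit false
open Finset

/-! # Displacement lemma, deterministic part

`t` is a label near a corner, `M` a box of labels around it, `E ∩ M` the random labels of the box, the
other labels are deterministic (`W` open, the rest closed). All deterministic open labels of the box
which can be reached are joined inside the box (`LocW`, up to dead ends), the deterministic closed ones
too (`LocC`). If toggling `t` changes an increment far away, then there is an open arm in `E ∩ M` from an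
end of `t` out of the box (`OA`) and a closed arm in `E ∩ M` from a side of `t` out of the box (`CA`). -/

namespace Pool.Agent.H14.R45

open Pool.Agent.H75.Perc Pool.Agent.H75.TwoArm Pool.Agent.H75.Four Pool.Agent.H69.Q1
open Pool.Agent.Q1 Pool.Agent.H43.Q1 Pool.Agent.H39.Q1

variable {E W M N ω : Finset (ℤ × ℤ)} {t u v φ ψ c : ℤ × ℤ} {Vw Fw : ℤ × ℤ → Prop}

/-- all labels at the vertex are in the box -/
def InV (M : Finset (ℤ × ℤ)) (x : ℤ × ℤ) : Prop := ∀ y, IsUnit4 (y - x) → x + y ∈ M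

/-- all labels around the face are in the box -/
def InF (M : Finset (ℤ × ℤ)) (f : ℤ × ℤ) : Prop := ∀ g, IsUnit4 (g - f) → f + g - (1, 1) ∈ M

/-- no label at the vertex is in the box -/
def OutV (M : Finset (ℤ × ℤ)) (x : ℤ × ℤ) : Prop := ∀ y, IsUnit4 (y - x) → x + y ∉ M

/-- no label around the face is in the box -/
def OutF (M : Finset (ℤ × ℤ)) (f : ℤ × ℤ) : Prop := ∀ g, IsUnit4 (g - f) → f + g - (1, 1) ∉ M

/-- the deterministic open labels of the box -/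
structure LocW (E W M : Finset (ℤ × ℤ)) (t : ℤ × ℤ) (Vw : ℤ × ℤ → Prop) : Prop where
  jo : ∀ x y, Vw x → Vw y → Co (W ∩ M) x y
  hit : ∀ x y y', IsUnit4 (y - x) → x + y ∈ W → x + y ∈ M → IsUnit4 (y' - x) →
    x + y' ∈ insert t (E ∩ M) →
    Vw x ∨ (∀ z, IsUnit4 (z - y) → y + z ∈ E ∪ insert t W → z = x)

/-- the deterministic closed labels of the box -/
structure LocC (E W M : Finset (ℤ × ℤ)) (t : ℤ × ℤ) (Fw : ℤ × ℤ → Prop) : Prop where
  jo : ∀ f g, Fw f → Fw g → Co (du (M \ insert t E) W) f g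
  hit : ∀ f g g', IsUnit4 (g - f) → f + g - (1, 1) ∈ M → f + g - (1, 1) ∉ E →
    f + g - (1, 1) ∉ W → f + g - (1, 1) ≠ t → IsUnit4 (g' - f) →
    f + g' - (1, 1) ∈ insert t (E ∩ M) →
    Fw f ∨ (∀ z, IsUnit4 (z - g) → g + z - (1, 1) ∉ W → g + z - (1, 1) ≠ t → z = f)

/-- open arm -/
def OA (E M : Finset (ℤ × ℤ)) (u v : ℤ × ℤ) (ω : Finset (ℤ × ℤ)) : Prop :=
  ∃ a, (a = u ∨ a = v) ∧ ∃ x, ¬ InV M x ∧ Co (ω ∩ (E ∩ M)) a x

/-- closed arm -/
def CA (E M : Finset (ℤ × ℤ)) (φ ψ : ℤ × ℤ) (ω : Finset (ℤ × ℤ)) : Prop :=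
  ∃ a, (a = φ ∨ a = ψ) ∧ ∃ f, ¬ InF M f ∧ Co (du (E ∩ M) ω) a f

lemma unit_ne (x : ℤ × ℤ) : ∃ y, IsUnit4 (y - x) :=
  ⟨x + (1, 0), by rw [add_sub_cancel_left]; left; rfl⟩

lemma not_out_of_in {x : ℤ × ℤ} (h : InV M x) (h' : OutV M x) : False := by
  obtain ⟨y, hy⟩ := unit_ne x
  exact h' y hy (h y hy)

lemma not_out_of_inF {f : ℤ × ℤ} (h : InF M f) (h' : OutF M f) : False := by
  obtain ⟨y, hy⟩ := unit_ne f
  exact h' y hy (h y hy)

/-- last edge of a path -/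
lemma last_edge {A : Finset (ℤ × ℤ)} {a b : ℤ × ℤ} (h : Co A a b) (hne : a ≠ b) :
    ∃ y, IsUnit4 (y - b) ∧ b + y ∈ A := by
  rcases Relation.ReflTransGen.cases_tail h with h1 | ⟨x, -, h1⟩
  · exact absurd h1.symm hne
  · exact ⟨x, h1.symm.1, h1.symm.2⟩

/-- **the cluster of an end of `t`**, when there is no open arm -/
theorem end_cases_open (LW : LocW E W M t Vw) (hω : ω ⊆ E) {a a' : ℤ × ℤ}
    (ha : IsUnit4 (a' - a)) (hat : a + a' = t)
    (hO : ∀ x, Co (ω ∩ (E ∩ M)) a x → InV M x)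
    (hno : ¬ ∃ z, Vw z ∧ Co ((ω ∪ W) ∩ M) a z) {x : ℤ × ℤ} (hx : Co (ω ∪ W) a x) :
    (Co (ω ∩ (E ∩ M)) a x ∧ InV M x) ∨
      ∃ x', (Co (ω ∩ (E ∩ M)) a x' ∧ InV M x') ∧ IsUnit4 (x - x') ∧ x' + x ∈ W ∧
        (∀ z, IsUnit4 (z - x) → x + z ∈ E ∪ insert t W → z = x') := by
  induction hx with
  | refl => exact Or.inl ⟨Co.refl _ _, hO _ (Co.refl _ _)⟩
  | @tail b d _ hbd ih =>
    rcases ih with ⟨h1, h2⟩ | ⟨x', ⟨h1, h2⟩, h3, h4, h5⟩
    · have hl : b + d ∈ M := h2 d hbd.1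
      rcases mem_union.1 hbd.2 with h | h
      · have h6 : Co (ω ∩ (E ∩ M)) a d :=
          h1.tail ⟨hbd.1, mem_inter.2 ⟨h, mem_inter.2 ⟨hω h, hl⟩⟩⟩
        exact Or.inl ⟨h6, hO _ h6⟩
      · have h7 : ∃ y', IsUnit4 (y' - b) ∧ b + y' ∈ insert t (E ∩ M) := by
          by_cases hab : a = b
          · subst hab
            exact ⟨a', ha, by rw [hat]; exact mem_insert_self _ _⟩
          · obtain ⟨y, hy1, hy2⟩ := last_edge h1 hab
            exact ⟨y, hy1, mem_insert_of_mem (mem_inter.1 hy2).2⟩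
        obtain ⟨y', h8, h9⟩ := h7
        rcases LW.hit b d y' hbd.1 h hl h8 h9 with h10 | h10
        · exfalso
          refine hno ⟨b, h10, h1.mono ?_⟩
          intro e he
          obtain ⟨e1, e2⟩ := mem_inter.1 he
          exact mem_inter.2 ⟨mem_union_left _ e1, (mem_inter.1 e2).2⟩
        · exact Or.inr ⟨b, ⟨h1, h2⟩, hbd.1, h, h10⟩
    · have h6 : b + d ∈ E ∪ insert t W := by
        rcases mem_union.1 hbd.2 with h | h
        · exact mem_union_left _ (hω h)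
        · exact mem_union_right _ (mem_insert_of_mem h)
      have h7 := h5 d hbd.1 h6
      rw [h7]
      exact Or.inl ⟨h1, h2⟩

/-- **the dual cluster of a side of `t`**, when there is no closed arm -/
theorem end_cases_closed (LC : LocC E W M t Fw) {a a' : ℤ × ℤ}
    (ha : IsUnit4 (a' - a)) (hat : a + a' = t + (1, 1))
    (hC : ∀ x, Co (du (E ∩ M) ω) a x → InF M x)
    (hno : ¬ ∃ z, Fw z ∧ Co (du (M.erase t) (ω ∪ W)) a z) (htE : t ∉ E) (hEW : Disjoint E W)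
    {x : ℤ × ℤ} (hx : DCo (insert t (ω ∪ W)) a x) :
    (Co (du (E ∩ M) ω) a x ∧ InF M x) ∨
      ∃ x', (Co (du (E ∩ M) ω) a x' ∧ InF M x') ∧ IsUnit4 (x - x') ∧ x' + x - (1, 1) ∉ E ∧
        x' + x - (1, 1) ∉ W ∧ x' + x - (1, 1) ≠ t ∧
        (∀ z, IsUnit4 (z - x) → x + z - (1, 1) ∉ W → x + z - (1, 1) ≠ t → z = x') := by
  refine DCo.ind (P := fun x => (Co (du (E ∩ M) ω) a x ∧ InF M x) ∨
      ∃ x', (Co (du (E ∩ M) ω) a x' ∧ InF M x') ∧ IsUnit4 (x - x') ∧ x' + x - (1, 1) ∉ E ∧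
        x' + x - (1, 1) ∉ W ∧ x' + x - (1, 1) ≠ t ∧
        (∀ z, IsUnit4 (z - x) → x + z - (1, 1) ∉ W → x + z - (1, 1) ≠ t → z = x')) hx
    (Or.inl ⟨Co.refl _ _, hC _ (Co.refl _ _)⟩) ?_
  intro b d ih hbd hl
  rw [mem_insert, mem_union, not_or, not_or] at hl
  obtain ⟨hl1, hl2, hl3⟩ := hl
  rcases ih with ⟨h1, h2⟩ | ⟨x', ⟨h1, h2⟩, h3, h4, h4', h4'', h5⟩
  · have hM : b + d - (1, 1) ∈ M := h2 d hbd
    by_cases h : b + d - (1, 1) ∈ E
    · have h6 : Co (du (E ∩ M) ω) a d :=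
        h1.tail ⟨hbd, mem_du_of (mem_inter.2 ⟨h, hM⟩) hl2⟩
      exact Or.inl ⟨h6, hC _ h6⟩
    · have h7 : ∃ y', IsUnit4 (y' - b) ∧ b + y' - (1, 1) ∈ insert t (E ∩ M) := by
        by_cases hab : a = b
        · subst hab
          exact ⟨a', ha, by rw [face_sub hat]; exact mem_insert_self _ _⟩
        · obtain ⟨y, hy1, hy2⟩ := last_edge h1 hab
          refine ⟨y, hy1, mem_insert_of_mem ?_⟩
          unfold du at hy2
          obtain ⟨l, hl, he⟩ := mem_map.1 hy2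
          have h4 : b + y - (1, 1) = l := by
            rw [← he]; unfold sh1; simp
          rw [h4]
          exact (mem_sdiff.1 hl).1
      obtain ⟨y', h8, h9⟩ := h7
      rcases LC.hit b d y' hbd hM h hl3 hl1 h8 h9 with h10 | h10
      · exfalso
        refine hno ⟨b, h10, h1.mono ?_⟩
        intro e he
        unfold du at he ⊢
        obtain ⟨l, hl, he⟩ := mem_map.1 he
        obtain ⟨e1, e2⟩ := mem_sdiff.1 hl
        obtain ⟨e3, e4⟩ := mem_inter.1 e1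
        refine mem_map.2 ⟨l, mem_sdiff.2 ⟨mem_erase.2 ⟨fun h => htE (h ▸ e3), e4⟩, ?_⟩, he⟩
        rw [mem_union, not_or]
        exact ⟨e2, fun h => disjoint_left.1 hEW e3 h⟩
      · exact Or.inr ⟨b, ⟨h1, h2⟩, hbd, h, hl3, hl1, h10⟩
  · have h7 := h5 d hbd hl3 hl1
    rw [h7]
    exact Or.inl ⟨h1, h2⟩

/-- if there is no open arm, toggling `t` has no effect far away -/
theorem toggle_of_not_OA {Y : Env} (hY : Y.PlaneLike W) (LW : LocW E W M t Vw) (hE : E ⊆ Y.E)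
    (htY : t ∈ Y.E) (hω : ω ⊆ E) (htE : t ∉ E) (htW : t ∉ W) (htM : t ∈ M)
    (h1 : IsUnit4 (v - u)) (h2 : u + v = t) (o0 : OutV M (vx Y.c0)) (oc : OutV M (vx c))
    (hD : DCo M (fi Y.c0) (fi c)) (h : ¬ OA E M u v ω) : Y.incO ω c = Y.incO (insert t ω) c := by
  have hωY : ω ⊆ Y.E := hω.trans hE
  have htw : t ∉ ω ∪ W := by
    rw [mem_union, not_or]; exact ⟨fun h => htE (hω h), htW⟩
  have hO : ∀ a, (a = u ∨ a = v) → ∀ x, Co (ω ∩ (E ∩ M)) a x → InV M x := by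
    intro a ha x hx
    by_contra hc
    exact h ⟨a, ha, x, hc, hx⟩
  have hmono : ∀ {a x}, Co (ω ∩ (E ∩ M)) a x → Co ((ω ∪ W) ∩ M) a x := by
    intro a x hx
    refine hx.mono ?_
    intro e he
    obtain ⟨e1, e2⟩ := mem_inter.1 he
    exact mem_inter.2 ⟨mem_union_left _ e1, (mem_inter.1 e2).2⟩
  have h1' : IsUnit4 (u - v) := H39.Q1.unit_symm h1
  have h2' : v + u = t := by rw [add_comm]; exact h2
  -- a confined end
  have key : ∀ a a', IsUnit4 (a' - a) → a + a' = t → (a = u ∨ a = v) →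
      (¬ ∃ z, Vw z ∧ Co ((ω ∪ W) ∩ M) a z) → Y.incO ω c = Y.incO (insert t ω) c := by
    intro a a' g1 g2 ga hno
    have hcl := fun x (hx : Co (ω ∪ W) a x) => end_cases_open LW hω g1 g2 (hO a ga) hno hx
    have hout : ∀ x, OutV M x → ¬ Co (ω ∪ W) a x := by
      intro x ox hx
      rcases hcl x hx with ⟨-, h4⟩ | ⟨x', ⟨-, h4⟩, h5, -, -⟩
      · exact not_out_of_in h4 ox
      · exact ox x' (H39.Q1.unit_symm h5) (by rw [add_comm]; exact h4 x h5)
    by_cases hj : Co (ω ∪ W) a a'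
    · have h3 : Co ((ω ∪ W) ∩ M) a a' := by
        rcases hcl a' hj with ⟨h4, -⟩ | ⟨x', ⟨h4, h6⟩, h5, h7, -⟩
        · exact hmono h4
        · exact (hmono h4).tail ⟨h5, mem_inter.2 ⟨mem_union_right _ h7, h6 _ h5⟩⟩
      exact incO_toggle_A hY hωY htY htw htM g1 g2 h3 hD
    · exact incO_toggle_B hY hωY htY htw (H39.Q1.unit_symm g1) (by rw [add_comm]; exact g2)
        (fun h => hj h.symm) (hout _ o0) (hout _ oc)
  by_cases nu : ∃ z, Vw z ∧ Co ((ω ∪ W) ∩ M) u z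
  · by_cases nv : ∃ z, Vw z ∧ Co ((ω ∪ W) ∩ M) v z
    · obtain ⟨z, hz, h3⟩ := nu
      obtain ⟨z', hz', h4⟩ := nv
      have h5 : Co ((ω ∪ W) ∩ M) z z' := (LW.jo z z' hz hz').mono
        (inter_subset_inter_right subset_union_right)
      exact incO_toggle_A hY hωY htY htw htM h1 h2 ((h3.trans h5).trans h4.symm) hD
    · exact key v u h1' h2' (Or.inr rfl) nv
  · exact key u v h1 h2 (Or.inl rfl) nu

/-- if there is no closed arm, toggling `t` has no effect far away -/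
theorem toggle_of_not_CA {Y : Env} (hY : Y.PlaneLike W) (LC : LocC E W M t Fw) (hE : E ⊆ Y.E)
    (htY : t ∈ Y.E) (hω : ω ⊆ E) (htE : t ∉ E) (htW : t ∉ W) (htM : t ∈ M) (hEW : Disjoint E W)
    (h1 : IsUnit4 (ψ - φ)) (h2 : φ + ψ = t + (1, 1)) (o0 : OutF M (fi Y.c0)) (oc : OutF M (fi c))
    (hN : Co N (vx Y.c0) (vx c)) (hNM : Disjoint N M) (h : ¬ CA E M φ ψ ω) :
    Y.incO ω c = Y.incO (insert t ω) c := by
  have hωY : ω ⊆ Y.E := hω.trans hE
  have htw : t ∉ ω ∪ W := by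
    rw [mem_union, not_or]; exact ⟨fun h => htE (hω h), htW⟩
  have hC : ∀ a, (a = φ ∨ a = ψ) → ∀ x, Co (du (E ∩ M) ω) a x → InF M x := by
    intro a ha x hx
    by_contra hc
    exact h ⟨a, ha, x, hc, hx⟩
  have hmono : ∀ {a x}, Co (du (E ∩ M) ω) a x → Co (du (M.erase t) (ω ∪ W)) a x := by
    intro a x hx
    refine hx.mono ?_
    intro e he
    unfold du at he ⊢
    obtain ⟨l, hl, he⟩ := mem_map.1 he
    obtain ⟨e1, e2⟩ := mem_sdiff.1 hl
    obtain ⟨e3, e4⟩ := mem_inter.1 e1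
    refine mem_map.2 ⟨l, mem_sdiff.2 ⟨mem_erase.2 ⟨fun h => htE (h ▸ e3), e4⟩, ?_⟩, he⟩
    rw [mem_union, not_or]
    exact ⟨e2, fun h => disjoint_left.1 hEW e3 h⟩
  have h1' : IsUnit4 (φ - ψ) := H39.Q1.unit_symm h1
  have h2' : ψ + φ = t + (1, 1) := by rw [add_comm]; exact h2
  have key : ∀ a a', IsUnit4 (a' - a) → a + a' = t + (1, 1) → (a = φ ∨ a = ψ) →
      (¬ ∃ z, Fw z ∧ Co (du (M.erase t) (ω ∪ W)) a z) →
      Y.incO ω c = Y.incO (insert t ω) c := by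
    intro a a' g1 g2 ga hno
    have hcl := fun x (hx : DCo (insert t (ω ∪ W)) a x) =>
      end_cases_closed LC g1 g2 (hC a ga) hno htE hEW hx
    have hout : ∀ x, OutF M x → ¬ DCo (insert t (ω ∪ W)) a x := by
      intro x ox hx
      rcases hcl x hx with ⟨-, h4⟩ | ⟨x', ⟨-, h4⟩, h5, -⟩
      · exact not_out_of_inF h4 ox
      · exact ox x' (H39.Q1.unit_symm h5) (by rw [add_comm x x']; exact h4 x h5)
    by_cases hj : DCo (insert t (ω ∪ W)) a a'
    · have h3 : Co (du (M.erase t) (ω ∪ W)) a a' := by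
        rcases hcl a' hj with ⟨h4, -⟩ | ⟨x', ⟨h4, h6⟩, h5, h7, h8, h9, -⟩
        · exact hmono h4
        · refine (hmono h4).tail ⟨h5, mem_du_of (mem_erase.2 ⟨h9, h6 _ h5⟩) ?_⟩
          rw [mem_union, not_or]
          exact ⟨fun h => h7 (hω h), h8⟩
      exact incO_toggle_C hY hωY htY htM g1 g2 h3 hN hNM
    · exact incO_toggle_D hY hωY htY htw g1 g2 hj (hout _ o0) (hout _ oc)
  by_cases nu : ∃ z, Fw z ∧ Co (du (M.erase t) (ω ∪ W)) φ z
  · by_cases nv : ∃ z, Fw z ∧ Co (du (M.erase t) (ω ∪ W)) ψ z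
    · obtain ⟨z, hz, h3⟩ := nu
      obtain ⟨z', hz', h4⟩ := nv
      have h5 : Co (du (M.erase t) (ω ∪ W)) z z' := by
        refine (LC.jo z z' hz hz').mono ?_
        intro e he
        unfold du at he ⊢
        obtain ⟨l, hl, he⟩ := mem_map.1 he
        obtain ⟨e1, e2⟩ := mem_sdiff.1 hl
        obtain ⟨e3, e4⟩ := mem_sdiff.1 e1
        rw [mem_insert, not_or] at e4
        refine mem_map.2 ⟨l, mem_sdiff.2 ⟨mem_erase.2 ⟨e4.1, e3⟩, ?_⟩, he⟩
        rw [mem_union, not_or]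
        exact ⟨fun h => e4.2 (hω h), e2⟩
      exact incO_toggle_C hY hωY htY htM h1 h2 ((h3.trans h5).trans h4.symm) hN hNM
    · exact key ψ φ h1' h2' (Or.inr rfl) nv
  · exact key φ ψ h1 h2 (Or.inl rfl) nu

end Pool.Agent.H14.R45
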