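import Mathlib
import Pool.Agent.H14.R45.Disp
import Pool.Agent.H44.FM.QuadArm
import Pool.Agent.Q1.M6c.Compare
import Pool.Agent.Q1.M6c.Dob
import Pool.Agent.Q1.M4.Inputs
import Pool.Agent.H39.Q1.LocBox

set_option autoImplicit false
open Finset

/-! # Displacement lemma (DL)

Two plane environments with the same random labels and the same root, which differ by one
deterministic label `t` near a corner (in the box `BR p r` the random labels are contained in a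
quadrant, the deterministic ones form a wired and a free wall): the increments in a free box away from
`BR p r` differ by at most `C r ^ (-4/3) N ^ (2/3)`. -/

namespace Pool.Agent.H14.R45

open Pool.Agent.H75.Perc Pool.Agent.H75.TwoArm Pool.Agent.H75.Four Pool.Agent.H69.Q1
open Pool.Agent.Q1 Pool.Agent.H43.Q1 Pool.Agent.H39.Q1 Pool.Agent.Q1.M6c
open Pool.Agent.H60.Q1 Pool.Agent.H99.NC Pool.Agent.H42.FM Pool.Agent.H44.FM

/-! ### Geometry of the box -/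

lemma far_of_not_inV {p x : ℤ × ℤ} {r : ℤ} (h : ¬ InV (BR p r) x) : Far p r x := by
  by_contra hc
  apply h
  intro y hy
  unfold Far at hc
  rw [not_or, not_le, not_le, abs_lt, abs_lt] at hc
  have h1 := unit_cases hy
  rw [mem_BR]
  simp only [Prod.fst_add, Prod.snd_add]
  omega

lemma far_of_not_inF {p x : ℤ × ℤ} {r : ℤ} (h : ¬ InF (BR p r) x) : Far p r x := by
  by_contra hc
  apply h
  intro y hy
  unfold Far at hc
  rw [not_or, not_le, not_le, abs_lt, abs_lt] at hc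
  have h1 := unit_cases hy
  rw [mem_BR]
  simp only [Prod.fst_add, Prod.snd_add, Prod.fst_sub, Prod.snd_sub]
  omega

lemma outV_of_far {p x : ℤ × ℤ} {r : ℤ} (h : Far p (r + 1) x) : OutV (BR p r) x := by
  intro y hy hm
  unfold Far at h
  rw [le_abs, le_abs] at h
  have h1 := unit_cases hy
  rw [mem_BR] at hm
  simp only [Prod.fst_add, Prod.snd_add] at hm
  omega

lemma outF_of_far {p x f : ℤ × ℤ} {r : ℤ} (h : Far p (r + 2) x)
    (hf : (f.1 = x.1 ∨ f.1 = x.1 + 1) ∧ (f.2 = x.2 ∨ f.2 = x.2 + 1)) : OutF (BR p r) f := by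
  intro y hy hm
  unfold Far at h
  rw [le_abs, le_abs] at h
  have h1 := unit_cases hy
  rw [mem_BR] at hm
  simp only [Prod.fst_add, Prod.snd_add, Prod.fst_sub, Prod.snd_sub] at hm
  omega

lemma fi_near_vx (c : ℤ × ℤ) : ((fi c).1 = (vx c).1 ∨ (fi c).1 = (vx c).1 + 1) ∧
    ((fi c).2 = (vx c).2 ∨ (fi c).2 = (vx c).2 + 1) := by
  unfold fi vx
  simp only
  omega

lemma dco_far {p f g x y : ℤ × ℤ} {r : ℤ} (hx : Far p (r + 2) x)
    (hf : (f.1 = x.1 ∨ f.1 = x.1 + 1) ∧ (f.2 = x.2 ∨ f.2 = x.2 + 1)) (hy : Far p (r + 2) y)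
    (hg : (g.1 = y.1 ∨ g.1 = y.1 + 1) ∧ (g.2 = y.2 ∨ g.2 = y.2 + 1)) : DCo (BR p r) f g := by
  have key : ∀ {x f : ℤ × ℤ}, Far p (r + 2) x →
      ((f.1 = x.1 ∨ f.1 = x.1 + 1) ∧ (f.2 = x.2 ∨ f.2 = x.2 + 1)) →
      H39.Q1.OutF (p.1 - r) (p.1 + r) (p.2 - r) (p.2 + r) f := by
    intro x f hx hf
    unfold Far at hx
    rw [le_abs, le_abs] at hx
    unfold H39.Q1.OutF
    omega
  exact dco_outside (A := BR p r) (Subset.refl _) (key hx hf) (key hy hg)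

/-- vertices outside the box are connected outside the box -/
lemma co_far {p x y : ℤ × ℤ} {r : ℤ} (hr : 0 ≤ r) (hx : Far p (r + 1) x) (hy : Far p (r + 1) y) :
    ∃ N, Co N x y ∧ Disjoint N (BR p r) := by
  obtain ⟨K, hK⟩ : ∃ K : ℤ, |x.1 - p.1| ≤ K ∧ |x.2 - p.2| ≤ K ∧ |y.1 - p.1| ≤ K ∧
      |y.2 - p.2| ≤ K ∧ r + 2 ≤ K :=
    ⟨|x.1 - p.1| + |x.2 - p.2| + |y.1 - p.1| + |y.2 - p.2| + (r + 2), by
      have h1 := abs_nonneg (x.1 - p.1)
      have h2 := abs_nonneg (x.2 - p.2)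
      have h3 := abs_nonneg (y.1 - p.1)
      have h4 := abs_nonneg (y.2 - p.2)
      refine ⟨?_, ?_, ?_, ?_, ?_⟩ <;> linarith⟩
  refine ⟨BR p (K + 1) \ BR p r, ?_, sdiff_disjoint⟩
  have key : ∀ x : ℤ × ℤ, Far p (r + 1) x → |x.1 - p.1| ≤ K → |x.2 - p.2| ≤ K →
      Co (BR p (K + 1) \ BR p r) x (p.1 + r + 1, p.2 + r + 1) := by
    intro x h h1 h2
    unfold Far at h
    rw [le_abs, le_abs] at h
    rw [abs_le] at h1 h2
    have hmem : ∀ {l : ℤ × ℤ}, ((2 * (p.1 - (K + 1)) ≤ l.1 ∧ l.1 ≤ 2 * (p.1 + (K + 1))) ∧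
        (2 * (p.2 - (K + 1)) ≤ l.2 ∧ l.2 ≤ 2 * (p.2 + (K + 1))) ∧ (l.1 + l.2) % 2 = 1) →
        ¬ ((2 * (p.1 - r) ≤ l.1 ∧ l.1 ≤ 2 * (p.1 + r)) ∧
          (2 * (p.2 - r) ≤ l.2 ∧ l.2 ≤ 2 * (p.2 + r)) ∧ (l.1 + l.2) % 2 = 1) →
        l ∈ BR p (K + 1) \ BR p r := by
      intro l h3 h4
      rw [mem_sdiff, mem_BR, mem_BR]
      exact ⟨h3, h4⟩
    have hu : x = (x.1, x.2) := rfl
    rcases (by omega : (r + 1 ≤ x.1 - p.1 ∨ x.1 - p.1 ≤ -(r + 1)) ∨
        (r + 1 ≤ x.2 - p.2 ∨ x.2 - p.2 ≤ -(r + 1))) with h3 | h3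
    · have e1 : Co (BR p (K + 1) \ BR p r) (x.1, x.2) (x.1, p.2 + r + 1) := by
        refine co_ver' fun k hk => hmem ?_ ?_ <;> simp only <;> omega
      have e2 : Co (BR p (K + 1) \ BR p r) (x.1, p.2 + r + 1) (p.1 + r + 1, p.2 + r + 1) := by
        refine co_hor' fun k hk => hmem ?_ ?_ <;> simp only <;> omega
      rw [hu]; exact e1.trans e2
    · have e1 : Co (BR p (K + 1) \ BR p r) (x.1, x.2) (p.1 + r + 1, x.2) := by
        refine co_hor' fun k hk => hmem ?_ ?_ <;> simp only <;> omega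
      have e2 : Co (BR p (K + 1) \ BR p r) (p.1 + r + 1, x.2) (p.1 + r + 1, p.2 + r + 1) := by
        refine co_ver' fun k hk => hmem ?_ ?_ <;> simp only <;> omega
      rw [hu]; exact e1.trans e2
  exact (key x hx hK.1 hK.2.1).trans (key y hy hK.2.2.1 hK.2.2.2.1).symm

/-! ### Arms -/

/-- a path inside a quadrant, cut at the first exit of a box -/
lemma cut_far {A : Finset (ℤ × ℤ)} {k : ℤ} {w : ℤ × ℤ} {R : ℤ} (hA : ∀ l ∈ A, dK k w l)
    {a x : ℤ × ℤ} (h : Co A a x) (hx : Far w R x) :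
    ∃ v, Far w R v ∧ Co (A ∩ QB k w R) a v := by
  have key : (∃ v, Far w R v ∧ Co (A ∩ QB k w R) a v) ∨
      (¬ Far w R x ∧ Co (A ∩ QB k w R) a x) := by
    clear hx
    induction h with
    | refl =>
      by_cases h : Far w R a
      · exact Or.inl ⟨a, h, Co.refl _ _⟩
      · exact Or.inr ⟨h, Co.refl _ _⟩
    | @tail b d _ hbd ih =>
      rcases ih with h | ⟨h1, h2⟩
      · exact Or.inl h
      · have h3 : Co (A ∩ QB k w R) a d := by
          refine h2.tail ⟨hbd.1, mem_inter.2 ⟨hbd.2, mem_QB.2 ⟨?_, hA _ hbd.2⟩⟩⟩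
          have h4 := unit_cases hbd.1
          unfold Far at h1
          rw [not_or, not_le, not_le, abs_lt, abs_lt] at h1
          rw [mem_BR]
          simp only [Prod.fst_add, Prod.snd_add]
          omega
        by_cases h : Far w R d
        · exact Or.inl ⟨d, h, h3⟩
        · exact Or.inr ⟨h, h3⟩
  rcases key with h1 | ⟨h1, -⟩
  · exact h1
  · exact absurd hx h1

variable {E M ω : Finset (ℤ × ℤ)} {u v φ ψ : ℤ × ℤ}

lemma OA_inc : Inc (OA E M u v) := by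
  rintro ω ω' h ⟨a, ha, x, h1, h2⟩
  exact ⟨a, ha, x, h1, h2.mono (inter_subset_inter_right h)⟩

lemma OA_congr {ω ω' : Finset (ℤ × ℤ)} (h : ω ∩ (E ∩ M) = ω' ∩ (E ∩ M)) :
    OA E M u v ω ↔ OA E M u v ω' := by
  unfold OA
  rw [h]

lemma du_congr' {A ω ω' : Finset (ℤ × ℤ)} (h : ω ∩ A = ω' ∩ A) : du A ω = du A ω' := by
  unfold du
  congr 1
  ext l
  rw [mem_sdiff, mem_sdiff]
  have : l ∈ A → (l ∈ ω ↔ l ∈ ω') := by
    intro hl
    constructor
    · intro h1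
      have : l ∈ ω' ∩ A := by rw [← h]; exact mem_inter.2 ⟨h1, hl⟩
      exact (mem_inter.1 this).1
    · intro h1
      have : l ∈ ω ∩ A := by rw [h]; exact mem_inter.2 ⟨h1, hl⟩
      exact (mem_inter.1 this).1
  constructor
  · rintro ⟨h1, h2⟩
    exact ⟨h1, fun h3 => h2 ((this h1).2 h3)⟩
  · rintro ⟨h1, h2⟩
    exact ⟨h1, fun h3 => h2 ((this h1).1 h3)⟩

lemma CA_congr {ω ω' : Finset (ℤ × ℤ)} (h : ω ∩ (E ∩ M) = ω' ∩ (E ∩ M)) :
    CA E M φ ψ ω ↔ CA E M φ ψ ω' := by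
  unfold CA
  rw [du_congr' h]

lemma not_CA_inc : Inc (fun ω => ¬ CA E M φ ψ ω) := by
  rintro ω ω' h h1 ⟨a, ha, x, h2, h3⟩
  refine h1 ⟨a, ha, x, h2, h3.mono ?_⟩
  unfold du
  exact map_subset_map.2 (sdiff_subset_sdiff (Subset.refl _) h)

/-- **Probability of an open arm and a closed arm** -/
theorem arms_prob : ∃ C : ℝ, 0 < C ∧ ∀ (E E1 : Finset (ℤ × ℤ)) (p : ℤ × ℤ) (r s : ℕ)
    (k k' : ℤ) (w w' u v φ ψ : ℤ × ℤ), 1 ≤ s → 4 * s ≤ r → E ∩ BR p r ⊆ E1 →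
    (∀ l ∈ E ∩ BR p r, dK k w l) → (∀ l ∈ E ∩ BR p r, dK k' w' (l + (1, 1))) →
    Near p s w → Near p s w' → Near p s u → Near p s v → Near p s φ → Near p s ψ →
    PrP (fun _ => 1 / 2) E1 (fun ω => OA E (BR p r) u v ω ∧ CA E (BR p r) φ ψ ω) ≤
      C * ((s : ℝ) / r) ^ (4 / 3 : ℝ) := by
  obtain ⟨C1, hC1, h1⟩ := quad_arm
  obtain ⟨C2, hC2, h2⟩ := quad_arm_dual
  refine ⟨C1 * C2 * 4 ^ (4 / 3 : ℝ), by positivity, ?_⟩
  intro E E1 p r s k k' w w' u v φ ψ hs hr hE1 hk hk' nw nw' nu nv nφ nψ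
  set A := OA E (BR p r) u v with hA
  set B := CA E (BR p r) φ ψ with hB
  set M := E ∩ BR p r with hM
  have hq : Pb (fun _ : ℤ × ℤ => (1 / 2 : ℝ)) := Pb.const (by norm_num) (by norm_num)
  -- restriction to the box
  have e1 : PrP (fun _ => 1 / 2) E1 (fun ω => A ω ∧ B ω) =
      PrP (fun _ => 1 / 2) M (fun ω => A ω ∧ B ω) := by
    refine PrP_local hE1 fun ω _ => ?_
    have e : ω ∩ M ∩ M = ω ∩ M := by rw [inter_assoc, inter_self]
    exact and_congr (OA_congr e.symm) (CA_congr e.symm)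
  rw [e1]
  -- Harris
  have f1 := PrP_harris hq M (OA_inc (E := E) (M := BR p r) (u := u) (v := v))
    (not_CA_inc (E := E) (M := BR p r) (φ := φ) (ψ := ψ))
  have f2 := PrP_split (fun _ : ℤ × ℤ => (1 / 2 : ℝ)) (Subset.refl M) A B
  have hnear : ∀ {a b : ℤ × ℤ}, Near p s a → Near p s b → Near a (2 * s) b := by
    intro a b ha hb
    unfold Near at ha hb ⊢
    rw [abs_le, abs_le] at ha hb ⊢
    omega
  have hfar : ∀ {a x : ℤ × ℤ}, Near p s a → Far p r x → Far a ((r : ℤ) - s) x := by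
    intro a x ha hx
    unfold Near at ha
    unfold Far at hx ⊢
    rw [abs_le, abs_le] at ha
    rw [le_abs, le_abs] at hx ⊢
    omega
  have hrs : (((r - s : ℕ) : ℤ)) = (r : ℤ) - s := by omega
  have g1 : PrP (fun _ => 1 / 2) M A ≤ C1 * (((2 * s : ℕ) : ℝ) / ((r - s : ℕ) : ℝ)) ^ (2 / 3 : ℝ) := by
    rw [PrP_half]
    refine le_trans (Pr_mono ?_) (h1 k w (2 * s) (r - s) M (by omega) (by omega))
    rintro ω hω ⟨a, ha, x, hx, hc⟩
    have hna : Near p s a := by rcases ha with rfl | rfl <;> assumption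
    obtain ⟨y, hy, hc'⟩ := cut_far (k := k) (w := w) (R := ((r - s : ℕ) : ℤ))
      (fun l hl => hk l (mem_inter.1 hl).2) hc (by
        rw [hrs]; exact hfar nw (far_of_not_inV hx))
    refine ⟨a, y, ?_, hy, hc'.mono ?_⟩
    · have := hnear nw hna
      push_cast
      exact this
    · exact inter_subset_inter_right inter_subset_left
  have g2 : PrP (fun _ => 1 / 2) M B ≤ C2 * (((2 * s : ℕ) : ℝ) / ((r - s : ℕ) : ℝ)) ^ (2 / 3 : ℝ) := by
    rw [PrP_half]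
    refine le_trans (Pr_mono ?_) (h2 k' w' (2 * s) (r - s) M (by omega) (by omega))
    rintro ω hω ⟨a, ha, x, hx, hc⟩
    have hna : Near p s a := by rcases ha with rfl | rfl <;> assumption
    obtain ⟨y, hy, hc'⟩ := cut_far (k := k') (w := w') (R := ((r - s : ℕ) : ℤ))
      (fun l hl => by
        unfold du at hl
        obtain ⟨l', hl', he⟩ := mem_map.1 hl
        have : l = l' + (1, 1) := by rw [← he]; rfl
        rw [this]
        exact hk' l' (mem_sdiff.1 hl').1) hc (by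
        rw [hrs]; exact hfar nw' (far_of_not_inF hx))
    refine ⟨a, y, ?_, hy, hc'⟩
    have := hnear nw' hna
    push_cast
    exact this
  have A0 := PrP_nonneg hq M A
  have B0 := PrP_nonneg hq M B
  have h3 : PrP (fun _ => 1 / 2) M (fun ω => A ω ∧ B ω) ≤
      PrP (fun _ => 1 / 2) M A * PrP (fun _ => 1 / 2) M B := by
    have k1 : PrP (fun _ : ℤ × ℤ => (1 / 2 : ℝ)) M (fun ω => ¬ B ω) =
        1 - PrP (fun _ => 1 / 2) M B := PrP_not _ _ _
    have k2 : PrP (fun _ : ℤ × ℤ => (1 / 2 : ℝ)) M A =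
        PrP (fun _ => 1 / 2) M (fun ω => A ω ∧ B ω) +
        PrP (fun _ => 1 / 2) M (fun ω => A ω ∧ ¬ B ω) := by
      rw [← PrP_add_disj (fun ω _ h h' => h'.2 h.2)]
      exact PrP_congr fun ω _ => by tauto
    rw [k1] at f1
    nlinarith
  refine h3.trans ?_
  have hr0 : (0 : ℝ) < r := by
    have : 0 < r := by omega
    exact_mod_cast this
  have hs0 : (0 : ℝ) < s := by exact_mod_cast hs
  have hx0 : (0 : ℝ) < ((r - s : ℕ) : ℝ) := by
    have : 0 < r - s := by omega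
    exact_mod_cast this
  have h4 : ((2 * s : ℕ) : ℝ) / ((r - s : ℕ) : ℝ) ≤ 4 * ((s : ℝ) / r) := by
    rw [mul_div_assoc', div_le_div_iff₀ hx0 hr0]
    have h5 : ((r - s : ℕ) : ℝ) = (r : ℝ) - s := by
      rw [Nat.cast_sub (by omega)]
    have h6 : (4 * s : ℝ) ≤ r := by exact_mod_cast hr
    rw [h5]
    push_cast
    nlinarith
  have h7 : (((2 * s : ℕ) : ℝ) / ((r - s : ℕ) : ℝ)) ^ (2 / 3 : ℝ) ≤
      (4 * ((s : ℝ) / r)) ^ (2 / 3 : ℝ) :=
    Real.rpow_le_rpow (by positivity) h4 (by norm_num)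
  calc PrP (fun _ => 1 / 2) M A * PrP (fun _ => 1 / 2) M B
      ≤ (C1 * (4 * ((s : ℝ) / r)) ^ (2 / 3 : ℝ)) * (C2 * (4 * ((s : ℝ) / r)) ^ (2 / 3 : ℝ)) :=
        mul_le_mul (g1.trans (mul_le_mul_of_nonneg_left h7 hC1.le))
          (g2.trans (mul_le_mul_of_nonneg_left h7 hC2.le)) B0 (by positivity)
    _ = C1 * C2 * ((4 * ((s : ℝ) / r)) ^ (2 / 3 : ℝ) * (4 * ((s : ℝ) / r)) ^ (2 / 3 : ℝ)) := by ring
    _ = C1 * C2 * 4 ^ (4 / 3 : ℝ) * ((s : ℝ) / r) ^ (4 / 3 : ℝ) := by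
        rw [← Real.rpow_add (by positivity), show (2 / 3 : ℝ) + 2 / 3 = 4 / 3 by norm_num,
          Real.mul_rpow (by norm_num) (by positivity)]
        ring

end Pool.Agent.H14.R45
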