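import Mathlib
import Pool.Agent.H14.R45.DispP

set_option autoImplicit false
open Finset

/-! # Displacement lemma (DL), the theorem -/

namespace Pool.Agent.H14.R45

open Pool.Agent.H75.Perc Pool.Agent.H75.TwoArm Pool.Agent.H75.Four Pool.Agent.H69.Q1
open Pool.Agent.Q1 Pool.Agent.H43.Q1 Pool.Agent.H39.Q1 Pool.Agent.Q1.M6c
open Pool.Agent.H60.Q1 Pool.Agent.H99.NC Pool.Agent.H42.FM Pool.Agent.H44.FM

/-- same open labels and same root: same increments -/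
lemma incO_union {X Y : Env} {W W' ω ω' : Finset (ℤ × ℤ)} (hX : PlaneEnv X W) (hY : PlaneEnv Y W')
    (hc : Y.c0 = X.c0) (hk : Y.k0 = X.k0) (hω : ω ⊆ X.E) (hω' : ω' ⊆ Y.E)
    (h : ω' ∪ W' = ω ∪ W) (c : ℤ × ℤ) : Y.incO ω' c = X.incO ω c := by
  have o1 := hX.orb hω
  have o2 := hY.orb hω'
  rw [hc, h] at o2
  have hz : ∀ i, Y.z ω' i = X.z ω i := fun i => by rw [hX.zz _ hω, hY.zz _ hω', hc, h]
  have hK : ∀ i, Y.K ω' i = X.K ω i := fun i => by rw [hX.KK' _ hω, hY.KK' _ hω', hc, hk, h]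
  unfold Env.incO
  rw [o2.unique o1]
  exact sum_congr rfl fun i _ => by rw [hz, hK]

lemma far_one {p x : ℤ × ℤ} {r : ℤ} (h : Far p (r + 2) x) : Far p (r + 1) x := by
  unfold Far at h ⊢
  rw [le_abs, le_abs] at h ⊢
  omega

/-- the box of half size `N` around `(a, b)` is away from the box `BR p r` -/
def Sep (p : ℤ × ℤ) (r : ℤ) (a b : ℤ) (N : ℕ) : Prop :=
  a + N + 2 ≤ p.1 - r ∨ p.1 + r + 2 ≤ a - N ∨ b + N + 2 ≤ p.2 - r ∨ p.2 + r + 2 ≤ b - N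

/-- Hypotheses of the displacement lemma. -/
structure DispD (X Z : Env) (W : Finset (ℤ × ℤ)) (t p : ℤ × ℤ) (r s : ℕ) : Prop where
  hX : PlaneEnv X W
  hZ : PlaneEnv Z (insert t W)
  hE : Z.E = X.E
  hc : Z.c0 = X.c0
  hk : Z.k0 = X.k0
  htE : t ∉ X.E
  htW : t ∉ W
  root : plab X.c0 ≠ t
  far : Far p (r + 2) (vx X.c0)
  s1 : 1 ≤ s
  sr : 4 * s ≤ r
  tn : (|t.1 - 2 * p.1| + 2 ≤ 2 * s ∧ |t.2 - 2 * p.2| + 2 ≤ 2 * s)
  LW : ∃ Vw, LocW X.E W (BR p r) t Vw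
  LC : ∃ Fw, LocC X.E W (BR p r) t Fw
  quad : ∃ (k : ℤ) (w : ℤ × ℤ), Near p s w ∧ ∀ l ∈ X.E ∩ BR p r, dK k w l
  quad' : ∃ (k : ℤ) (w : ℤ × ℤ), Near p s w ∧ ∀ l ∈ X.E ∩ BR p r, dK k w (l + (1, 1))

variable {X Z : Env} {W : Finset (ℤ × ℤ)} {t p : ℤ × ℤ} {r s : ℕ}

lemma DispD.odd (D : DispD X Z W t p r s) : (t.1 + t.2) % 2 = 1 :=
  D.hZ.oddW t (mem_insert_self _ _)

lemma DispD.tM (D : DispD X Z W t p r s) : t ∈ BR p r := by
  have h1 := D.tn.1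
  have h2 := D.tn.2
  have h3 := D.odd
  have h4 := D.sr
  have h5 := abs_le.1 (show |t.1 - 2 * p.1| ≤ 2 * s - 2 by linarith)
  have h6 := abs_le.1 (show |t.2 - 2 * p.2| ≤ 2 * s - 2 by linarith)
  rw [mem_BR]
  omega

/-- **Good configurations**: toggling `t` has no effect at a far corner. -/
theorem DispD.incO_eq (D : DispD X Z W t p r s) {ω : Finset (ℤ × ℤ)} (hω : ω ⊆ X.E) {c : ℤ × ℤ}
    (hfar : Far p (r + 2) (vx c))
    (h : ¬ (OA X.E (BR p r) (eu t) (ev t) ω ∧ CA X.E (BR p r) (fi (zu t)) (fi (zv t)) ω)) :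
    Z.incO ω c = X.incO ω c := by
  have hEW : Disjoint X.E W := D.hX.disj
  have hpl : plab X.c0 ∉ X.E := by
    intro h
    obtain ⟨z', h1, h2⟩ := pv_empty_nxC X.c0
    exact X.root z' (by rw [h1]; exact h) h2
  have hr0 : (0 : ℤ) ≤ r := by positivity
  obtain ⟨g, hg1, hg2⟩ := D.hZ.out
  have hun : insert t X.E ∪ W = Z.E ∪ insert t W := by
    rw [D.hE, insert_union, union_insert]
  have hodd : ∀ e ∈ insert t X.E, (e.1 + e.2) % 2 = 1 := by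
    intro e he
    rcases mem_insert.1 he with rfl | h
    · exact D.odd
    · exact X.odd e h
  have hdis : Disjoint (insert t X.E) W := by
    rw [disjoint_insert_left]
    exact ⟨D.htW, hEW⟩
  have hroot : plab X.c0 ∉ insert t X.E := by
    rw [mem_insert, not_or]
    exact ⟨D.root, hpl⟩
  rw [← hun, D.hc] at hg1 hg2
  set Y : Env := Env.plane (insert t X.E) W X.c0 X.k0 g hodd hdis X.hk0 hroot hg1 hg2 with hY
  have PY : PlaneEnv Y W := planeEnv_plane D.hX.oddW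
  have hYE : Y.E = insert t X.E := rfl
  have e1 : Y.incO ω c = X.incO ω c :=
    incO_union D.hX PY rfl rfl hω (by rw [hYE]; exact hω.trans (subset_insert _ _)) rfl c
  have hωi : insert t ω ⊆ Y.E := by rw [hYE]; exact insert_subset_insert _ hω
  have e2 : Y.incO (insert t ω) c = Z.incO ω c := by
    refine incO_union D.hZ PY D.hc.symm D.hk.symm (by rw [D.hE]; exact hω) hωi ?_ c
    rw [insert_union, union_insert]
  rw [← e1, ← e2]
  symm
  have o0 : OutV (BR p r) (vx Y.c0) := outV_of_far (far_one D.far)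
  have oc : OutV (BR p r) (vx c) := outV_of_far (far_one hfar)
  have of0 : OutF (BR p r) (fi Y.c0) := outF_of_far D.far (fi_near_vx _)
  have ofc : OutF (BR p r) (fi c) := outF_of_far hfar (fi_near_vx _)
  have hsub : X.E ⊆ Y.E := by rw [hYE]; exact subset_insert _ _
  have htY : t ∈ Y.E := by rw [hYE]; exact mem_insert_self _ _
  obtain ⟨Vw, LW⟩ := D.LW
  obtain ⟨Fw, LC⟩ := D.LC
  by_cases hA : OA X.E (BR p r) (eu t) (ev t) ω
  · have hC : ¬ CA X.E (BR p r) (fi (zu t)) (fi (zv t)) ω := fun hC => h ⟨hA, hC⟩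
    have g1 : Far p ((r : ℤ) + 1) (vx Y.c0) := far_one D.far
    have g2 : Far p ((r : ℤ) + 1) (vx c) := far_one hfar
    obtain ⟨N, hN, hNM⟩ := co_far hr0 g1 g2
    exact toggle_of_not_CA PY.planeLike LC hsub htY hω D.htE D.htW D.tM hEW (sides_fi D.odd).1
      (sides_fi D.odd).2 of0 ofc hN hNM hC
  · exact toggle_of_not_OA PY.planeLike LW hsub htY hω D.htE D.htW D.tM (ends_vx D.odd).1
      (ends_vx D.odd).2 o0 oc (dco_far D.far (fi_near_vx _) hfar (fi_near_vx _)) hA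

lemma near_ends {t p : ℤ × ℤ} {s : ℕ} (ho : (t.1 + t.2) % 2 = 1)
    (tn : (|t.1 - 2 * p.1| + 2 ≤ 2 * s ∧ |t.2 - 2 * p.2| + 2 ≤ 2 * s)) {u v : ℤ × ℤ}
    (h1 : IsUnit4 (v - u)) (h2 : u + v = t ∨ u + v = t + (1, 1)) : Near p s u ∧ Near p s v := by
  have h3 := unit_cases h1
  have h5 := abs_le.1 (show |t.1 - 2 * p.1| ≤ 2 * s - 2 by linarith [tn.1])
  have h6 := abs_le.1 (show |t.2 - 2 * p.2| ≤ 2 * s - 2 by linarith [tn.2])
  obtain ⟨u1, u2⟩ := u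
  obtain ⟨v1, v2⟩ := v
  obtain ⟨t1, t2⟩ := t
  unfold Near
  simp only [abs_le]
  simp only [Prod.mk_add_mk, Prod.mk.injEq] at h2 h3 h5 h6 ho
  omega

/-- **Displacement lemma.** -/
theorem disp (hAP : AP PlaneK) : ∃ C : ℝ, 0 < C ∧ ∀ (X Z : Env) (W : Finset (ℤ × ℤ))
    (t p : ℤ × ℤ) (r s : ℕ), DispD X Z W t p r s → ∀ (a b : ℤ) (N : ℕ), Sep p r a b N →
    Bx (a - N) (a + N) (b - N) (b + N) ⊆ X.E → ∀ Hv Hf Gv Gf,
    X.Prim (a - N) (a + N) (b - N) (b + N) Hv Hf → Z.Prim (a - N) (a + N) (b - N) (b + N) Gv Gf →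
    ∀ u v : ℤ × ℤ, Qt a N u.1 → Qt b N u.2 → Qt a N v.1 → Qt b N v.2 →
    ‖(Gv u - Gv v) - (Hv u - Hv v)‖ ≤ C * ((s : ℝ) / r) ^ (4 / 3 : ℝ) * (N : ℝ) ^ (2 / 3 : ℝ) := by
  obtain ⟨CA0, hCA, hap⟩ := hAP
  obtain ⟨C1, hC1, harm⟩ := arms_prob
  refine ⟨2 * CA0 * C1, by positivity, ?_⟩
  intro X Z W t p r s D a b N hsep hB Hv Hf Gv Gf hH hG u v hu1 hu2 hv1 hv2
  set B := Bx (a - N) (a + N) (b - N) (b + N) with hBd
  set M : ℝ := CA0 * (N : ℝ) ^ (2 / 3 : ℝ) with hM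
  set Bad : Finset (ℤ × ℤ) → Prop := fun ω => OA X.E (BR p r) (eu t) (ev t) ω ∧
    CA X.E (BR p r) (fi (zu t)) (fi (zv t)) ω with hBad
  have hZB : B ⊆ Z.E := by rw [D.hE]; exact hB
  have hdisj : Disjoint B (BR p r) := by
    rw [disjoint_left]
    intro l hl hl'
    rw [hBd, mem_Bx] at hl
    rw [mem_BR] at hl'
    unfold Sep at hsep
    omega
  have hfarB : ∀ x : ℤ × ℤ, inB (a - N) (a + N) (b - N) (b + N) x → Far p (r + 2) x := by
    intro x hx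
    unfold inB at hx
    unfold Sep at hsep
    unfold Far
    rw [le_abs, le_abs]
    omega
  have hin : ∀ w : ℤ × ℤ, Qt a N w.1 → Qt b N w.2 → inB (a - N) (a + N) (b - N) (b + N) w := by
    intro w h1 h2
    have h3 := h1.bounds
    have h4 := h2.bounds
    unfold inB
    omega
  have hKX : PlaneK X := ⟨W, D.hX⟩
  have hKZ : PlaneK Z := ⟨insert t W, D.hZ⟩
  have hMX : ∀ Y : Env, PlaneK Y → B ⊆ Y.E → ∀ ω1 ⊆ Y.E \ B, ∀ Hv' Hf',
      (Y.freeze B ω1).Prim (a - N) (a + N) (b - N) (b + N) Hv' Hf' → ‖Hv' u - Hv' v‖ ≤ M := by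
    intro Y hY hYB ω1 _ Hv' Hf' hP
    exact hap _ (planeK_freeze hY B ω1) a b N
      (by rw [Env.freeze_E]; exact subset_inter hYB (Subset.refl _)) Hv' Hf' hP u v hu1 hu2 hv1 hv2
  have key := Env.compare (X := X) (Z := Z) hB hZB hH hG (hin u hu1 hu2) (hin v hv1 hv2)
    (E1 := X.E \ B) (r := fun ω => ω) (s := fun ω => ω) (fun ω h => h)
    (fun ω h => by rw [D.hE]; exact h) (fun F => rfl) (fun F => by rw [D.hE])
    (ζ := 1) (by simp) (Bad := Bad) (by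
      intro ω hω hgood z hz
      rw [one_mul, Env.inc_eq, Env.inc_eq, Env.freeze_E, Env.freeze_E, D.hE]
      refine Ec_congr fun ω' hω' => ?_
      rw [Env.freeze_incO (by rw [D.hE]; exact hω'), Env.freeze_incO hω', D.hE]
      have hsub : ω' ∪ ω ∩ (X.E \ Bx (a - N) (a + N) (b - N) (b + N)) ⊆ X.E :=
        union_subset (hω'.trans inter_subset_left) (inter_subset_right.trans sdiff_subset)
      refine D.incO_eq hsub (hfarB _ hz.1) ?_
      have e : (ω' ∪ ω ∩ (X.E \ Bx (a - N) (a + N) (b - N) (b + N))) ∩ (X.E ∩ BR p r) =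
          ω ∩ (X.E ∩ BR p r) := by
        ext l
        simp only [mem_inter, mem_union, mem_sdiff]
        constructor
        · rintro ⟨h1 | h1, h2, h3⟩
          · exact absurd h3 (disjoint_left.1 hdisj (mem_inter.1 (hω' h1)).2)
          · exact ⟨h1.1, h2, h3⟩
        · rintro ⟨h1, h2, h3⟩
          exact ⟨Or.inr ⟨h1, h2, fun h4 => disjoint_left.1 hdisj h4 h3⟩, h2, h3⟩
      rintro ⟨k1, k2⟩
      exact hgood ⟨(OA_congr e).1 k1, (CA_congr e).1 k2⟩)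
    (M := M) (hMX X hKX hB) (hMX Z hKZ hZB)
  rw [one_mul] at key
  refine key.trans ?_
  obtain ⟨k, w, nw, hw⟩ := D.quad
  obtain ⟨k', w', nw', hw'⟩ := D.quad'
  have n1 := near_ends D.odd D.tn (ends_vx D.odd).1 (Or.inl (ends_vx D.odd).2)
  have n2 := near_ends D.odd D.tn (sides_fi D.odd).1 (Or.inr (sides_fi D.odd).2)
  have hsubE : X.E ∩ BR p r ⊆ X.E \ B := by
    intro l hl
    obtain ⟨h1, h2⟩ := mem_inter.1 hl
    exact mem_sdiff.2 ⟨h1, fun h3 => disjoint_left.1 hdisj h3 h2⟩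
  have hp := harm X.E (X.E \ B) p r s k k' w w' (eu t) (ev t) (fi (zu t)) (fi (zv t)) D.s1 D.sr
    hsubE hw hw' nw nw' n1.1 n1.2 n2.1 n2.2
  have hM0 : 0 ≤ 2 * M := by positivity
  calc 2 * M * PrP (fun _ => 1 / 2) (X.E \ B) Bad
      ≤ 2 * M * (C1 * ((s : ℝ) / r) ^ (4 / 3 : ℝ)) := mul_le_mul_of_nonneg_left hp hM0
    _ = 2 * CA0 * C1 * ((s : ℝ) / r) ^ (4 / 3 : ℝ) * (N : ℝ) ^ (2 / 3 : ℝ) := by
        rw [hM]; ring

end Pool.Agent.H14.R45
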