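import Mathlib
import Pool.Agent.H14.R45.DispT
import Pool.Agent.H74.R45.SPot

set_option autoImplicit false
open Finset

/-! # Displacement lemma (DL) on rectangles of tiles

`disp_rect` : the displacement lemma for the potentials on a rectangle of tiles, for two points of the
core of the rectangle (distance at least `m` from the boundary), by a chain of quarter boxes. -/

namespace Pool.Agent.H14.R45

open Pool.Agent.H75.Perc hiding ph
open Pool.Agent.H75.TwoArm Pool.Agent.H75.Four Pool.Agent.H69.Q1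
open Pool.Agent.Q1 Pool.Agent.H43.Q1 Pool.Agent.H39.Q1 Pool.Agent.Q1.M6c
open Pool.Agent.H60.Q1 Pool.Agent.H99.NC Pool.Agent.H42.FM Pool.Agent.H44.FM
open Pool.Agent.H33.Q1 (lt tt tv tf lt_inj tt_lt lt_odd lt_tt)
open Pool.Agent.H74.R45 (Pot sg sg_even sg_odd RT lt_mem_RT)

/-! ### Increments -/

variable {X Z : Env} {W : Finset (ℤ × ℤ)} {t p : ℤ × ℤ} {r s : ℕ}

/-- the increments at a far corner -/
theorem DispD.inc_diff (D : DispD X Z W t p r s) {c : ℤ × ℤ} (hfar : Far p (r + 2) (vx c)) :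
    ‖Z.inc c - X.inc c‖ ≤ 2 * PrP (fun _ => 1 / 2) X.E (fun ω =>
      OA X.E (BR p r) (eu t) (ev t) ω ∧ CA X.E (BR p r) (fi (zu t)) (fi (zv t)) ω) := by
  classical
  rw [Env.inc_eq, Env.inc_eq, D.hE, ← Ec_sub]
  have hb : ∀ ω, ω ⊆ X.E → ‖Z.incO ω c - X.incO ω c‖ ≤ 2 * ind (
      OA X.E (BR p r) (eu t) (ev t) ω ∧ CA X.E (BR p r) (fi (zu t)) (fi (zv t)) ω) := by
    intro ω hω
    by_cases hB : OA X.E (BR p r) (eu t) (ev t) ω ∧ CA X.E (BR p r) (fi (zu t)) (fi (zv t)) ω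
    · rw [ind_true hB, mul_one]
      have k1 := Env.incO_norm (X := X) hω c
      have k2 := Env.incO_norm (X := Z) (ω := ω) (by rw [D.hE]; exact hω) c
      refine (norm_sub_le _ _).trans ?_
      linarith
    · rw [ind_false hB, mul_zero, D.incO_eq hω hfar hB, sub_self, norm_zero]
  refine (Ec_half_norm hb).trans ?_
  rw [Ex_smul]
  exact le_of_eq rfl

/-! ### Potentials and primitives -/

lemma corner_cases (c : ℤ × ℤ) : (∃ x y, c = H74.R45.ve (x, y)) ∨ ∃ x y, c = H74.R45.he (x, y) := by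
  obtain ⟨c1, c2⟩ := c
  rcases Int.emod_two_eq_zero_or_one (c1 + c2) with h | h
  · right
    refine ⟨(c1 + c2 - 2) / 2, (c2 - c1) / 2, ?_⟩
    unfold H74.R45.he
    refine Prod.ext ?_ ?_ <;> simp only <;> omega
  · left
    refine ⟨(c1 + c2 - 1) / 2, (c2 - c1 - 1) / 2, ?_⟩
    unfold H74.R45.ve
    refine Prod.ext ?_ ?_ <;> simp only <;> omega

lemma corner_near {e c : ℤ × ℤ} (ho : (e.1 + e.2) % 2 = 1)
    (hc : c = in1 e ∨ c = in2 e ∨ c = nxC (in1 e) ∨ c = nxC (in2 e)) :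
    (c.1 = e.1 ∨ c.1 = e.1 + 1) ∧ (c.2 = e.2 ∨ c.2 = e.2 + 1) := by
  obtain ⟨x, y⟩ := e
  simp only at ho
  rcases Int.emod_two_eq_zero_or_one x with h | h
  · obtain ⟨a, rfl⟩ : ∃ a, x = 2 * a := ⟨x / 2, by omega⟩
    obtain ⟨b, rfl⟩ : ∃ b, y = 2 * b + 1 := ⟨y / 2, by omega⟩
    obtain ⟨e1, e2, e3, e4⟩ := corners_v a b
    rw [e1, e2, e3, e4] at hc
    rcases hc with h1 | h1 | h1 | h1 <;> (rw [h1]; constructor <;> dsimp only <;> omega)
  · obtain ⟨a, rfl⟩ : ∃ a, x = 2 * a + 1 := ⟨x / 2, by omega⟩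
    obtain ⟨b, rfl⟩ : ∃ b, y = 2 * b := ⟨y / 2, by omega⟩
    obtain ⟨e1, e2, e3, e4⟩ := corners_h a b
    rw [e1, e2, e3, e4] at hc
    rcases hc with h1 | h1 | h1 | h1 <;> (rw [h1]; constructor <;> dsimp only <;> omega)

/-- a potential on the rectangle gives a primitive on the boxes inside -/
lemma prim_of_pot {X : Env} {H : ℤ → ℤ → ℂ} {x0 x1 y0 y1 : ℤ}
    (hP : Pot (fun c => X.inc c) H x0 x1 y0 y1) {a b N : ℤ} (h1 : x0 ≤ a + b - 2 * N)
    (h2 : a + b + 2 * N ≤ x1) (h3 : y0 ≤ b - a - 2 * N) (h4 : b - a + 2 * N ≤ y1) :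
    X.Prim (a - N) (a + N) (b - N) (b + N) (fun v => H (tv v).1 (tv v).2)
      (fun f => H (tf f).1 (tf f).2) := by
  intro e he c hc
  rw [mem_Bx] at he
  have hn := corner_near he.2.2 hc
  rcases corner_cases c with ⟨x, y, rfl⟩ | ⟨x, y, rfl⟩
  · unfold H74.R45.ve at hn
    simp only at hn
    have h := hP.ver x y (by omega) (by omega) (by omega) (by omega)
    simp only at h ⊢
    rcases Int.emod_two_eq_zero_or_one (x + y) with hp | hp
    · have e1 : tv (vx (H74.R45.ve (x, y))) = (x, y) := by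
        unfold tv vx H74.R45.ve; refine Prod.ext ?_ ?_ <;> dsimp only <;> omega
      have e2 : tf (fi (H74.R45.ve (x, y))) = (x, y + 1) := by
        unfold tf fi H74.R45.ve; refine Prod.ext ?_ ?_ <;> dsimp only <;> omega
      rw [sg_even hp, one_mul] at h
      rw [e1, e2, h]
    · have e1 : tv (vx (H74.R45.ve (x, y))) = (x, y + 1) := by
        unfold tv vx H74.R45.ve; refine Prod.ext ?_ ?_ <;> dsimp only <;> omega
      have e2 : tf (fi (H74.R45.ve (x, y))) = (x, y) := by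
        unfold tf fi H74.R45.ve; refine Prod.ext ?_ ?_ <;> dsimp only <;> omega
      rw [sg_odd hp] at h
      rw [e1, e2]
      linear_combination h
  · unfold H74.R45.he at hn
    simp only at hn
    have h := hP.hor x y (by omega) (by omega) (by omega) (by omega)
    simp only at h ⊢
    rcases Int.emod_two_eq_zero_or_one (x + y) with hp | hp
    · have e1 : tv (vx (H74.R45.he (x, y))) = (x, y) := by
        unfold tv vx H74.R45.he; refine Prod.ext ?_ ?_ <;> dsimp only <;> omega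
      have e2 : tf (fi (H74.R45.he (x, y))) = (x + 1, y) := by
        unfold tf fi H74.R45.he; refine Prod.ext ?_ ?_ <;> dsimp only <;> omega
      rw [sg_even hp, one_mul] at h
      rw [e1, e2, h]
    · have e1 : tv (vx (H74.R45.he (x, y))) = (x + 1, y) := by
        unfold tv vx H74.R45.he; refine Prod.ext ?_ ?_ <;> dsimp only <;> omega
      have e2 : tf (fi (H74.R45.he (x, y))) = (x, y) := by
        unfold tf fi H74.R45.he; refine Prod.ext ?_ ?_ <;> dsimp only <;> omega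
      rw [sg_odd hp] at h
      rw [e1, e2]
      linear_combination h

lemma pot_of_gprim {X : Env} {Ht : ℤ × ℤ → ℂ} (H : H21.FM.GPrim X Ht) {x0 x1 y0 y1 : ℤ}
    (hx : x0 < x1) (hy : y0 < y1) (hE : RT x0 x1 y0 y1 ⊆ X.E) :
    Pot (fun c => X.inc c) (fun x y => Ht (x, y)) x0 x1 y0 y1 := by
  refine ⟨fun x y a b c d => ?_, fun x y a b c d => ?_⟩
  · refine (H74.R45.gprim_edge H).1 ?_
    rcases H74.R45.RC_he a b c d hy with h | h
    · exact Or.inl (hE h)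
    · exact Or.inr (hE h)
  · refine (H74.R45.gprim_edge H).2 ?_
    rcases H74.R45.RC_ve a b c d hx with h | h
    · exact Or.inl (hE h)
    · exact Or.inr (hE h)

lemma bx_sub {E : Finset (ℤ × ℤ)} {x0 x1 y0 y1 : ℤ} (hE : RT x0 x1 y0 y1 ⊆ E) {a b N : ℤ}
    (h1 : x0 ≤ a + b - 2 * N) (h2 : a + b + 2 * N ≤ x1) (h3 : y0 ≤ b - a - 2 * N)
    (h4 : b - a + 2 * N ≤ y1) : Bx (a - N) (a + N) (b - N) (b + N) ⊆ E := by
  intro e he
  rw [mem_Bx] at he
  apply hE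
  rw [← lt_tt he.2.2]
  have : tt e = ((tt e).1, (tt e).2) := rfl
  rw [this, lt_mem_RT]
  unfold tt
  simp only
  omega

/-! ### Chains -/

lemma chain_even {D : ℤ → ℤ → ℂ} {a0 a1 b0 b1 q : ℤ} {δ : ℝ} (hq : 0 ≤ q) (hq2 : q % 2 = 0)
    (h : ∀ x y x' y', a0 ≤ x → x ≤ a1 → b0 ≤ y → y ≤ b1 → a0 ≤ x' → x' ≤ a1 → b0 ≤ y' → y' ≤ b1 →
      (x + y) % 2 = 0 → (x' + y') % 2 = 0 → |x' - x| ≤ q → |y' - y| ≤ q →
      ‖D x' y' - D x y‖ ≤ δ) (n : ℕ) :
    ∀ x y x' y', a0 ≤ x → x ≤ a1 → b0 ≤ y → y ≤ b1 → a0 ≤ x' → x' ≤ a1 → b0 ≤ y' → y' ≤ b1 →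
      (x + y) % 2 = 0 → (x' + y') % 2 = 0 → |x' - x| ≤ (n + 1 : ℕ) * q →
      |y' - y| ≤ (n + 1 : ℕ) * q → ‖D x' y' - D x y‖ ≤ (n + 1 : ℕ) * δ := by
  induction n with
  | zero =>
    intro x y x' y' e1 e2 e3 e4 e5 e6 e7 e8 e9 e10 e11 e12
    have := h x y x' y' e1 e2 e3 e4 e5 e6 e7 e8 e9 e10 (by simpa using e11) (by simpa using e12)
    simpa using this
  | succ n ih =>
    intro x y x' y' e1 e2 e3 e4 e5 e6 e7 e8 e9 e10 e11 e12
    set g : ℤ → ℤ := fun d => if q < d then q else if d < -q then -q else 0 with hg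
    have hstep : ∀ d : ℤ, |d| ≤ (n + 1 + 1 : ℕ) * q → |d - g d| ≤ (n + 1 : ℕ) * q ∧ |g d| ≤ q ∧
        g d % 2 = 0 ∧ (0 ≤ d → 0 ≤ g d ∧ g d ≤ d) ∧ (d ≤ 0 → d ≤ g d ∧ g d ≤ 0) := by
      intro d hd
      have hn : (0 : ℤ) ≤ (n : ℤ) * q := by positivity
      push_cast at hd ⊢
      rw [abs_le] at hd ⊢
      rw [abs_le]
      simp only [hg]
      have e : ((n : ℤ) + 1 + 1) * q = n * q + q + q := by ring
      have e' : ((n : ℤ) + 1) * q = n * q + q := by ring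
      rw [e] at hd
      rw [e']
      split_ifs with k1 k2 <;> omega
    obtain ⟨g1, g2, g3, g4, g5⟩ := hstep _ e11
    obtain ⟨f1, f2, f3, f4, f5⟩ := hstep _ e12
    have i1 := h x y (x + g (x' - x)) (y + g (y' - y)) e1 e2 e3 e4 (by omega) (by omega)
      (by omega) (by omega) e9 (by omega) (by simpa using g2) (by simpa using f2)
    have i2 := ih (x + g (x' - x)) (y + g (y' - y)) x' y' (by omega) (by omega)
      (by omega) (by omega) e5 e6 e7 e8 (by omega) e10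
      (by rw [show x' - (x + g (x' - x)) = x' - x - g (x' - x) by ring]; exact g1)
      (by rw [show y' - (y + g (y' - y)) = y' - y - g (y' - y) by ring]; exact f1)
    have e : D x' y' - D x y = (D x' y' - D (x + g (x' - x)) (y + g (y' - y))) +
        (D (x + g (x' - x)) (y + g (y' - y)) - D x y) := by ring
    rw [e]
    refine (norm_add_le _ _).trans ?_
    push_cast at i2 ⊢
    linarith

lemma chain {D : ℤ → ℤ → ℂ} {a0 a1 b0 b1 q : ℤ} {δ : ℝ} (hq : 0 ≤ q) (hq2 : q % 2 = 0)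
    (h : ∀ x y x' y', a0 ≤ x → x ≤ a1 → b0 ≤ y → y ≤ b1 → a0 ≤ x' → x' ≤ a1 → b0 ≤ y' → y' ≤ b1 →
      (x + y) % 2 = 0 → (x' + y') % 2 = 0 → |x' - x| ≤ q → |y' - y| ≤ q →
      ‖D x' y' - D x y‖ ≤ δ) (ha : a0 < a1)
    (hs : ∀ x y, a0 ≤ x → x < a1 → b0 ≤ y → y ≤ b1 → ‖D (x + 1) y - D x y‖ ≤ δ)
    (n : ℕ) (hna : a1 - a0 ≤ (n + 1 : ℕ) * q) (hnb : b1 - b0 ≤ (n + 1 : ℕ) * q) :
    ∀ x y x' y', a0 ≤ x → x ≤ a1 → b0 ≤ y → y ≤ b1 → a0 ≤ x' → x' ≤ a1 → b0 ≤ y' → y' ≤ b1 →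
      ‖D x' y' - D x y‖ ≤ (n + 3 : ℕ) * δ := by
  have hδ : b0 ≤ b1 → 0 ≤ δ := fun hb => (norm_nonneg _).trans (hs a0 b0 le_rfl ha le_rfl hb)
  -- every point is at most one step away from an even one
  have key : ∀ x y, a0 ≤ x → x ≤ a1 → b0 ≤ y → y ≤ b1 → ∃ x'', a0 ≤ x'' ∧ x'' ≤ a1 ∧
      (x'' + y) % 2 = 0 ∧ ‖D x'' y - D x y‖ ≤ δ := by
    intro x y e1 e2 e3 e4
    rcases Int.emod_two_eq_zero_or_one (x + y) with hp | hp
    · exact ⟨x, e1, e2, hp, by rw [sub_self, norm_zero]; exact hδ (e3.trans e4)⟩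
    · by_cases hx : x < a1
      · exact ⟨x + 1, by omega, by omega, by omega, hs x y e1 hx e3 e4⟩
      · refine ⟨x - 1, by omega, by omega, by omega, ?_⟩
        have := hs (x - 1) y (by omega) (by omega) e3 e4
        rw [sub_add_cancel, norm_sub_rev] at this
        exact this
  intro x y x' y' e1 e2 e3 e4 e5 e6 e7 e8
  obtain ⟨u, u1, u2, u3, u4⟩ := key x y e1 e2 e3 e4
  obtain ⟨v, v1, v2, v3, v4⟩ := key x' y' e5 e6 e7 e8
  have h1 := chain_even hq hq2 h n u y v y' u1 u2 e3 e4 v1 v2 e7 e8 u3 v3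
    (by rw [abs_le]; omega) (by rw [abs_le]; omega)
  have e : D x' y' - D x y = -(D v y' - D x' y') + (D v y' - D u y) + (D u y - D x y) := by ring
  rw [e]
  refine (norm_add_le _ _).trans ?_
  have h2 := norm_add_le (-(D v y' - D x' y')) (D v y' - D u y)
  rw [norm_neg] at h2
  push_cast at h1 ⊢
  linarith

/-- **Displacement lemma on a rectangle of tiles.** -/
theorem disp_rect (hAP : AP PlaneK) : ∃ C : ℝ, 0 < C ∧ ∀ (X Z : Env) (W : Finset (ℤ × ℤ))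
    (t p : ℤ × ℤ) (r s : ℕ), DispD X Z W t p r s → ∀ (x0 x1 y0 y1 : ℤ) (m n : ℕ),
    RT x0 x1 y0 y1 ⊆ X.E → 64 ≤ m → 8 * r ≤ m → x1 - x0 ≤ n * m → y1 - y0 ≤ n * m →
    ((tv p).1 ≤ x0 + 2 ∨ x1 - 2 ≤ (tv p).1 ∨ (tv p).2 ≤ y0 + 2 ∨ y1 - 2 ≤ (tv p).2) →
    ∀ HX HZ : ℤ → ℤ → ℂ, Pot (fun c => X.inc c) HX x0 x1 y0 y1 →
    Pot (fun c => Z.inc c) HZ x0 x1 y0 y1 → ∀ x y x' y' : ℤ,
    x0 + m ≤ x → x ≤ x1 - m → y0 + m ≤ y → y ≤ y1 - m →
    x0 + m ≤ x' → x' ≤ x1 - m → y0 + m ≤ y' → y' ≤ y1 - m →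
    ‖(HZ x' y' - HX x' y') - (HZ x y - HX x y)‖ ≤
      C * (n + 1) * ((s : ℝ) / r) ^ (4 / 3 : ℝ) * (m : ℝ) ^ (2 / 3 : ℝ) := by
  obtain ⟨C0, hC0, hdisp⟩ := disp hAP
  obtain ⟨C1, hC1, harm⟩ := arms_prob
  refine ⟨64 * (C0 + 2 * C1), by positivity, ?_⟩
  intro X Z W t p r s D x0 x1 y0 y1 m n hE hm hr hx hy hp HX HZ hX hZ x y x' y' a1 a2 a3 a4 b1 b2 b3 b4
  have hm0 : (1 : ℝ) ≤ m := by
    have : 1 ≤ m := by omega
    exact_mod_cast this
  have hsr : (0 : ℝ) ≤ ((s : ℝ) / r) ^ (4 / 3 : ℝ) := by positivity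
  set δ : ℝ := (C0 + 2 * C1) * ((s : ℝ) / r) ^ (4 / 3 : ℝ) * (m : ℝ) ^ (2 / 3 : ℝ) with hδ
  have hδ0 : 0 ≤ δ := by positivity
  set N : ℕ := m / 4 with hN
  set q : ℤ := 2 * ((m / 64 : ℕ) : ℤ) with hq
  have hq0 : 0 ≤ q := by omega
  -- steps between even points
  have h1 : ∀ x y x' y', x0 + m - 1 ≤ x → x ≤ x1 - m + 1 → y0 + m ≤ y → y ≤ y1 - m →
      x0 + m - 1 ≤ x' → x' ≤ x1 - m + 1 → y0 + m ≤ y' → y' ≤ y1 - m →
      (x + y) % 2 = 0 → (x' + y') % 2 = 0 → |x' - x| ≤ q → |y' - y| ≤ q →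
      ‖(HZ x' y' - HX x' y') - (HZ x y - HX x y)‖ ≤ δ := by
    intro x y x' y' c1 c2 c3 c4 c5 c6 c7 c8 c9 c10 c11 c12
    obtain ⟨a, b, ha⟩ : ∃ a b : ℤ, x = a + b ∧ y = b - a := ⟨(x - y) / 2, (x + y) / 2, by omega⟩
    obtain ⟨a', b', hb⟩ : ∃ a b : ℤ, x' = a + b ∧ y' = b - a :=
      ⟨(x' - y') / 2, (x' + y') / 2, by omega⟩
    obtain ⟨rfl, rfl⟩ := ha
    obtain ⟨rfl, rfl⟩ := hb
    rw [abs_le] at c11 c12
    have hsep : Sep p r a b N := by
      unfold Sep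
      unfold tv at hp
      simp only at hp
      omega
    have hB := bx_sub hE (a := a) (b := b) (N := N) (by omega) (by omega) (by omega) (by omega)
    have hPX := prim_of_pot hX (a := a) (b := b) (N := N) (by omega) (by omega) (by omega)
      (by omega)
    have hPZ := prim_of_pot hZ (a := a) (b := b) (N := N) (by omega) (by omega) (by omega)
      (by omega)
    have key := hdisp X Z W t p r s D a b N hsep hB _ _ _ _ hPX hPZ (a', b') (a, b)
      (by unfold Qt; rw [show (4 : ℤ) * |(a', b').1 - a| = |4 * ((a', b').1 - a)| by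
            rw [abs_mul]; norm_num, abs_le]; simp only; omega)
      (by unfold Qt; rw [show (4 : ℤ) * |(a', b').2 - b| = |4 * ((a', b').2 - b)| by
            rw [abs_mul]; norm_num, abs_le]; simp only; omega)
      (by unfold Qt; simp) (by unfold Qt; simp)
    have e : (HZ (a' + b') (b' - a') - HX (a' + b') (b' - a')) - (HZ (a + b) (b - a) -
        HX (a + b) (b - a)) = (HZ (tv (a', b')).1 (tv (a', b')).2 - HZ (tv (a, b)).1 (tv (a, b)).2) -
        (HX (tv (a', b')).1 (tv (a', b')).2 - HX (tv (a, b)).1 (tv (a, b)).2) := by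
      unfold tv; ring
    rw [e]
    refine key.trans ?_
    have hNm : (N : ℝ) ^ (2 / 3 : ℝ) ≤ (m : ℝ) ^ (2 / 3 : ℝ) := by
      refine Real.rpow_le_rpow (by positivity) ?_ (by norm_num)
      have : N ≤ m := by omega
      exact_mod_cast this
    rw [hδ]
    refine mul_le_mul ?_ hNm (by positivity) (by positivity)
    refine mul_le_mul_of_nonneg_right ?_ hsr
    linarith
  -- steps from an even to an odd point
  obtain ⟨k, w, nw, hw⟩ := D.quad
  obtain ⟨k', w', nw', hw'⟩ := D.quad'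
  have n1 := near_ends D.odd D.tn (ends_vx D.odd).1 (Or.inl (ends_vx D.odd).2)
  have n2 := near_ends D.odd D.tn (sides_fi D.odd).1 (Or.inr (sides_fi D.odd).2)
  have hp' := harm X.E X.E p r s k k' w w' (eu t) (ev t) (fi (zu t)) (fi (zv t)) D.s1 D.sr
    inter_subset_left hw hw' nw nw' n1.1 n1.2 n2.1 n2.2
  have h2 : ∀ x y, x0 + m - 1 ≤ x → x < x1 - m + 1 → y0 + m ≤ y → y ≤ y1 - m →
      ‖(HZ (x + 1) y - HX (x + 1) y) - (HZ x y - HX x y)‖ ≤ δ := by
    intro x y c1 c2 c3 c4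
    have e1 := hX.hor x y (by omega) (by omega) (by omega) (by omega)
    have e2 := hZ.hor x y (by omega) (by omega) (by omega) (by omega)
    have hfar : Far p (r + 2) (vx (H74.R45.he (x, y))) := by
      unfold Far vx H74.R45.he
      unfold tv at hp
      rw [le_abs, le_abs]
      simp only at hp ⊢
      omega
    have e3 : (HZ (x + 1) y - HX (x + 1) y) - (HZ x y - HX x y) =
        -(sg (x + y) * (Z.inc (H74.R45.he (x, y)) - X.inc (H74.R45.he (x, y)))) := by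
      linear_combination e2 - e1
    have e4 : ‖sg (x + y)‖ = 1 := by
      rcases Int.emod_two_eq_zero_or_one (x + y) with hp | hp
      · rw [sg_even hp, norm_one]
      · rw [sg_odd hp, norm_neg, norm_one]
    rw [e3, norm_neg, norm_mul, e4, one_mul]
    refine (D.inc_diff hfar).trans ?_
    have h3 : (1 : ℝ) ≤ (m : ℝ) ^ (2 / 3 : ℝ) := Real.one_le_rpow hm0 (by norm_num)
    calc 2 * PrP (fun _ => 1 / 2) X.E (fun ω =>
          OA X.E (BR p r) (eu t) (ev t) ω ∧ CA X.E (BR p r) (fi (zu t)) (fi (zv t)) ω)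
        ≤ 2 * (C1 * ((s : ℝ) / r) ^ (4 / 3 : ℝ)) := mul_le_mul_of_nonneg_left hp' (by norm_num)
      _ = (2 * C1) * ((s : ℝ) / r) ^ (4 / 3 : ℝ) * 1 := by ring
      _ ≤ (C0 + 2 * C1) * ((s : ℝ) / r) ^ (4 / 3 : ℝ) * (m : ℝ) ^ (2 / 3 : ℝ) := by
          refine mul_le_mul ?_ h3 (by norm_num) (by positivity)
          refine mul_le_mul_of_nonneg_right ?_ hsr
          linarith
  -- the chain
  have hqm : (m : ℤ) ≤ 64 * q := by omega
  have hn : (n : ℤ) * m ≤ (64 * n + 1 : ℕ) * q := by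
    push_cast
    have : (n : ℤ) * m ≤ n * (64 * q) := mul_le_mul_of_nonneg_left hqm (by positivity)
    linarith
  have key := chain (D := fun x y => HZ x y - HX x y) (a0 := x0 + m - 1) (a1 := x1 - m + 1)
    (b0 := y0 + m) (b1 := y1 - m) (q := q) (δ := δ) hq0 (by omega) h1 (by omega) h2 (64 * n)
    (by omega) (by omega) x y x' y' (by omega) (by omega) a3 a4 (by omega) (by omega) b3 b4
  refine key.trans ?_
  have h4 : ((64 * n + 3 : ℕ) : ℝ) ≤ 64 * ((n : ℝ) + 1) := by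
    push_cast; linarith
  calc ((64 * n + 3 : ℕ) : ℝ) * δ ≤ 64 * ((n : ℝ) + 1) * δ := mul_le_mul_of_nonneg_right h4 hδ0
    _ = 64 * (C0 + 2 * C1) * (n + 1) * ((s : ℝ) / r) ^ (4 / 3 : ℝ) * (m : ℝ) ^ (2 / 3 : ℝ) := by
        rw [hδ]; ring

end Pool.Agent.H14.R45
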