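import Mathlib
import Pool.Agent.H14.R45.DispR

set_option autoImplicit false
open Finset

/-! # The displacement lemma in the tile frame

`vt X Y` : the vertex at the even tile point `(X, Y)`; `ft X Y` : the face at the odd tile point. An edge
between two vertices (faces) is the tile between two diagonal points. Zigzag chains in a column or a row
of tiles. `DispD.mk'` : the hypotheses of the displacement lemma in the tile frame. -/

namespace Pool.Agent.H14.R45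

open Pool.Agent.H75.Perc hiding ph
open Pool.Agent.H75.TwoArm Pool.Agent.H75.Four Pool.Agent.H69.Q1
open Pool.Agent.Q1 Pool.Agent.H43.Q1 Pool.Agent.H39.Q1 Pool.Agent.Q1.M6c
open Pool.Agent.H60.Q1 Pool.Agent.H99.NC Pool.Agent.H42.FM Pool.Agent.H44.FM
open Pool.Agent.H33.Q1 (lt tt tv tf lt_inj tt_lt lt_odd lt_tt)

/-- vertex at the even tile point -/
def vt (X Y : ℤ) : ℤ × ℤ := ((X - Y) / 2, (X + Y) / 2)

/-- face at the odd tile point -/
def ft (X Y : ℤ) : ℤ × ℤ := ((X - Y + 1) / 2, (X + Y + 1) / 2)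

lemma exists_vt (x : ℤ × ℤ) : ∃ X Y, x = vt X Y ∧ (X + Y) % 2 = 0 := by
  obtain ⟨a, b⟩ := x
  refine ⟨a + b, b - a, ?_, by omega⟩
  unfold vt
  refine Prod.ext ?_ ?_ <;> dsimp only <;> omega

lemma exists_ft (f : ℤ × ℤ) : ∃ X Y, f = ft X Y ∧ (X + Y) % 2 = 1 := by
  obtain ⟨a, b⟩ := f
  refine ⟨a + b - 1, b - a, ?_, by omega⟩
  unfold ft
  refine Prod.ext ?_ ?_ <;> dsimp only <;> omega

lemma vt_inj {X Y X' Y' : ℤ} (h : (X + Y) % 2 = 0) (h' : (X' + Y') % 2 = 0)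
    (e : vt X Y = vt X' Y') : X = X' ∧ Y = Y' := by
  unfold vt at e
  simp only [Prod.mk.injEq] at e
  omega

lemma ft_inj {X Y X' Y' : ℤ} (h : (X + Y) % 2 = 1) (h' : (X' + Y') % 2 = 1)
    (e : ft X Y = ft X' Y') : X = X' ∧ Y = Y' := by
  unfold ft at e
  simp only [Prod.mk.injEq] at e
  omega

/-- the neighbours of a vertex -/
lemma unit_vt {X Y : ℤ} {y : ℤ × ℤ} (h : (X + Y) % 2 = 0) (hy : IsUnit4 (y - vt X Y)) :
    ∃ X' Y', y = vt X' Y' ∧ (X' + Y') % 2 = 0 ∧ ∃ x y, vt X Y + vt X' Y' = lt (x, y) ∧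
      ((X = x ∧ X' = x + 1) ∨ (X = x + 1 ∧ X' = x)) ∧
      ((Y = y ∧ Y' = y + 1) ∨ (Y = y + 1 ∧ Y' = y)) := by
  obtain ⟨X', Y', rfl, h'⟩ := exists_vt y
  refine ⟨X', Y', rfl, h', min X X', min Y Y', ?_⟩
  have h1 := unit_cases hy
  unfold vt at h1 ⊢
  unfold lt
  simp only [Prod.mk_add_mk, Prod.mk.injEq] at h1 ⊢
  omega

/-- the neighbours of a face -/
lemma unit_ft {X Y : ℤ} {y : ℤ × ℤ} (h : (X + Y) % 2 = 1) (hy : IsUnit4 (y - ft X Y)) :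
    ∃ X' Y', y = ft X' Y' ∧ (X' + Y') % 2 = 1 ∧ ∃ x y, ft X Y + ft X' Y' - (1, 1) = lt (x, y) ∧
      ((X = x ∧ X' = x + 1) ∨ (X = x + 1 ∧ X' = x)) ∧
      ((Y = y ∧ Y' = y + 1) ∨ (Y = y + 1 ∧ Y' = y)) := by
  obtain ⟨X', Y', rfl, h'⟩ := exists_ft y
  refine ⟨X', Y', rfl, h', min X X', min Y Y', ?_⟩
  have h1 := unit_cases hy
  unfold ft at h1 ⊢
  unfold lt
  simp only [Prod.mk_add_mk, Prod.mk_sub_mk, Prod.mk.injEq] at h1 ⊢
  omega

/-- a step through an open tile -/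
lemma ad_vt {A : Finset (ℤ × ℤ)} {X Y X' Y' x y : ℤ} (h : (X + Y) % 2 = 0)
    (h1 : (X = x ∧ X' = x + 1) ∨ (X = x + 1 ∧ X' = x))
    (h2 : (Y = y ∧ Y' = y + 1) ∨ (Y = y + 1 ∧ Y' = y)) (hA : lt (x, y) ∈ A) :
    Co A (vt X Y) (vt X' Y') := by
  have e : vt X Y + vt X' Y' = lt (x, y) := by
    unfold vt lt
    simp only [Prod.mk_add_mk, Prod.mk.injEq]
    omega
  refine Relation.ReflTransGen.single ⟨?_, by rw [e]; exact hA⟩
  unfold vt IsUnit4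
  simp only [Prod.mk_sub_mk, Prod.mk.injEq]
  omega

/-- a step through a closed tile -/
lemma ad_ft {A ω : Finset (ℤ × ℤ)} {X Y X' Y' x y : ℤ} (h : (X + Y) % 2 = 1)
    (h1 : (X = x ∧ X' = x + 1) ∨ (X = x + 1 ∧ X' = x))
    (h2 : (Y = y ∧ Y' = y + 1) ∨ (Y = y + 1 ∧ Y' = y)) (hA : lt (x, y) ∈ A)
    (hω : lt (x, y) ∉ ω) : Co (du A ω) (ft X Y) (ft X' Y') := by
  have e : ft X Y + ft X' Y' - (1, 1) = lt (x, y) := by
    unfold ft lt
    simp only [Prod.mk_add_mk, Prod.mk_sub_mk, Prod.mk.injEq]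
    omega
  refine Relation.ReflTransGen.single ⟨?_, mem_du_of (by rw [e]; exact hA) (by rw [e]; exact hω)⟩
  unfold ft IsUnit4
  simp only [Prod.mk_sub_mk, Prod.mk.injEq]
  omega

/-! ### Zigzag chains -/

/-- chain in a column of open tiles -/
lemma col_vt {A : Finset (ℤ × ℤ)} {c Y0 Y1 : ℤ} (hA : ∀ y, Y0 ≤ y → y < Y1 → lt (c, y) ∈ A)
    {X Y X' Y' : ℤ} (h : (X + Y) % 2 = 0) (h' : (X' + Y') % 2 = 0) (hX : X = c ∨ X = c + 1)
    (hX' : X' = c ∨ X' = c + 1) (h1 : Y0 ≤ Y) (h2 : Y ≤ Y1) (h1' : Y0 ≤ Y') (h2' : Y' ≤ Y1) :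
    Co A (vt X Y) (vt X' Y') := by
  have key : ∀ n : ℕ, ∀ X Y X' Y' : ℤ, (X + Y) % 2 = 0 → (X' + Y') % 2 = 0 → (X = c ∨ X = c + 1) →
      (X' = c ∨ X' = c + 1) → Y0 ≤ Y → Y' = Y + n → Y' ≤ Y1 → Co A (vt X Y) (vt X' Y') := by
    intro n
    induction n with
    | zero =>
      intro X Y X' Y' h h' hX hX' h1 e h2
      have : X = X' := by push_cast at e; omega
      have : Y = Y' := by push_cast at e; omega
      subst X Y
      exact Co.refl _ _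
    | succ n ih =>
      intro X Y X' Y' h h' hX hX' h1 e h2
      push_cast at e
      have s1 := ad_vt (A := A) (X := X) (Y := Y) (X' := 2 * c + 1 - X) (Y' := Y + 1) (x := c)
        (y := Y) h (by omega) (by omega) (hA _ h1 (by omega))
      exact s1.trans (ih (2 * c + 1 - X) (Y + 1) X' Y' (by omega) h' (by omega) hX' (by omega)
        (by omega) h2)
  rcases le_total Y Y' with hy | hy
  · exact key (Y' - Y).toNat X Y X' Y' h h' hX hX' h1 (by omega) h2'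
  · exact (key (Y - Y').toNat X' Y' X Y h' h hX' hX h1' (by omega) h2).symm

/-- chain in a row of open tiles -/
lemma row_vt {A : Finset (ℤ × ℤ)} {c X0 X1 : ℤ} (hA : ∀ x, X0 ≤ x → x < X1 → lt (x, c) ∈ A)
    {X Y X' Y' : ℤ} (h : (X + Y) % 2 = 0) (h' : (X' + Y') % 2 = 0) (hY : Y = c ∨ Y = c + 1)
    (hY' : Y' = c ∨ Y' = c + 1) (h1 : X0 ≤ X) (h2 : X ≤ X1) (h1' : X0 ≤ X') (h2' : X' ≤ X1) :
    Co A (vt X Y) (vt X' Y') := by
  have key : ∀ n : ℕ, ∀ X Y X' Y' : ℤ, (X + Y) % 2 = 0 → (X' + Y') % 2 = 0 → (Y = c ∨ Y = c + 1) →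
      (Y' = c ∨ Y' = c + 1) → X0 ≤ X → X' = X + n → X' ≤ X1 → Co A (vt X Y) (vt X' Y') := by
    intro n
    induction n with
    | zero =>
      intro X Y X' Y' h h' hX hX' h1 e h2
      have : Y = Y' := by push_cast at e; omega
      have : X = X' := by push_cast at e; omega
      subst X Y
      exact Co.refl _ _
    | succ n ih =>
      intro X Y X' Y' h h' hX hX' h1 e h2
      push_cast at e
      have s1 := ad_vt (A := A) (X := X) (Y := Y) (X' := X + 1) (Y' := 2 * c + 1 - Y) (x := X)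
        (y := c) h (by omega) (by omega) (hA _ h1 (by omega))
      exact s1.trans (ih (X + 1) (2 * c + 1 - Y) X' Y' (by omega) h' (by omega) hX' (by omega)
        (by omega) h2)
  rcases le_total X X' with hy | hy
  · exact key (X' - X).toNat X Y X' Y' h h' hY hY' h1 (by omega) h2'
  · exact (key (X - X').toNat X' Y' X Y h' h hY' hY h1' (by omega) h2).symm

/-- chain in a column of closed tiles -/
lemma col_ft {A ω : Finset (ℤ × ℤ)} {c Y0 Y1 : ℤ}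
    (hA : ∀ y, Y0 ≤ y → y < Y1 → lt (c, y) ∈ A ∧ lt (c, y) ∉ ω)
    {X Y X' Y' : ℤ} (h : (X + Y) % 2 = 1) (h' : (X' + Y') % 2 = 1) (hX : X = c ∨ X = c + 1)
    (hX' : X' = c ∨ X' = c + 1) (h1 : Y0 ≤ Y) (h2 : Y ≤ Y1) (h1' : Y0 ≤ Y') (h2' : Y' ≤ Y1) :
    Co (du A ω) (ft X Y) (ft X' Y') := by
  have key : ∀ n : ℕ, ∀ X Y X' Y' : ℤ, (X + Y) % 2 = 1 → (X' + Y') % 2 = 1 → (X = c ∨ X = c + 1) →
      (X' = c ∨ X' = c + 1) → Y0 ≤ Y → Y' = Y + n → Y' ≤ Y1 →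
      Co (du A ω) (ft X Y) (ft X' Y') := by
    intro n
    induction n with
    | zero =>
      intro X Y X' Y' h h' hX hX' h1 e h2
      have : X = X' := by push_cast at e; omega
      have : Y = Y' := by push_cast at e; omega
      subst X Y
      exact Co.refl _ _
    | succ n ih =>
      intro X Y X' Y' h h' hX hX' h1 e h2
      push_cast at e
      have hh := hA Y h1 (by omega)
      have s1 := ad_ft (A := A) (ω := ω) (X := X) (Y := Y) (X' := 2 * c + 1 - X) (Y' := Y + 1)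
        (x := c) (y := Y) h (by omega) (by omega) hh.1 hh.2
      exact s1.trans (ih (2 * c + 1 - X) (Y + 1) X' Y' (by omega) h' (by omega) hX' (by omega)
        (by omega) h2)
  rcases le_total Y Y' with hy | hy
  · exact key (Y' - Y).toNat X Y X' Y' h h' hX hX' h1 (by omega) h2'
  · exact (key (Y - Y').toNat X' Y' X Y h' h hX' hX h1' (by omega) h2).symm

/-- chain in a row of closed tiles -/
lemma row_ft {A ω : Finset (ℤ × ℤ)} {c X0 X1 : ℤ}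
    (hA : ∀ x, X0 ≤ x → x < X1 → lt (x, c) ∈ A ∧ lt (x, c) ∉ ω)
    {X Y X' Y' : ℤ} (h : (X + Y) % 2 = 1) (h' : (X' + Y') % 2 = 1) (hY : Y = c ∨ Y = c + 1)
    (hY' : Y' = c ∨ Y' = c + 1) (h1 : X0 ≤ X) (h2 : X ≤ X1) (h1' : X0 ≤ X') (h2' : X' ≤ X1) :
    Co (du A ω) (ft X Y) (ft X' Y') := by
  have key : ∀ n : ℕ, ∀ X Y X' Y' : ℤ, (X + Y) % 2 = 1 → (X' + Y') % 2 = 1 → (Y = c ∨ Y = c + 1) →
      (Y' = c ∨ Y' = c + 1) → X0 ≤ X → X' = X + n → X' ≤ X1 →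
      Co (du A ω) (ft X Y) (ft X' Y') := by
    intro n
    induction n with
    | zero =>
      intro X Y X' Y' h h' hX hX' h1 e h2
      have : Y = Y' := by push_cast at e; omega
      have : X = X' := by push_cast at e; omega
      subst X Y
      exact Co.refl _ _
    | succ n ih =>
      intro X Y X' Y' h h' hX hX' h1 e h2
      push_cast at e
      have hh := hA X h1 (by omega)
      have s1 := ad_ft (A := A) (ω := ω) (X := X) (Y := Y) (X' := X + 1) (Y' := 2 * c + 1 - Y)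
        (x := X) (y := c) h (by omega) (by omega) hh.1 hh.2
      exact s1.trans (ih (X + 1) (2 * c + 1 - Y) X' Y' (by omega) h' (by omega) hX' (by omega)
        (by omega) h2)
  rcases le_total X X' with hy | hy
  · exact key (X' - X).toNat X Y X' Y' h h' hY hY' h1 (by omega) h2'
  · exact (key (X - X').toNat X' Y' X Y h' h hY' hY h1' (by omega) h2).symm

/-- the box in the tile frame -/
lemma lt_mem_BR {P Q : ℤ} (hP : (P + Q) % 2 = 0) {r x y : ℤ} : lt (x, y) ∈ BR (vt P Q) r ↔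
    |x - y - (P - Q)| ≤ 2 * r ∧ |x + y + 1 - (P + Q)| ≤ 2 * r := by
  rw [mem_BR]
  unfold lt vt
  simp only [abs_le]
  omega

variable {E W M : Finset (ℤ × ℤ)} {t : ℤ × ℤ}

/-- `LocW` in the tile frame -/
lemma locW_mk (z : ℤ × ℤ) (H : ∀ X Y x1 y1 x2 y2 : ℤ, (X + Y) % 2 = 0 → (X = x1 ∨ X = x1 + 1) →
    (Y = y1 ∨ Y = y1 + 1) → (X = x2 ∨ X = x2 + 1) → (Y = y2 ∨ Y = y2 + 1) → lt (x1, y1) ∈ W →
    lt (x1, y1) ∈ M → lt (x2, y2) ∈ insert t (E ∩ M) → Co (W ∩ M) (vt X Y) z ∨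
    ∀ x3 y3 : ℤ, (2 * x1 + 1 - X = x3 ∨ 2 * x1 + 1 - X = x3 + 1) →
      (2 * y1 + 1 - Y = y3 ∨ 2 * y1 + 1 - Y = y3 + 1) → lt (x3, y3) ∈ E ∪ insert t W →
      x3 = x1 ∧ y3 = y1) : ∃ Vw, LocW E W M t Vw := by
  refine ⟨fun x => Co (W ∩ M) x z, fun x y hx hy => hx.trans hy.symm, ?_⟩
  intro x y y' h1 h2 h3 h4 h5
  obtain ⟨X, Y, rfl, hp⟩ := exists_vt x
  obtain ⟨X', Y', rfl, hp', x1, y1, e1, f1, f2⟩ := unit_vt hp h1
  obtain ⟨X2, Y2, rfl, hp2, x2, y2, e2, g1, g2⟩ := unit_vt hp h4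
  rw [e1] at h2 h3
  rw [e2] at h5
  rcases H X Y x1 y1 x2 y2 hp (by omega) (by omega) (by omega) (by omega) h2 h3 h5 with h6 | h6
  · exact Or.inl h6
  · refine Or.inr fun z hz h7 => ?_
    obtain ⟨X3, Y3, rfl, hp3, x3, y3, e3, k1, k2⟩ := unit_vt hp' hz
    rw [e3] at h7
    have h8 := h6 x3 y3 (by omega) (by omega) h7
    have : X3 = X := by omega
    have : Y3 = Y := by omega
    subst X3 Y3
    rfl

/-- `LocC` in the tile frame -/
lemma locC_mk (z : ℤ × ℤ) (H : ∀ X Y x1 y1 x2 y2 : ℤ, (X + Y) % 2 = 1 → (X = x1 ∨ X = x1 + 1) →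
    (Y = y1 ∨ Y = y1 + 1) → (X = x2 ∨ X = x2 + 1) → (Y = y2 ∨ Y = y2 + 1) → lt (x1, y1) ∈ M →
    lt (x1, y1) ∉ E → lt (x1, y1) ∉ W → lt (x1, y1) ≠ t → lt (x2, y2) ∈ insert t (E ∩ M) →
    Co (du (M \ insert t E) W) (ft X Y) z ∨
    ∀ x3 y3 : ℤ, (2 * x1 + 1 - X = x3 ∨ 2 * x1 + 1 - X = x3 + 1) →
      (2 * y1 + 1 - Y = y3 ∨ 2 * y1 + 1 - Y = y3 + 1) → lt (x3, y3) ∉ W → lt (x3, y3) ≠ t →
      x3 = x1 ∧ y3 = y1) : ∃ Fw, LocC E W M t Fw := by
  refine ⟨fun x => Co (du (M \ insert t E) W) x z, fun x y hx hy => hx.trans hy.symm, ?_⟩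
  intro x y y' h1 h2 h2a h2b h2c h4 h5
  obtain ⟨X, Y, rfl, hp⟩ := exists_ft x
  obtain ⟨X', Y', rfl, hp', x1, y1, e1, f1, f2⟩ := unit_ft hp h1
  obtain ⟨X2, Y2, rfl, hp2, x2, y2, e2, g1, g2⟩ := unit_ft hp h4
  rw [e1] at h2 h2a h2b h2c
  rw [e2] at h5
  rcases H X Y x1 y1 x2 y2 hp (by omega) (by omega) (by omega) (by omega) h2 h2a h2b h2c h5 with
    h6 | h6
  · exact Or.inl h6
  · refine Or.inr fun z hz h7 h8 => ?_
    obtain ⟨X3, Y3, rfl, hp3, x3, y3, e3, k1, k2⟩ := unit_ft hp' hz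
    rw [e3] at h7 h8
    have h9 := h6 x3 y3 (by omega) (by omega) h7 h8
    have : X3 = X := by omega
    have : Y3 = Y := by omega
    subst X3 Y3
    rfl

/-! ### Odd labels -/

/-- the odd labels -/
noncomputable def od (W : Finset (ℤ × ℤ)) : Finset (ℤ × ℤ) := W.filter fun e => (e.1 + e.2) % 2 = 1

lemma lt_mem_od {p : ℤ × ℤ} : lt p ∈ od W ↔ lt p ∈ W := by
  unfold od
  rw [mem_filter]
  exact ⟨fun h => h.1, fun h => ⟨h, lt_odd p⟩⟩

lemma od_sub : od W ⊆ W := filter_subset _ _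

lemma od_insert (p : ℤ × ℤ) : od (insert (lt p) W) = insert (lt p) (od W) := by
  unfold od
  rw [filter_insert, if_pos (lt_odd p)]

lemma mem_od_union {E : Finset (ℤ × ℤ)} {e : ℤ × ℤ} (he : (e.1 + e.2) % 2 = 1) :
    e ∈ E ∪ od W ↔ e ∈ E ∪ W := by
  unfold od
  rw [mem_union, mem_union, mem_filter]
  tauto

lemma nx_od (ω : Finset (ℤ × ℤ)) : nx (ω ∪ od W) = nx (ω ∪ W) := by
  funext c
  unfold nx
  exact if_congr (mem_od_union (lab_odd c)) rfl rfl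

lemma del_od (ω : Finset (ℤ × ℤ)) : del (ω ∪ od W) = del (ω ∪ W) := by
  funext c
  unfold del
  exact if_congr (mem_od_union (lab_odd c)) rfl rfl

/-- the plane environment of labels, without parity -/
theorem planeEnv_od {E W : Finset (ℤ × ℤ)} {c0 : ℤ × ℤ} {k0 : ℤ} {g : ℤ × ℤ}
    {hE : ∀ e ∈ E, (e.1 + e.2) % 2 = 1} {hd : Disjoint E W} {hk : k0 % 4 = ty c0}
    {hroot : plab c0 ∉ E} {hg : DCo (E ∪ W) (fi c0) g}
    {hlow : ∀ v, Co (E ∪ W) (vx c0) v → g.2 < v.2} :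
    PlaneEnv (Env.plane E W c0 k0 g hE hd hk hroot hg hlow) (od W) := by
  have hs : E ∪ od W ⊆ E ∪ W := union_subset_union_right od_sub
  refine ⟨hd.mono_right od_sub, fun e he => (mem_filter.1 he).2, fun ω hω i => ?_, fun ω hω i => ?_,
    g, hg.anti hs, fun v hv => hlow v (hv.mono hs)⟩
  · rw [nx_od]; exact plane_z hω i
  · rw [nx_od, del_od]; exact plane_K hω i

/-- the quadrants -/
lemma quad_mk {F : Finset (ℤ × ℤ)} {P Q : ℤ} (hp : (P + Q) % 2 = 0) {s : ℕ} (hs : 1 ≤ s)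
    (ho : ∀ l ∈ F, (l.1 + l.2) % 2 = 1) (σ τ : Bool)
    (h : ∀ x y, lt (x, y) ∈ F → ((σ = true → P ≤ x) ∧ (σ = false → x < P)) ∧
      ((τ = true → Q ≤ y) ∧ (τ = false → y < Q))) :
    (∃ k w, Near (vt P Q) s w ∧ ∀ l ∈ F, dK k w l) ∧
      ∃ k w, Near (vt P Q) s w ∧ ∀ l ∈ F, dK k w (l + (1, 1)) := by
  have hl : ∀ l ∈ F, ∃ x y, l = lt (x, y) ∧ ((σ = true → P ≤ x) ∧ (σ = false → x < P)) ∧
      ((τ = true → Q ≤ y) ∧ (τ = false → y < Q)) := by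
    intro l hl
    refine ⟨(tt l).1, (tt l).2, (lt_tt (ho l hl)).symm, h _ _ ?_⟩
    have : lt ((tt l).1, (tt l).2) = l := lt_tt (ho l hl)
    rw [this]; exact hl
  have d0 : dir 0 = (1, 0) := by unfold dir; norm_num
  have d1 : dir 1 = (0, 1) := by unfold dir; norm_num
  have d2 : dir 2 = (-1, 0) := by unfold dir; norm_num
  have d3 : dir 3 = (0, -1) := by unfold dir; norm_num
  have d4 : dir 4 = (1, 0) := by unfold dir; norm_num
  have hnear : ∀ a b : ℤ, (P + a + (Q + b)) % 2 = 0 → 0 ≤ a → a ≤ 1 → -1 ≤ b → b ≤ 1 →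
      Near (vt P Q) s (vt (P + a) (Q + b)) := by
    intro a b h1 h2 h3 h4 h5
    unfold Near vt
    simp only [abs_le]
    omega
  cases σ <;> cases τ
  · -- NE
    refine ⟨⟨2, _, hnear 0 0 (by omega) (by omega) (by omega) (by omega) (by omega), ?_⟩,
      ⟨2, _, hnear 1 1 (by omega) (by omega) (by omega) (by omega) (by omega), ?_⟩⟩
    all_goals
      intro l hl'
      obtain ⟨x, y, rfl, h1, h2⟩ := hl l hl'
      have h3 := h1.2 rfl
      have h4 := h2.2 rfl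
      unfold dK cr vt lt
      rw [show (2 : ℤ) + 1 = 3 by norm_num, d2, d3]
      simp only [Prod.mk_add_mk]
      omega
  · -- SE
    refine ⟨⟨1, _, hnear 0 0 (by omega) (by omega) (by omega) (by omega) (by omega), ?_⟩,
      ⟨1, _, hnear 1 (-1) (by omega) (by omega) (by omega) (by omega) (by omega), ?_⟩⟩
    all_goals
      intro l hl'
      obtain ⟨x, y, rfl, h1, h2⟩ := hl l hl'
      have h3 := h1.2 rfl
      have h4 := h2.1 rfl
      unfold dK cr vt lt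
      rw [show (1 : ℤ) + 1 = 2 by norm_num, d1, d2]
      simp only [Prod.mk_add_mk]
      omega
  · -- NW
    refine ⟨⟨3, _, hnear 0 0 (by omega) (by omega) (by omega) (by omega) (by omega), ?_⟩,
      ⟨3, _, hnear 0 0 (by omega) (by omega) (by omega) (by omega) (by omega), ?_⟩⟩
    all_goals
      intro l hl'
      obtain ⟨x, y, rfl, h1, h2⟩ := hl l hl'
      have h3 := h1.1 rfl
      have h4 := h2.2 rfl
      unfold dK cr vt lt
      rw [show (3 : ℤ) + 1 = 4 by norm_num, d3, d4]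
      simp only [Prod.mk_add_mk]
      omega
  · -- SW
    refine ⟨⟨0, _, hnear 0 0 (by omega) (by omega) (by omega) (by omega) (by omega), ?_⟩,
      ⟨0, _, hnear 0 0 (by omega) (by omega) (by omega) (by omega) (by omega), ?_⟩⟩
    all_goals
      intro l hl'
      obtain ⟨x, y, rfl, h1, h2⟩ := hl l hl'
      have h3 := h1.1 rfl
      have h4 := h2.1 rfl
      unfold dK cr vt lt
      rw [show (0 : ℤ) + 1 = 1 by norm_num, d0, d1]
      simp only [Prod.mk_add_mk]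
      omega

/-- a root far from the rectangle is far from the corner -/
lemma far_mk {P Q : ℤ} (hp : (P + Q) % 2 = 0) {r : ℤ} {v : ℤ × ℤ}
    (h : (tv v).1 ≤ P - 2 * r ∨ P + 2 * r ≤ (tv v).1 ∨ (tv v).2 ≤ Q - 2 * r ∨ Q + 2 * r ≤ (tv v).2) :
    Far (vt P Q) r v := by
  unfold Far vt
  unfold tv at h
  simp only at h ⊢
  rw [le_abs, le_abs]
  omega

/-! ### The scale `R` -/

/-- **Displacement lemma at scale `R`.** -/
theorem disp_scale (hAP : AP PlaneK) (η : ℝ) (hη : 0 < η) (s : ℕ) : ∃ C : ℝ, 0 < C ∧ ∃ R0 : ℕ,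
    ∀ R : ℕ, R0 ≤ R → 64 ≤ ⌊η * R⌋₊ ∧ 64 * s ≤ ⌊η * R⌋₊ ∧
    ∀ (X Z : Env) (W : Finset (ℤ × ℤ)) (t p : ℤ × ℤ), DispD X Z W t p (⌊η * R⌋₊ / 8) s →
    ∀ (x0 x1 y0 y1 : ℤ), H74.R45.RT x0 x1 y0 y1 ⊆ X.E → ((x1 : ℝ) - x0 ≤ R / η) →
    ((y1 : ℝ) - y0 ≤ R / η) →
    ((tv p).1 ≤ x0 + 2 ∨ x1 - 2 ≤ (tv p).1 ∨ (tv p).2 ≤ y0 + 2 ∨ y1 - 2 ≤ (tv p).2) →
    ∀ HX HZ : ℤ → ℤ → ℂ, H74.R45.Pot (fun c => X.inc c) HX x0 x1 y0 y1 →
    H74.R45.Pot (fun c => Z.inc c) HZ x0 x1 y0 y1 → ∀ x y x' y' : ℤ,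
    (x0 + η * R ≤ x) → (x + η * R ≤ x1) → (y0 + η * R ≤ y) → (y + η * R ≤ y1) →
    (x0 + η * R ≤ x') → (x' + η * R ≤ x1) → (y0 + η * R ≤ y') → (y' + η * R ≤ y1) →
    ‖(HZ x' y' - HX x' y') - (HZ x y - HX x y)‖ ≤ C * (R : ℝ) ^ (-(2 / 3) : ℝ) := by
  obtain ⟨C0, hC0, key⟩ := disp_rect hAP
  set n : ℕ := ⌈2 / η ^ 2⌉₊ with hn
  refine ⟨C0 * (n + 1) * (32 * s + 1) ^ (4 / 3 : ℝ) * η ^ (-(2 / 3) : ℝ), by positivity,
    ⌈(64 * (s + 1) + 1) / η⌉₊, ?_⟩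
  intro R hR
  have hηR : 64 * ((s : ℝ) + 1) + 1 ≤ η * R := by
    have h1 : (64 * ((s : ℝ) + 1) + 1) / η ≤ R := (Nat.le_ceil _).trans (by exact_mod_cast hR)
    rw [div_le_iff₀ hη] at h1
    linarith
  have hs0 : (0 : ℝ) ≤ s := by positivity
  set m : ℕ := ⌊η * R⌋₊ with hm
  have hm1 : (m : ℝ) ≤ η * R := Nat.floor_le (by linarith)
  have hm2 : η * R < m + 1 := Nat.lt_floor_add_one _
  have hms : 64 * (s + 1) ≤ m := by
    have : ((64 * (s + 1) : ℕ) : ℝ) < (m : ℝ) + 1 := by push_cast; linarith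
    have h2 : 64 * (s + 1) < m + 1 := by exact_mod_cast this
    omega
  refine ⟨by omega, by omega, ?_⟩
  intro X Z W t p D x0 x1 y0 y1 hE hx hy hp HX HZ hX hZ x y x' y' a1 a2 a3 a4 b1 b2 b3 b4
  have hR0 : (0 : ℝ) < R := by
    by_contra hc
    push Not at hc
    have : (R : ℝ) = 0 := le_antisymm hc (by positivity)
    rw [this] at hηR
    linarith
  have hm0 : (0 : ℝ) < m := by linarith
  have hmη : η * R ≤ 2 * m := by linarith
  have hsize : (R : ℝ) / η ≤ n * m := by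
    have h1 : 2 / η ^ 2 ≤ (n : ℝ) := Nat.le_ceil _
    have h2 : (R : ℝ) / η = (η * R) / η ^ 2 := by field_simp
    rw [h2]
    calc η * R / η ^ 2 ≤ 2 * m / η ^ 2 := by gcongr
      _ = 2 / η ^ 2 * m := by ring
      _ ≤ n * m := by gcongr
  have cv1 : ∀ {a b : ℤ}, (a : ℝ) + η * R ≤ b → a + (m : ℤ) ≤ b := by
    intro a b h
    have : ((a + (m : ℤ) : ℤ) : ℝ) ≤ b := by push_cast; linarith
    exact_mod_cast this
  have cv2 : ∀ {a b : ℤ}, (b : ℝ) - a ≤ R / η → b - a ≤ (n : ℤ) * m := by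
    intro a b h
    have : ((b - a : ℤ) : ℝ) ≤ ((n * m : ℤ) : ℝ) := by push_cast; linarith
    exact_mod_cast this
  have h := key X Z W t p (m / 8) s D x0 x1 y0 y1 m n hE (by omega) (by omega) (cv2 hx) (cv2 hy) hp
    HX HZ hX hZ x y x' y' (cv1 a1) (by have := cv1 a2; omega) (cv1 a3) (by have := cv1 a4; omega)
    (cv1 b1) (by have := cv1 b2; omega) (cv1 b3) (by have := cv1 b4; omega)
  refine h.trans ?_
  have hq : (s : ℝ) / ((m / 8 : ℕ) : ℝ) ≤ (32 * s + 1) / (η * R) := by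
    have h1 : (m : ℝ) ≤ 16 * ((m / 8 : ℕ) : ℝ) := by
      have : m ≤ 16 * (m / 8) := by omega
      exact_mod_cast this
    have h2 : (0 : ℝ) < ((m / 8 : ℕ) : ℝ) := by linarith
    have h3 : (0 : ℝ) < η * R := by positivity
    rw [div_le_div_iff₀ h2 h3]
    nlinarith
  have h1 : ((s : ℝ) / ((m / 8 : ℕ) : ℝ)) ^ (4 / 3 : ℝ) ≤ ((32 * s + 1) / (η * R)) ^ (4 / 3 : ℝ) :=
    Real.rpow_le_rpow (by positivity) hq (by norm_num)
  have h2 : (m : ℝ) ^ (2 / 3 : ℝ) ≤ (η * R) ^ (2 / 3 : ℝ) :=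
    Real.rpow_le_rpow hm0.le hm1 (by norm_num)
  have hηR0 : (0 : ℝ) < η * R := by positivity
  calc C0 * (n + 1) * ((s : ℝ) / ((m / 8 : ℕ) : ℝ)) ^ (4 / 3 : ℝ) * (m : ℝ) ^ (2 / 3 : ℝ)
      ≤ C0 * (n + 1) * ((32 * s + 1) / (η * R)) ^ (4 / 3 : ℝ) * (η * R) ^ (2 / 3 : ℝ) := by
        refine mul_le_mul (mul_le_mul_of_nonneg_left h1 (by positivity)) h2 (by positivity)
          (by positivity)
    _ = C0 * (n + 1) * (32 * s + 1) ^ (4 / 3 : ℝ) * η ^ (-(2 / 3) : ℝ) *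
        (R : ℝ) ^ (-(2 / 3) : ℝ) := by
        rw [Real.div_rpow (by positivity) hηR0.le, div_eq_mul_inv,
          ← Real.rpow_neg hηR0.le, mul_assoc (C0 * (n + 1)), mul_assoc ((32 * (s : ℝ) + 1) ^ _),
          ← Real.rpow_add hηR0, show (-(4 / 3) : ℝ) + 2 / 3 = -(2 / 3) by norm_num,
          Real.mul_rpow hη.le hR0.le]
        ring

end Pool.Agent.H14.R45
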