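import Mathlib
import Pool.Agent.H14.R45.DispF
import Pool.Agent.H74.R45.Nat

set_option autoImplicit false
open Finset

/-! # Displacement of the mark at NW: the environments `XA` and `XN` -/

namespace Pool.Agent.H14.R45

open Pool.Agent.H75.Perc hiding ph NA
open Pool.Agent.H75.TwoArm Pool.Agent.H75.Four Pool.Agent.H69.Q1
open Pool.Agent.Q1 Pool.Agent.H43.Q1 Pool.Agent.H39.Q1 Pool.Agent.Q1.M6c
open Pool.Agent.H60.Q1 Pool.Agent.H99.NC Pool.Agent.H42.FM Pool.Agent.H44.FM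
open Pool.Agent.H33.Q1 (lt tt tv tf lt_inj tt_lt lt_odd lt_tt)
open Pool.Agent.H74.R45 (Pot sg sg_even sg_odd RT lt_mem_RT odd_RT Out NA NN XA XN mem_NA mem_NN
  disj_NN disj_NA GA)

variable {w h : ℤ}

lemma lt_ne {x y x' y' : ℤ} (hn : x ≠ x' ∨ y ≠ y') : lt (x, y) ≠ lt (x', y') := by
  intro h
  have := lt_inj h
  simp only [Prod.mk.injEq] at this
  omega

lemma insert_NA (O : Out w h) : insert (lt (-1, h - 1)) (NA O) = NN O := by
  unfold NA
  refine insert_erase ?_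
  have := O.hw
  have := O.hh
  rw [mem_NN (by omega)]
  omega

/-- the hypotheses of the displacement lemma -/
theorem dispD_NA (O : Out w h) {r : ℕ} (hr : 8 ≤ r)
    (hw : 2 * r + 2 ≤ w) (hh : 2 * r + 2 ≤ h)
    (root : (tv (vx O.c0)).1 ≤ - (2 * (r + 2)) ∨ w + 2 * (r + 2) ≤ (tv (vx O.c0)).1 ∨
      (tv (vx O.c0)).2 ≤ - (2 * (r + 2)) ∨ h + 2 * (r + 2) ≤ (tv (vx O.c0)).2) :
    DispD (XA O) (XN O) (od (NA O)) (lt (-1, h - 1)) (vt 0 h) r 2 := by
  have w2 := O.w2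
  have h2 := O.h2
  have hp : (0 + h) % 2 = 0 := by omega
  have htE : lt (-1, h - 1) ∉ RT 0 w 0 h := by rw [lt_mem_RT]; omega
  have htW : lt (-1, h - 1) ∉ od (NA O) := by rw [lt_mem_od, mem_NA (by omega)]; omega
  refine ⟨?_, ?_, rfl, rfl, rfl, htE, htW, ?_, ?_, by norm_num, by omega, ?_, ?_, ?_, ?_, ?_⟩
  · exact planeEnv_od
  · rw [← od_insert, insert_NA O]; exact planeEnv_od
  · intro h1
    apply O.hroot
    show plab O.c0 ∈ GA w h
    have h1' : plab O.c0 = lt (-1, h - 1) := h1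
    rw [h1']
    unfold GA
    rw [lt_mem_RT]
    omega
  · refine far_mk hp ?_
    show (tv (vx O.c0)).1 ≤ _ ∨ _ ≤ (tv (vx O.c0)).1 ∨ (tv (vx O.c0)).2 ≤ _ ∨
      _ ≤ (tv (vx O.c0)).2
    omega
  · unfold lt vt
    simp only
    constructor <;> rw [← le_sub_iff_add_le, abs_le] <;> push_cast <;> omega
  · refine locW_mk (vt (-1) (h - 1)) ?_
    intro X Y x1 y1 x2 y2 h0 k1 k2 k3 k4 k5 k6 k7
    left
    rw [lt_mem_BR hp] at k6
    rw [abs_le, abs_le] at k6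
    have k8 : ((0 ≤ x2 ∧ x2 < w ∧ 0 ≤ y2 ∧ y2 < h) ∨ (x2 = -1 ∧ y2 = h - 1)) := by
      rcases mem_insert.1 k7 with h1 | h1
      · have := lt_inj h1
        simp only [Prod.mk.injEq] at this
        exact Or.inr this
      · have h3 : lt (x2, y2) ∈ RT 0 w 0 h := (mem_inter.1 h1).1
        rw [lt_mem_RT] at h3
        exact Or.inl h3
    rw [lt_mem_od, mem_NA (by omega)] at k5
    by_cases hx : x1 = -1
    · refine col_vt (c := -1) (Y0 := y1) (Y1 := h - 1) ?_ h0 (by omega) (by omega) (by omega)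
        (by omega) (by omega) (by omega) (by omega)
      intro y e1 e2
      rw [mem_inter, lt_mem_od, mem_NA (by omega), lt_mem_BR hp, abs_le, abs_le]
      omega
    · have : X = -1 := by omega
      have : Y = h - 1 := by omega
      subst X Y
      exact Co.refl _ _
  · refine locC_mk (ft (-1) h) ?_
    intro X Y x1 y1 x2 y2 h0 k1 k2 k3 k4 k5 k5a k5b k5c k7
    left
    rw [lt_mem_BR hp] at k5
    rw [abs_le, abs_le] at k5
    have k8 : ((0 ≤ x2 ∧ x2 < w ∧ 0 ≤ y2 ∧ y2 < h) ∨ (x2 = -1 ∧ y2 = h - 1)) := by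
      rcases mem_insert.1 k7 with h1 | h1
      · have := lt_inj h1
        simp only [Prod.mk.injEq] at this
        exact Or.inr this
      · have h3 : lt (x2, y2) ∈ RT 0 w 0 h := (mem_inter.1 h1).1
        rw [lt_mem_RT] at h3
        exact Or.inl h3
    have k5a' : lt (x1, y1) ∉ RT 0 w 0 h := k5a
    rw [lt_mem_RT] at k5a'
    rw [lt_mem_od, mem_NA (by omega)] at k5b
    have k5c' : ¬ (x1 = -1 ∧ y1 = h - 1) := by
      rintro ⟨rfl, rfl⟩
      exact k5c rfl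
    have hy1 : y1 = h := by omega
    subst y1
    refine row_ft (c := h) (X0 := -1) (X1 := X) ?_ h0 (by omega) (by omega) (by omega)
      (by omega) (by omega) (by omega) (by omega)
    intro x e1 e2
    constructor
    · rw [mem_sdiff, mem_insert, not_or, lt_mem_BR hp, abs_le, abs_le]
      refine ⟨by omega, lt_ne (by omega), ?_⟩
      show lt (x, h) ∉ RT 0 w 0 h
      rw [lt_mem_RT]
      omega
    · rw [lt_mem_od, mem_NA (by omega)]
      omega
  · refine (quad_mk hp (s := 2) (by norm_num) ?_ true false ?_).1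
    · intro l hl
      exact odd_RT (mem_inter.1 hl).1
    · intro x y hl
      have h3 : lt (x, y) ∈ RT 0 w 0 h := (mem_inter.1 hl).1
      rw [lt_mem_RT] at h3
      simp only [Bool.false_eq_true, false_implies, true_implies, true_and, and_true,
        Bool.true_eq_false]
      omega
  · refine (quad_mk hp (s := 2) (by norm_num) ?_ true false ?_).2
    · intro l hl
      exact odd_RT (mem_inter.1 hl).1
    · intro x y hl
      have h3 : lt (x, y) ∈ RT 0 w 0 h := (mem_inter.1 hl).1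
      rw [lt_mem_RT] at h3
      simp only [Bool.false_eq_true, false_implies, true_implies, true_and, and_true,
        Bool.true_eq_false]
      omega

/-- **Displacement of the mark at NW**, potentials. -/
theorem disp_NA (hAP : AP PlaneK) (η : ℝ) (hη : 0 < η) : ∃ C : ℝ, 0 < C ∧ ∃ R0 : ℕ,
    ∀ R : ℕ, R0 ≤ R → ∀ w h : ℤ, η * R ≤ w → w ≤ R / η → η * R ≤ h → h ≤ R / η →
    ∀ O : Out w h, ((tv (vx O.c0)).1 ≤ -⌊η * R⌋ ∨ w + ⌊η * R⌋ ≤ (tv (vx O.c0)).1 ∨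
      (tv (vx O.c0)).2 ≤ -⌊η * R⌋ ∨ h + ⌊η * R⌋ ≤ (tv (vx O.c0)).2) →
    ∀ Ha Hn : ℤ → ℤ → ℂ, Pot (fun c => (XA O).inc c) Ha 0 w 0 h →
    Pot (fun c => (XN O).inc c) Hn 0 w 0 h → ∀ x y x' y' : ℤ,
    (η * R ≤ x) → (x + η * R ≤ w) → (η * R ≤ y) → (y + η * R ≤ h) →
    (η * R ≤ x') → (x' + η * R ≤ w) → (η * R ≤ y') → (y' + η * R ≤ h) →
    ‖(Ha x' y' - Hn x' y') - (Ha x y - Hn x y)‖ ≤ C * (R : ℝ) ^ (-(2 / 3) : ℝ) := by
  obtain ⟨C, hC, R0, key⟩ := disp_scale hAP η hη 2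
  refine ⟨C, hC, R0, ?_⟩
  intro R hR w h w1 w2 h1 h2 O root Ha Hn hA hN x y x' y' a1 a2 a3 a4 b1 b2 b3 b4
  obtain ⟨m1, m2, key⟩ := key R hR
  have hηR : 0 ≤ η * R := by positivity
  have hfl : (⌊η * R⌋ : ℤ) = ((⌊η * R⌋₊ : ℕ) : ℤ) := (Int.natCast_floor_eq_floor hηR).symm
  rw [hfl] at root
  set m : ℕ := ⌊η * R⌋₊ with hm
  have hmle : (m : ℝ) ≤ η * R := Nat.floor_le hηR
  have hmw : (m : ℤ) ≤ w := by
    have : (m : ℝ) ≤ w := by linarith
    exact_mod_cast this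
  have hmh : (m : ℤ) ≤ h := by
    have : (m : ℝ) ≤ h := by linarith
    exact_mod_cast this
  have D := dispD_NA O (r := m / 8) (by omega) (by omega) (by omega) (by omega)
  have h := key _ _ _ _ _ D 0 w 0 h (Finset.Subset.refl _) (by push_cast; linarith)
    (by push_cast; linarith) (by left; unfold tv vt; simp only; omega) Ha Hn hA hN x y x' y'
    (by push_cast; linarith) a2 (by push_cast; linarith) a4 (by push_cast; linarith) b2
    (by push_cast; linarith) b4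
  rw [show (Ha x' y' - Hn x' y') - (Ha x y - Hn x y) =
    -((Hn x' y' - Ha x' y') - (Hn x y - Ha x y)) by ring, norm_neg]
  exact h

/-- **Displacement of the mark at NW**, primitives. -/
theorem disp_NA' (hAP : AP PlaneK) (η : ℝ) (hη : 0 < η) : ∃ C : ℝ, 0 < C ∧ ∃ R0 : ℕ,
    ∀ R : ℕ, R0 ≤ R → ∀ w h : ℤ, η * R ≤ w → w ≤ R / η → η * R ≤ h → h ≤ R / η →
    ∀ O : Out w h, ((tv (vx O.c0)).1 ≤ -⌊η * R⌋ ∨ w + ⌊η * R⌋ ≤ (tv (vx O.c0)).1 ∨
      (tv (vx O.c0)).2 ≤ -⌊η * R⌋ ∨ h + ⌊η * R⌋ ≤ (tv (vx O.c0)).2) →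
    ∀ Ha Hn : ℤ × ℤ → ℂ, H21.FM.GPrim (XA O) Ha → H21.FM.GPrim (XN O) Hn → ∀ x y x' y' : ℤ,
    (η * R ≤ x) → (x + η * R ≤ w) → (η * R ≤ y) → (y + η * R ≤ h) →
    (η * R ≤ x') → (x' + η * R ≤ w) → (η * R ≤ y') → (y' + η * R ≤ h) →
    ‖(Ha (x', y') - Hn (x', y')) - (Ha (x, y) - Hn (x, y))‖ ≤ C * (R : ℝ) ^ (-(2 / 3) : ℝ) := by
  obtain ⟨C, hC, R0, key⟩ := disp_NA hAP η hη
  refine ⟨C, hC, R0, fun R hR w h w1 w2 h1 h2 O root Ha Hn hA hN => ?_⟩
  have hw := O.hw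
  have hh := O.hh
  exact key R hR w h w1 w2 h1 h2 O root _ _
    (pot_of_gprim hA (by omega) (by omega) (Finset.Subset.refl _))
    (pot_of_gprim hN (by omega) (by omega) (Finset.Subset.refl _))

end Pool.Agent.H14.R45
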