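import Mathlib
import Pool.Agent.H14.R45.DispA
import Pool.Agent.H95.R45.Stmt

set_option autoImplicit false
open Finset

/-! # Displacement of the mark at NW, in the form of helper95 -/

namespace Pool.Agent.H14.R45

open Pool.Agent.Q1
open Pool.Agent.Q1.M6c
open Pool.Agent.H33.Q1 (tv)
open Pool.Agent.H74.R45 (Out XA XN Pot)
open Pool.Agent.Q1.M6e (OFar Inn inc2)

/-- potentials -/
theorem dl45_pot (hAP : AP PlaneK) (η : ℝ) (hη : 0 < η) : ∃ C : ℝ, 0 < C ∧ ∃ R0 : ℕ, ∀ R : ℕ,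
    R0 ≤ R → ∀ (w h : ℤ) (O : Out w h), H95.R45.Sc η R O →
    ∀ Ha Hn : ℤ → ℤ → ℂ, Pot (fun c => (XA O).inc c) Ha 0 w 0 h →
    Pot (fun c => (XN O).inc c) Hn 0 w 0 h → ∀ p q : ℤ × ℤ, Inn w h (η * R) p →
    Inn w h (η * R) q → ‖inc2 Ha p q - inc2 Hn p q‖ ≤ C * (R : ℝ) ^ (-(2 / 3) : ℝ) := by
  obtain ⟨C, hC, R0, key⟩ := disp_NA hAP η hη
  refine ⟨C, hC, R0, ?_⟩
  rintro R hR w h O S Ha Hn hA hN ⟨x, y⟩ ⟨x', y'⟩ hp hq
  obtain ⟨a1, a2, a3, a4⟩ := hp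
  obtain ⟨b1, b2, b3, b4⟩ := hq
  have := key R hR w h S.w1 S.w2 S.h1 S.h2 O (S.far.root _ _ rfl) Ha Hn hA hN x' y' x y b1 b2 b3 b4
    a1 a2 a3 a4
  unfold inc2
  rw [show Ha (x, y).1 (x, y).2 - Ha (x', y').1 (x', y').2 - (Hn (x, y).1 (x, y).2 -
    Hn (x', y').1 (x', y').2) = (Ha x y - Hn x y) - (Ha x' y' - Hn x' y') by ring]
  exact this

/-- **The displacement of the mark at NW.** -/
theorem dl45 (hAP : AP PlaneK) : H95.R45.DL45 := by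
  intro η hη
  obtain ⟨C, hC, R0, key⟩ := dl45_pot hAP η hη
  refine ⟨C, R0, ?_⟩
  intro R hR w h O S Ha Hn hA hN p q hp hq
  have hw := O.hw
  have hh := O.hh
  exact key R hR w h O S _ _
    (pot_of_gprim hA (by omega) (by omega) (Finset.Subset.refl _))
    (pot_of_gprim hN (by omega) (by omega) (Finset.Subset.refl _)) p q hp hq

end Pool.Agent.H14.R45
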