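import Mathlib
import Pool.Agent.H14.R45.DispF
import Pool.Agent.H13.R45.NatS

set_option autoImplicit false
open Finset

/-! # Displacement lemma for the real tiles of the lower environments

`dispD_SW`, `dispD_NWL` : the hypotheses of the displacement lemma for the natural environments
`XNL O α β S` below, real tile `lt (-1, 0)` (corner SW) or `lt (-1, h-1)` (corner NW). -/

namespace Pool.Agent.H14.R45

open Pool.Agent.H75.Perc hiding ph NA
open Pool.Agent.H75.TwoArm Pool.Agent.H75.Four Pool.Agent.H69.Q1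
open Pool.Agent.Q1 Pool.Agent.H43.Q1 Pool.Agent.H39.Q1 Pool.Agent.Q1.M6c
open Pool.Agent.H60.Q1 Pool.Agent.H99.NC Pool.Agent.H42.FM Pool.Agent.H44.FM
open Pool.Agent.H33.Q1 (lt tt tv tf lt_inj tt_lt lt_odd lt_tt)
open Pool.Agent.H74.R45 (Pot sg sg_even sg_odd RT lt_mem_RT odd_RT Out GA)
open Pool.Agent.H13.R45 (ENL WNL XNL mem_ENL mem_WNL RRL mem_RRL WNL_insert odd_ENL)

variable {w h x y : ℤ} {α β : Bool} {S : Finset (ℤ × ℤ)} {O : Out w h}

/-- a Boolean as an integer -/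
def bi (b : Bool) : ℤ := if b = true then 1 else 0

lemma bi_t {b : Bool} : b = true ↔ bi b = 1 := by cases b <;> simp [bi]

lemma bi_f {b : Bool} : b = false ↔ bi b = 0 := by cases b <;> simp [bi]

lemma bi_01 (b : Bool) : bi b = 0 ∨ bi b = 1 := by cases b <;> simp [bi]

lemma lt_ne' {x y x' y' : ℤ} (hn : x ≠ x' ∨ y ≠ y') : lt (x, y) ≠ lt (x', y') := by
  intro h
  have := lt_inj h
  simp only [Prod.mk.injEq] at this
  omega

/-- random labels -/
lemma mem_E' : lt (x, y) ∈ ENL w h α β ↔ (0 ≤ x ∧ x < w ∧ 0 ≤ y ∧ y < h) ∨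
    (bi α = 1 ∧ x = -1 ∧ 1 ≤ y ∧ y < h - 1) ∨ (bi β = 1 ∧ 0 ≤ x ∧ x < w ∧ y = -1) := by
  rw [mem_ENL, bi_t, bi_t]

/-- open labels near SW -/
lemma mem_WSW (hS : S ⊆ RRL h) (ht : lt (-1, 0) ∉ S)
    (hn : (-2 ≤ x ∧ x < w + 2 ∧ -2 ≤ y ∧ y ≤ h) ∧ y < h - 1) : lt (x, y) ∈ WNL O α β S ↔
    ((x = w ∨ x = -2 ∨ x = w + 1) ∧ -1 ≤ y ∧ y < h) ∨
    (bi α = 0 ∧ x = -1 ∧ 0 < y ∧ y < h ∧ y % 2 = 0) ∨
    (bi β = 0 ∧ y = -1 ∧ 0 < x ∧ x < w ∧ x % 2 = 1) := by
  rw [mem_WNL, bi_f, bi_f]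
  constructor
  · rintro ((h1 | h1 | h1) | h1 | h1)
    · exact Or.inl h1
    · exact absurd hn.1 (O.far x y h1)
    · exfalso
      have h2 := hS h1
      rw [mem_RRL] at h2
      obtain ⟨rfl, h3 | h3⟩ := h2
      · subst h3; exact ht h1
      · omega
    · exact Or.inr (Or.inl h1)
    · exact Or.inr (Or.inr h1)
  · rintro (h1 | h1 | h1)
    · exact Or.inl (Or.inl h1)
    · exact Or.inr (Or.inl h1)
    · exact Or.inr (Or.inr h1)

/-- open labels near NW -/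
lemma mem_WNW (hS : S ⊆ RRL h) (ht : lt (-1, h - 1) ∉ S)
    (hn : (-2 ≤ x ∧ x < w + 2 ∧ -2 ≤ y ∧ y ≤ h) ∧ 0 < y) : lt (x, y) ∈ WNL O α β S ↔
    ((x = w ∨ x = -2 ∨ x = w + 1) ∧ -1 ≤ y ∧ y < h) ∨
    (bi α = 0 ∧ x = -1 ∧ 0 < y ∧ y < h ∧ y % 2 = 0) ∨
    (bi β = 0 ∧ y = -1 ∧ 0 < x ∧ x < w ∧ x % 2 = 1) := by
  rw [mem_WNL, bi_f, bi_f]
  constructor
  · rintro ((h1 | h1 | h1) | h1 | h1)
    · exact Or.inl h1
    · exact absurd hn.1 (O.far x y h1)
    · exfalso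
      have h2 := hS h1
      rw [mem_RRL] at h2
      obtain ⟨rfl, h3 | h3⟩ := h2
      · omega
      · subst h3; exact ht h1
    · exact Or.inr (Or.inl h1)
    · exact Or.inr (Or.inr h1)
  · rintro (h1 | h1 | h1)
    · exact Or.inl (Or.inl h1)
    · exact Or.inr (Or.inl h1)
    · exact Or.inr (Or.inr h1)

/-- the point of a vertex or face at the real tile or at a random tile, near SW -/
lemma touch_SW {X Y x2 y2 : ℤ} (k3 : X = x2 ∨ X = x2 + 1) (k4 : Y = y2 ∨ Y = y2 + 1)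
    (k8 : (x2 = -1 ∧ y2 = 0) ∨ (0 ≤ x2 ∧ x2 < w ∧ 0 ≤ y2 ∧ y2 < h) ∨
      (bi α = 1 ∧ x2 = -1 ∧ 1 ≤ y2 ∧ y2 < h - 1) ∨ (bi β = 1 ∧ 0 ≤ x2 ∧ x2 < w ∧ y2 = -1)) :
    -1 ≤ X ∧ -1 ≤ Y ∧ (X = -1 → 0 ≤ Y ∧ (Y ≤ 1 ∨ bi α = 1)) ∧ (Y = -1 → bi β = 1 ∧ 0 ≤ X) := by
  rcases k8 with h1 | h1 | h1 | h1 <;> omega

lemma ins_E {E M : Finset (ℤ × ℤ)} {P : Prop} {x0 y0 x2 y2 : ℤ}
    (h : lt (x2, y2) ∈ insert (lt (x0, y0)) (E ∩ M)) (hE : lt (x2, y2) ∈ E → P) :
    (x2 = x0 ∧ y2 = y0) ∨ P := by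
  rcases mem_insert.1 h with h1 | h1
  · have := lt_inj h1
    simp only [Prod.mk.injEq] at this
    exact Or.inl this
  · exact Or.inr (hE (mem_inter.1 h1).1)

lemma locW_SW (O : Out w h) (α β : Bool) (hS : S ⊆ RRL h) (ht : lt (-1, 0) ∉ S) {r : ℤ}
    (hr : 3 ≤ r) (hw : 2 * r + 2 ≤ w) (hh : 2 * r + 4 ≤ h) :
    ∃ Vw, LocW (ENL w h α β) (od (WNL O α β S)) (BR (vt (-1) (-1)) r) (lt (-1, 0)) Vw := by
  have hp : ((-1 : ℤ) + -1) % 2 = 0 := by norm_num
  have hW : ∀ {x y : ℤ}, -2 ≤ x → x < w → -2 ≤ y → y < h - 1 → (lt (x, y) ∈ od (WNL O α β S) ↔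
      ((x = w ∨ x = -2 ∨ x = w + 1) ∧ -1 ≤ y ∧ y < h) ∨
      (bi α = 0 ∧ x = -1 ∧ 0 < y ∧ y < h ∧ y % 2 = 0) ∨
      (bi β = 0 ∧ y = -1 ∧ 0 < x ∧ x < w ∧ x % 2 = 1)) := by
    intro x y a b c d
    rw [lt_mem_od, mem_WSW hS ht ⟨⟨a, by omega, c, by omega⟩, d⟩]
  refine locW_mk (vt (-1) 1) ?_
  intro X Y x1 y1 x2 y2 h0 k1 k2 k3 k4 k5 k6 k7
  rw [lt_mem_BR hp] at k6
  rw [abs_le, abs_le] at k6
  obtain ⟨t1, t2, t3, t4⟩ := touch_SW k3 k4 (ins_E k7 mem_E'.1)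
  clear k3 k4 k7
  have hcol : ∀ {Y' : ℤ}, (-1 + Y') % 2 = 0 → 1 ≤ Y' → Y' ≤ 2 * r - 1 →
      Co (od (WNL O α β S) ∩ BR (vt (-1) (-1)) r) (vt (-1) Y') (vt (-1) 1) := by
    intro Y' f1 f2 f3
    refine col_vt (c := -2) (Y0 := 1) (Y1 := Y') ?_ f1 (by norm_num) (Or.inr (by norm_num))
      (Or.inr (by norm_num)) f2 le_rfl le_rfl f2
    intro y e1 e2
    rw [mem_inter, lt_mem_BR hp, abs_le, abs_le]
    refine ⟨(hW (by norm_num) (by omega) (by omega) (by omega)).2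
      (Or.inl ⟨Or.inr (Or.inl rfl), by omega, by omega⟩), ?_⟩
    clear * - e1 e2 f3
    omega
  have hx1 : -2 ≤ x1 := by omega
  have hy1 : -2 ≤ y1 := by omega
  have hx2 : x1 < w := by omega
  have hy2 : y1 < h - 1 := by omega
  have k5' := k5
  rcases (hW hx1 hx2 hy1 hy2).1 k5 with k5 | k5 | k5
  · left
    have e1 : x1 = -2 := by omega
    have e2 : X = -1 := by omega
    subst e1 e2
    obtain ⟨t5, t6⟩ := t3 rfl
    exact hcol h0 (by omega) (by omega)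
  · left
    obtain ⟨ha, e1, a1, a2, a3⟩ := k5
    subst e1
    have e2 : X = 0 := by omega
    subst e2
    have e3 : Y = y1 := by omega
    subst e3
    refine (ad_vt (x := -1) (y := Y) (X' := -1) (Y' := Y + 1) h0 (Or.inr ⟨rfl, rfl⟩)
      (Or.inl ⟨rfl, rfl⟩) ?_).trans (hcol (by omega) (by omega) (by omega))
    rw [mem_inter]
    refine ⟨k5', ?_⟩
    rw [lt_mem_BR hp, abs_le, abs_le]
    exact k6
  · right
    obtain ⟨hb, e1, a1, a2, a3⟩ := k5
    subst e1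
    have e2 : Y = 0 := by omega
    subst e2
    have e3 : X = x1 + 1 := by omega
    subst e3
    intro x3 y3 e1 e2 e3
    have f1 : x3 = x1 ∨ x3 = x1 - 1 := by omega
    have f2 : y3 = -1 ∨ y3 = -2 := by omega
    clear e1 e2 k6 k1 k2 h0 t1 t2 t3 t4
    rw [mem_union, mem_insert] at e3
    rcases e3 with e3 | e3 | e3
    · rw [mem_E'] at e3
      omega
    · have := lt_inj e3
      simp only [Prod.mk.injEq] at this
      omega
    · rw [hW (by omega) (by omega) (by omega) (by omega)] at e3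
      omega

lemma ne_of_lt_ne {x y x0 y0 : ℤ} (h : lt (x, y) ≠ lt (x0, y0)) : ¬ (x = x0 ∧ y = y0) := by
  rintro ⟨rfl, rfl⟩
  exact h rfl

lemma locC_SW (O : Out w h) (α β : Bool) (hS : S ⊆ RRL h) (ht : lt (-1, 0) ∉ S) {r : ℤ}
    (hr : 3 ≤ r) (hw : 2 * r + 2 ≤ w) (hh : 2 * r + 4 ≤ h) :
    ∃ Fw, LocC (ENL w h α β) (od (WNL O α β S)) (BR (vt (-1) (-1)) r) (lt (-1, 0)) Fw := by
  have hp : ((-1 : ℤ) + -1) % 2 = 0 := by norm_num
  have hW : ∀ {x y : ℤ}, -2 ≤ x → x < w → -2 ≤ y → y < h - 1 → (lt (x, y) ∈ od (WNL O α β S) ↔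
      ((x = w ∨ x = -2 ∨ x = w + 1) ∧ -1 ≤ y ∧ y < h) ∨
      (bi α = 0 ∧ x = -1 ∧ 0 < y ∧ y < h ∧ y % 2 = 0) ∨
      (bi β = 0 ∧ y = -1 ∧ 0 < x ∧ x < w ∧ x % 2 = 1)) := by
    intro x y a b c d
    rw [lt_mem_od, mem_WSW hS ht ⟨⟨a, by omega, c, by omega⟩, d⟩]
  refine locC_mk (ft 0 (-1)) ?_
  intro X Y x1 y1 x2 y2 h0 k1 k2 k3 k4 k5 k5a k5b k5c k7
  rw [lt_mem_BR hp] at k5
  rw [abs_le, abs_le] at k5
  obtain ⟨t1, t2, t3, t4⟩ := touch_SW k3 k4 (ins_E k7 mem_E'.1)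
  clear k3 k4 k7
  have hM : ∀ {x y : ℤ}, (-(2 * r) ≤ x - y - (-1 - -1) ∧ x - y - (-1 - -1) ≤ 2 * r) ∧
      (-(2 * r) ≤ x + y + 1 - (-1 + -1) ∧ x + y + 1 - (-1 + -1) ≤ 2 * r) →
      lt (x, y) ∉ ENL w h α β → ¬ (x = -1 ∧ y = 0) →
      lt (x, y) ∈ BR (vt (-1) (-1)) r \ insert (lt (-1, 0)) (ENL w h α β) := by
    intro x y a b c
    rw [mem_sdiff, mem_insert, not_or, lt_mem_BR hp, abs_le, abs_le]
    refine ⟨a, fun h' => c ?_, b⟩
    have := lt_inj h'
    simpa only [Prod.mk.injEq] using this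
  have hrow : ∀ {X' : ℤ}, (X' + -1) % 2 = 1 → 0 ≤ X' → X' ≤ 2 * r - 1 →
      Co (du (BR (vt (-1) (-1)) r \ insert (lt (-1, 0)) (ENL w h α β)) (od (WNL O α β S)))
        (ft X' (-1)) (ft 0 (-1)) := by
    intro X' f1 f2 f3
    refine row_ft (c := -2) (X0 := 0) (X1 := X') ?_ f1 (by norm_num) (Or.inr (by norm_num))
      (Or.inr (by norm_num)) f2 le_rfl le_rfl f2
    intro x e1 e2
    refine ⟨hM ?_ ?_ ?_, ?_⟩
    · clear * - e1 e2 f3
      omega
    · rw [mem_E']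
      clear * - e1 e2
      omega
    · clear * - e1 e2
      omega
    · rw [hW (by omega) (by omega) (by omega) (by omega)]
      clear * - e1 e2
      omega
  have hx1 : -2 ≤ x1 := by omega
  have hy1 : -2 ≤ y1 := by omega
  have hx2 : x1 < w := by omega
  have hy2 : y1 < h - 1 := by omega
  have k5a' : lt (x1, y1) ∉ ENL w h α β := k5a
  have q1 : x1 ≠ -2 := by
    intro h'
    have e2 : X = -1 := by clear t2 t3 t4 k2; omega
    have e3 := (t3 e2).1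
    have : -1 ≤ y1 := by clear t1 t2 t3 t4 k1; omega
    exact k5b ((hW hx1 hx2 hy1 hy2).2 (Or.inl ⟨Or.inr (Or.inl h'), this, by linarith⟩))
  have q2 : x1 = -1 ∨ (0 ≤ x1 ∧ y1 < 0) := by
    rcases (by clear k1 k2 t3 t4; omega : x1 = -1 ∨ 0 ≤ x1) with h' | h'
    · exact Or.inl h'
    · right
      refine ⟨h', ?_⟩
      by_contra hc
      push Not at hc
      exact k5a' (mem_E'.2 (Or.inl ⟨h', hx2, hc, by linarith⟩))
  rcases q2 with q2 | ⟨q2, q3⟩
  · subst q2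
    rcases (by clear k1 k2 t3 t4 k5; omega : y1 = -2 ∨ y1 = -1 ∨ y1 = 0 ∨ 0 < y1) with
      q3 | q3 | q3 | q3
    · subst q3
      left
      have e1 : Y = -1 := by clear t1 t3 t4 k1; omega
      subst e1
      have e2 := (t4 rfl).2
      have e3 : X = 0 := by clear t1 t3 t4 k2; omega
      subst e3
      exact Co.refl _ _
    · subst q3
      left
      rcases (by clear t3 t4; omega : (X = 0 ∧ Y = -1) ∨ (X = -1 ∧ Y = 0)) with
        ⟨rfl, rfl⟩ | ⟨rfl, rfl⟩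
      · exact Co.refl _ _
      · exact ad_ft (x := -1) (y := -1) h0 (Or.inl ⟨rfl, rfl⟩) (Or.inr ⟨rfl, rfl⟩)
          (hM k5 k5a' (by norm_num)) k5b
    · subst q3
      exact absurd rfl k5c
    · right
      have ha : bi α = 0 := by
        rcases bi_01 α with h' | h'
        · exact h'
        · exact absurd (mem_E'.2 (Or.inr (Or.inl ⟨h', rfl, q3, hy2⟩))) k5a'
      have hodd : y1 % 2 = 1 := by
        rcases Int.emod_two_eq_zero_or_one y1 with h' | h'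
        · exact absurd ((hW hx1 hx2 hy1 hy2).2
            (Or.inr (Or.inl ⟨ha, rfl, q3, by linarith, h'⟩))) k5b
        · exact h'
      have e1 : X = 0 := by
        rcases k1 with e1 | e1
        · exfalso
          obtain ⟨t5, t6⟩ := t3 e1
          clear t3 t4 k5
          omega
        · rw [e1]; norm_num
      have e2 : Y = y1 := by clear t1 t2 t3 t4 k1 k5; omega
      have e0 : y1 ≤ 2 * r - 1 := by clear t1 t2 t3 t4 k1 k2; omega
      subst e1 e2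
      intro x3 y3 e1 e2 e3 e4
      have f1 : x3 = -1 ∨ x3 = -2 := by clear e2 k5 k1 k2 t1 t2 t3 t4; omega
      have f2 : y3 = Y + 1 ∨ y3 = Y := by clear e1 k5 k1 k2 t1 t2 t3 t4; omega
      clear e1 e2 k5 k1 k2 t1 t2 t3 t4
      have g1 : -2 ≤ x3 := by rcases f1 with rfl | rfl <;> norm_num
      have g3 : y3 < h - 1 := by rcases f2 with rfl | rfl <;> linarith
      have f3 := hW (x := x3) (y := y3) g1 (by rcases f1 with rfl | rfl <;> linarith)
        (by rcases f2 with rfl | rfl <;> linarith) g3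
      rcases f1 with rfl | rfl
      · rcases f2 with rfl | rfl
        · exact absurd (f3.2 (Or.inr (Or.inl ⟨ha, rfl, by linarith, by linarith, by omega⟩))) e3
        · exact ⟨rfl, rfl⟩
      · exact absurd (f3.2 (Or.inl ⟨Or.inr (Or.inl rfl),
          by rcases f2 with rfl | rfl <;> linarith, by rcases f2 with rfl | rfl <;> linarith⟩)) e3
  · left
    rcases (by clear k1 k2 t1 t2 t3 t4 k5; omega : y1 = -2 ∨ y1 = -1) with q4 | q4
    · subst q4
      have e1 : Y = -1 := by clear t1 t3 t4 k1 k5; omega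
      subst e1
      refine hrow h0 (t4 rfl).2 ?_
      clear t1 t3 t4 k2
      omega
    · subst q4
      have hb : bi β = 0 := by
        rcases bi_01 β with h' | h'
        · exact h'
        · exact absurd (mem_E'.2 (Or.inr (Or.inr ⟨h', q2, hx2, rfl⟩))) k5a'
      have hev : x1 % 2 = 0 := by
        rcases Int.emod_two_eq_zero_or_one x1 with h' | h'
        · exact h'
        · exact absurd ((hW hx1 hx2 hy1 hy2).2
            (Or.inr (Or.inr ⟨hb, rfl, by omega, hx2, h'⟩))) k5b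
      have e0 : Y = 0 := by
        rcases k2 with e1 | e1
        · exfalso
          have := (t4 e1).1
          linarith
        · rw [e1]; norm_num
      subst e0
      clear t1 t2 t3 t4
      have e3 : X = x1 + 1 := by omega
      subst e3
      refine (ad_ft (x := x1) (y := -1) (X' := x1) (Y' := -1) h0 (Or.inr ⟨rfl, rfl⟩)
        (Or.inr ⟨rfl, rfl⟩) (hM k5 k5a' (by omega)) k5b).trans (hrow (by omega) q2 (by omega))

/-! ### NW, below -/

/-- the point of a vertex or face at the real tile or at a random tile, near NW -/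
lemma touch_NW {X Y x2 y2 : ℤ} (hh : 2 ≤ h) (k3 : X = x2 ∨ X = x2 + 1) (k4 : Y = y2 ∨ Y = y2 + 1)
    (k8 : (x2 = -1 ∧ y2 = h - 1) ∨ (0 ≤ x2 ∧ x2 < w ∧ 0 ≤ y2 ∧ y2 < h) ∨
      (bi α = 1 ∧ x2 = -1 ∧ 1 ≤ y2 ∧ y2 < h - 1) ∨ (bi β = 1 ∧ 0 ≤ x2 ∧ x2 < w ∧ y2 = -1)) :
    -1 ≤ X ∧ Y ≤ h ∧ (X = -1 → h - 1 ≤ Y ∨ bi α = 1) := by
  rcases k8 with h1 | h1 | h1 | h1 <;> omega

lemma locW_NWL (O : Out w h) (α β : Bool) (hS : S ⊆ RRL h) (ht : lt (-1, h - 1) ∉ S) {r : ℤ}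
    (_hr : 3 ≤ r) (hw : 2 * r + 2 ≤ w) (hh : 2 * r + 4 ≤ h) :
    ∃ Vw, LocW (ENL w h α β) (od (WNL O α β S)) (BR (vt (-1) (h + 1)) r) (lt (-1, h - 1)) Vw := by
  have h2 := O.h2
  have hp : ((-1 : ℤ) + (h + 1)) % 2 = 0 := by omega
  have hW : ∀ {x y : ℤ}, -2 ≤ x → x < w → 0 < y → y ≤ h → (lt (x, y) ∈ od (WNL O α β S) ↔
      ((x = w ∨ x = -2 ∨ x = w + 1) ∧ -1 ≤ y ∧ y < h) ∨
      (bi α = 0 ∧ x = -1 ∧ 0 < y ∧ y < h ∧ y % 2 = 0) ∨
      (bi β = 0 ∧ y = -1 ∧ 0 < x ∧ x < w ∧ x % 2 = 1)) := by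
    intro x y a b c d
    rw [lt_mem_od, mem_WNW hS ht ⟨⟨a, by omega, by omega, d⟩, c⟩]
  refine locW_mk (vt (-1) (h - 1)) ?_
  intro X Y x1 y1 x2 y2 h0 k1 k2 k3 k4 k5 k6 k7
  rw [lt_mem_BR hp] at k6
  rw [abs_le, abs_le] at k6
  obtain ⟨t1, t2, t3⟩ := touch_NW (by omega) k3 k4 (ins_E k7 mem_E'.1)
  clear k3 k4 k7
  have hcol : ∀ {Y' : ℤ}, (-1 + Y') % 2 = 0 → h + 1 - 2 * r ≤ Y' → Y' ≤ h - 1 →
      Co (od (WNL O α β S) ∩ BR (vt (-1) (h + 1)) r) (vt (-1) Y') (vt (-1) (h - 1)) := by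
    intro Y' f1 f2 f3
    refine col_vt (c := -2) (Y0 := Y') (Y1 := h - 1) ?_ f1 (by omega) (Or.inr (by norm_num))
      (Or.inr (by norm_num)) le_rfl f3 f3 le_rfl
    intro y e1 e2
    rw [mem_inter, lt_mem_BR hp, abs_le, abs_le]
    refine ⟨(hW (by norm_num) (by omega) (by omega) (by omega)).2
      (Or.inl ⟨Or.inr (Or.inl rfl), by omega, by omega⟩), ?_⟩
    clear * - e1 e2 f2
    omega
  have hx1 : -2 ≤ x1 := by omega
  have hy1 : y1 ≤ h := by omega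
  have hx2 : x1 < w := by omega
  have hy2 : 0 < y1 := by omega
  have k5' := k5
  left
  rcases (hW hx1 hx2 hy2 hy1).1 k5 with k5 | k5 | k5
  · have e1 : x1 = -2 := by omega
    have e2 : X = -1 := by omega
    subst e1 e2
    clear t3
    exact hcol h0 (by omega) (by omega)
  · obtain ⟨ha, e1, a1, a2, a3⟩ := k5
    subst e1
    clear t3
    rcases k1 with e2 | e2
    · have e3 : Y = y1 + 1 := by clear k6; omega
      subst e2 e3
      exact hcol h0 (by omega) (by omega)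
    · have e2' : X = 0 := by rw [e2]; norm_num
      clear e2
      have e3 : Y = y1 := by clear k6; omega
      subst e2' e3
      refine (ad_vt (x := -1) (y := Y) (X' := -1) (Y' := Y + 1) h0 (Or.inr ⟨rfl, rfl⟩)
        (Or.inl ⟨rfl, rfl⟩) ?_).trans (hcol (by omega) (by omega) (by omega))
      rw [mem_inter]
      refine ⟨k5', ?_⟩
      rw [lt_mem_BR hp, abs_le, abs_le]
      exact k6
  · omega

lemma locC_NWL (O : Out w h) (α β : Bool) (hS : S ⊆ RRL h) (ht : lt (-1, h - 1) ∉ S) {r : ℤ}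
    (hr : 3 ≤ r) (hw : 2 * r + 2 ≤ w) (hh : 2 * r + 4 ≤ h) :
    ∃ Fw, LocC (ENL w h α β) (od (WNL O α β S)) (BR (vt (-1) (h + 1)) r) (lt (-1, h - 1)) Fw := by
  have h2 := O.h2
  have hp : ((-1 : ℤ) + (h + 1)) % 2 = 0 := by omega
  have hW : ∀ {x y : ℤ}, -2 ≤ x → x < w → 0 < y → y ≤ h → (lt (x, y) ∈ od (WNL O α β S) ↔
      ((x = w ∨ x = -2 ∨ x = w + 1) ∧ -1 ≤ y ∧ y < h) ∨
      (bi α = 0 ∧ x = -1 ∧ 0 < y ∧ y < h ∧ y % 2 = 0) ∨
      (bi β = 0 ∧ y = -1 ∧ 0 < x ∧ x < w ∧ x % 2 = 1)) := by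
    intro x y a b c d
    rw [lt_mem_od, mem_WNW hS ht ⟨⟨a, by omega, by omega, d⟩, c⟩]
  refine locC_mk (ft (-1) h) ?_
  intro X Y x1 y1 x2 y2 h0 k1 k2 k3 k4 k5 k5a k5b k5c k7
  rw [lt_mem_BR hp] at k5
  rw [abs_le, abs_le] at k5
  obtain ⟨t1, t2, t3⟩ := touch_NW (by omega) k3 k4 (ins_E k7 mem_E'.1)
  clear k3 k4 k7
  have hrow : ∀ {X' : ℤ}, (X' + h) % 2 = 1 → -1 ≤ X' → X' ≤ 2 * r - 1 →
      Co (du (BR (vt (-1) (h + 1)) r \ insert (lt (-1, h - 1)) (ENL w h α β))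
        (od (WNL O α β S))) (ft X' h) (ft (-1) h) := by
    intro X' f1 f2 f3
    refine row_ft (c := h) (X0 := -1) (X1 := X') ?_ f1 (by omega) (Or.inl rfl)
      (Or.inl rfl) f2 le_rfl le_rfl f2
    intro x e1 e2
    refine ⟨?_, ?_⟩
    · rw [mem_sdiff, mem_insert, not_or, lt_mem_BR hp, abs_le, abs_le, mem_E']
      refine ⟨?_, lt_ne' (Or.inr (by omega)), ?_⟩
      · clear * - e1 e2 f3
        omega
      · clear * - e1 e2 hh hr
        omega
    · rw [hW (by omega) (by omega) (by omega) (by omega)]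
      clear * - e1 e2 hh hr
      omega
  have hx1 : -2 ≤ x1 := by clear t3; omega
  have hy1 : y1 ≤ h := by clear t3; omega
  have hx2 : x1 < w := by clear t3 k1 k2; omega
  have hy2 : 0 < y1 := by clear t3 k1 k2; omega
  have k5a' : lt (x1, y1) ∉ ENL w h α β := k5a
  rcases (by clear k1 k2 t3; omega : y1 = h ∨ y1 < h) with q3 | q3
  · left
    subst q3
    have e1 : Y = y1 := by clear t3 k1; omega
    subst e1
    refine hrow h0 t1 ?_
    clear t3 k2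
    omega
  · right
    have q1 : x1 = -1 := by
      rcases (by clear k1 k2 k5 t3; omega : x1 = -1 ∨ x1 = -2 ∨ 0 ≤ x1) with h' | h' | h'
      · exact h'
      · exact absurd ((hW hx1 hx2 hy2 hy1).2
          (Or.inl ⟨Or.inr (Or.inl h'), by linarith, by linarith⟩)) k5b
      · exact absurd (mem_E'.2 (Or.inl ⟨h', hx2, by linarith, by linarith⟩)) k5a'
    subst q1
    have q4 : y1 ≠ h - 1 := fun h' => by
      subst h'
      exact k5c rfl
    have q5 : y1 < h - 1 := by clear k1 k2 k5 t3; omega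
    have ha : bi α = 0 := by
      rcases bi_01 α with h' | h'
      · exact h'
      · exact absurd (mem_E'.2 (Or.inr (Or.inl ⟨h', rfl, by linarith, q5⟩))) k5a'
    have hodd : y1 % 2 = 1 := by
      rcases Int.emod_two_eq_zero_or_one y1 with h' | h'
      · exact absurd ((hW hx1 hx2 hy2 hy1).2
          (Or.inr (Or.inl ⟨ha, rfl, by linarith, by linarith, h'⟩))) k5b
      · exact h'
    have e1 : X = 0 := by
      rcases k1 with e1 | e1
      · exfalso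
        have := t3 e1
        clear t3 k5
        omega
      · rw [e1]; norm_num
    have e2 : Y = y1 := by clear t3 k1 k5; omega
    subst e1 e2
    intro x3 y3 e1 e2 e3 e4
    have f1 : x3 = -1 ∨ x3 = -2 := by clear e2 k5 k1 k2 t3; omega
    have f2 : y3 = Y + 1 ∨ y3 = Y := by clear e1 k5 k1 k2 t3; omega
    clear e1 e2 k5 k1 k2 t3
    have f3 := hW (x := x3) (y := y3) (by rcases f1 with rfl | rfl <;> norm_num)
      (by rcases f1 with rfl | rfl <;> linarith)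
      (by rcases f2 with rfl | rfl <;> linarith) (by rcases f2 with rfl | rfl <;> linarith)
    rcases f1 with rfl | rfl
    · rcases f2 with rfl | rfl
      · exact absurd (f3.2 (Or.inr (Or.inl ⟨ha, rfl, by linarith, by omega, by omega⟩))) e3
      · exact ⟨rfl, rfl⟩
    · exact absurd (f3.2 (Or.inl ⟨Or.inr (Or.inl rfl),
        by rcases f2 with rfl | rfl <;> linarith, by rcases f2 with rfl | rfl <;> omega⟩)) e3

/-! ### The displacement lemma -/

lemma XNL_od (O : Out w h) (α β : Bool) (hS : S ⊆ RRL h) :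
    PlaneEnv (XNL O α β S hS) (od (WNL O α β S)) := by
  unfold XNL H13.R45.EO
  exact planeEnv_od

/-- **corner SW**, below -/
theorem dispD_SW (O : Out w h) (α β : Bool) (hS : S ⊆ RRL h) (hS' : insert (lt (-1, 0)) S ⊆ RRL h)
    (ht : lt (-1, 0) ∉ S) {r : ℕ} (hr : 12 ≤ r) (hw : 2 * (r : ℤ) + 2 ≤ w)
    (hh : 2 * (r : ℤ) + 4 ≤ h)
    (root : (tv (vx O.c0)).1 ≤ - (2 * (r + 2) + 1) ∨ w + (2 * (r + 2) + 1) ≤ (tv (vx O.c0)).1 ∨
      (tv (vx O.c0)).2 ≤ - (2 * (r + 2) + 1) ∨ h + (2 * (r + 2) + 1) ≤ (tv (vx O.c0)).2) :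
    DispD (XNL O α β S hS) (XNL O α β (insert (lt (-1, 0)) S) hS') (od (WNL O α β S)) (lt (-1, 0))
      (vt (-1) (-1)) r 3 := by
  have hp : ((-1 : ℤ) + -1) % 2 = 0 := by norm_num
  have htE : lt (-1, 0) ∉ ENL w h α β := by rw [mem_E']; clear root; omega
  have htW : lt (-1, 0) ∉ od (WNL O α β S) := by
    rw [lt_mem_od, mem_WSW hS ht ⟨⟨by norm_num, by clear root; omega, by norm_num,
      by clear root; omega⟩, by clear root; omega⟩]
    clear root
    omega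
  refine ⟨XNL_od O α β hS, ?_, rfl, rfl, rfl, htE, htW, ?_, ?_, by norm_num, by omega, ?_,
    locW_SW O α β hS ht (by omega) hw hh, locC_SW O α β hS ht (by omega) hw hh, ?_, ?_⟩
  · rw [← od_insert, ← WNL_insert]; exact XNL_od O α β hS'
  · intro h1
    apply O.hroot
    show plab O.c0 ∈ GA w h
    have h1' : plab O.c0 = lt (-1, 0) := h1
    rw [h1']
    unfold GA
    rw [lt_mem_RT]
    clear root
    omega
  · refine far_mk hp ?_
    show (tv (vx O.c0)).1 ≤ _ ∨ _ ≤ (tv (vx O.c0)).1 ∨ (tv (vx O.c0)).2 ≤ _ ∨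
      _ ≤ (tv (vx O.c0)).2
    omega
  · unfold lt vt
    norm_num
  · refine (quad_mk hp (s := 3) (by norm_num) ?_ true true ?_).1
    · intro l hl
      exact odd_ENL (mem_inter.1 hl).1
    · intro x y hl
      have h3 : lt (x, y) ∈ ENL w h α β := (mem_inter.1 hl).1
      rw [mem_E'] at h3
      simp only [Bool.false_eq_true, false_implies, true_implies, true_and, and_true,
        Bool.true_eq_false]
      clear root
      omega
  · refine (quad_mk hp (s := 3) (by norm_num) ?_ true true ?_).2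
    · intro l hl
      exact odd_ENL (mem_inter.1 hl).1
    · intro x y hl
      have h3 : lt (x, y) ∈ ENL w h α β := (mem_inter.1 hl).1
      rw [mem_E'] at h3
      simp only [Bool.false_eq_true, false_implies, true_implies, true_and, and_true,
        Bool.true_eq_false]
      clear root
      omega

/-- **corner NW**, below -/
theorem dispD_NWL (O : Out w h) (α β : Bool) (hS : S ⊆ RRL h)
    (hS' : insert (lt (-1, h - 1)) S ⊆ RRL h)
    (ht : lt (-1, h - 1) ∉ S) {r : ℕ} (hr : 12 ≤ r) (hw : 2 * (r : ℤ) + 2 ≤ w)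
    (hh : 2 * (r : ℤ) + 4 ≤ h)
    (root : (tv (vx O.c0)).1 ≤ - (2 * (r + 2) + 1) ∨ w + (2 * (r + 2) + 1) ≤ (tv (vx O.c0)).1 ∨
      (tv (vx O.c0)).2 ≤ - (2 * (r + 2) + 1) ∨ h + (2 * (r + 2) + 1) ≤ (tv (vx O.c0)).2) :
    DispD (XNL O α β S hS) (XNL O α β (insert (lt (-1, h - 1)) S) hS') (od (WNL O α β S))
      (lt (-1, h - 1)) (vt (-1) (h + 1)) r 3 := by
  have h2 := O.h2
  have hp : ((-1 : ℤ) + (h + 1)) % 2 = 0 := by clear root; omega
  have htE : lt (-1, h - 1) ∉ ENL w h α β := by rw [mem_E']; clear root; omega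
  have htW : lt (-1, h - 1) ∉ od (WNL O α β S) := by
    rw [lt_mem_od, mem_WNW hS ht ⟨⟨by norm_num, by clear root; omega, by clear root; omega,
      by clear root; omega⟩, by clear root; omega⟩]
    clear root
    omega
  refine ⟨XNL_od O α β hS, ?_, rfl, rfl, rfl, htE, htW, ?_, ?_, by norm_num, by omega, ?_,
    locW_NWL O α β hS ht (by omega) hw hh, locC_NWL O α β hS ht (by omega) hw hh, ?_, ?_⟩
  · rw [← od_insert, ← WNL_insert]; exact XNL_od O α β hS'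
  · intro h1
    apply O.hroot
    show plab O.c0 ∈ GA w h
    have h1' : plab O.c0 = lt (-1, h - 1) := h1
    rw [h1']
    unfold GA
    rw [lt_mem_RT]
    clear root
    omega
  · refine far_mk hp ?_
    show (tv (vx O.c0)).1 ≤ _ ∨ _ ≤ (tv (vx O.c0)).1 ∨ (tv (vx O.c0)).2 ≤ _ ∨
      _ ≤ (tv (vx O.c0)).2
    omega
  · unfold lt vt
    simp only
    clear root
    constructor <;> rw [← le_sub_iff_add_le, abs_le] <;> push_cast <;> omega
  · refine (quad_mk hp (s := 3) (by norm_num) ?_ true false ?_).1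
    · intro l hl
      exact odd_ENL (mem_inter.1 hl).1
    · intro x y hl
      have h3 : lt (x, y) ∈ ENL w h α β := (mem_inter.1 hl).1
      rw [mem_E'] at h3
      simp only [Bool.false_eq_true, false_implies, true_implies, true_and, and_true,
        Bool.true_eq_false]
      clear root
      omega
  · refine (quad_mk hp (s := 3) (by norm_num) ?_ true false ?_).2
    · intro l hl
      exact odd_ENL (mem_inter.1 hl).1
    · intro x y hl
      have h3 : lt (x, y) ∈ ENL w h α β := (mem_inter.1 hl).1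
      rw [mem_E'] at h3
      simp only [Bool.false_eq_true, false_implies, true_implies, true_and, and_true,
        Bool.true_eq_false]
      clear root
      omega

end Pool.Agent.H14.R45
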