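import Mathlib
import Pool.Agent.H14.R45.DispL

set_option autoImplicit false
open Finset

/-! # Displacement lemma for the real tiles of the upper environments

`dispD_NWU`, `dispD_NE` : the hypotheses of the displacement lemma for the natural environments
`XNU O α β S` above, real tile `lt (0, h-1)` (corner NW) or `lt (w-1, h-1)` (corner NE). -/

namespace Pool.Agent.H14.R45

open Pool.Agent.H75.Perc hiding ph NA
open Pool.Agent.H75.TwoArm Pool.Agent.H75.Four Pool.Agent.H69.Q1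
open Pool.Agent.Q1 Pool.Agent.H43.Q1 Pool.Agent.H39.Q1 Pool.Agent.Q1.M6c
open Pool.Agent.H60.Q1 Pool.Agent.H99.NC Pool.Agent.H42.FM Pool.Agent.H44.FM
open Pool.Agent.H33.Q1 (lt tt tv tf lt_inj tt_lt lt_odd lt_tt)
open Pool.Agent.H74.R45 (Pot sg sg_even sg_odd RT lt_mem_RT odd_RT Out GA)
open Pool.Agent.H13.R45 (ENU WNU XNU mem_ENU mem_WNU RRU mem_RRU WNU_insert odd_ENU)

variable {w h x y : ℤ} {α β : Bool} {S : Finset (ℤ × ℤ)} {O : Out w h}

/-- random labels -/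
lemma mem_EU : lt (x, y) ∈ ENU w h α β ↔ (0 ≤ x ∧ x < w ∧ -1 ≤ y ∧ y < h - 1) ∨
    (bi α = 1 ∧ x = w ∧ -1 ≤ y ∧ y < h - 1) ∨ (bi β = 1 ∧ 1 ≤ x ∧ x < w - 1 ∧ y = h - 1) := by
  rw [mem_ENU, bi_t, bi_t]

/-- the open labels near the rectangle -/
def WF (w h : ℤ) (a b : ℤ) (x y : ℤ) : Prop :=
  ((x = -1 ∨ x = -2 ∨ x = w + 1) ∧ -1 ≤ y ∧ y < h - 1) ∨
  ((x = w ∨ x = -2 ∨ x = w + 1) ∧ y = h - 1) ∨
  (a = 0 ∧ x = w ∧ -1 ≤ y ∧ y < h - 1 ∧ y % 2 = 1) ∨
  (b = 0 ∧ y = h - 1 ∧ 0 < x ∧ x + 1 < w ∧ x % 2 = 1)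

lemma mem_WU (hn : -2 ≤ x ∧ x < w + 2 ∧ -2 ≤ y ∧ y ≤ h) (hSx : lt (x, y) ∉ S) :
    lt (x, y) ∈ WNU O α β S ↔ WF w h (bi α) (bi β) x y := by
  rw [mem_WNU, bi_f, bi_f]
  unfold WF
  constructor
  · rintro ((h1 | h1 | h1 | h1) | h1 | h1)
    · exact Or.inl h1
    · exact Or.inr (Or.inl h1)
    · exact absurd hn (O.far x y h1)
    · exact absurd h1 hSx
    · exact Or.inr (Or.inr (Or.inl h1))
    · exact Or.inr (Or.inr (Or.inr h1))
  · rintro (h1 | h1 | h1 | h1)
    · exact Or.inl (Or.inl h1)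
    · exact Or.inl (Or.inr (Or.inl h1))
    · exact Or.inr (Or.inl h1)
    · exact Or.inr (Or.inr h1)

lemma notS_NW (hS : S ⊆ RRU w h) (ht : lt (0, h - 1) ∉ S) (hx : x < w - 1) : lt (x, y) ∉ S := by
  intro h1
  have h2 := hS h1
  rw [mem_RRU] at h2
  obtain ⟨rfl | h3, rfl⟩ := h2
  · exact ht h1
  · omega

lemma notS_NE (hS : S ⊆ RRU w h) (ht : lt (w - 1, h - 1) ∉ S) (hx : 0 < x) : lt (x, y) ∉ S := by
  intro h1
  have h2 := hS h1
  rw [mem_RRU] at h2
  obtain ⟨h3 | rfl, rfl⟩ := h2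
  · omega
  · exact ht h1

/-- the point of a vertex or face at the real tile or at a random tile, near NW -/
lemma touch_NWU {X Y x2 y2 : ℤ} (hw : 4 ≤ w) (k3 : X = x2 ∨ X = x2 + 1)
    (k4 : Y = y2 ∨ Y = y2 + 1)
    (k8 : (x2 = 0 ∧ y2 = h - 1) ∨ (0 ≤ x2 ∧ x2 < w ∧ -1 ≤ y2 ∧ y2 < h - 1) ∨
      (bi α = 1 ∧ x2 = w ∧ -1 ≤ y2 ∧ y2 < h - 1) ∨ (bi β = 1 ∧ 1 ≤ x2 ∧ x2 < w - 1 ∧ y2 = h - 1)) :
    0 ≤ X ∧ Y ≤ h ∧ (Y = h → X ≤ 1 ∨ bi β = 1) := by
  rcases k8 with h1 | h1 | h1 | h1 <;> omega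

/-- the point of a vertex or face at the real tile or at a random tile, near NE -/
lemma touch_NE {X Y x2 y2 : ℤ} (k3 : X = x2 ∨ X = x2 + 1)
    (k4 : Y = y2 ∨ Y = y2 + 1)
    (k8 : (x2 = w - 1 ∧ y2 = h - 1) ∨ (0 ≤ x2 ∧ x2 < w ∧ -1 ≤ y2 ∧ y2 < h - 1) ∨
      (bi α = 1 ∧ x2 = w ∧ -1 ≤ y2 ∧ y2 < h - 1) ∨ (bi β = 1 ∧ 1 ≤ x2 ∧ x2 < w - 1 ∧ y2 = h - 1)) :
    X ≤ w + 1 ∧ Y ≤ h ∧ (X = w + 1 → bi α = 1) ∧ (Y = h → X ≤ w ∧ (w - 1 ≤ X ∨ bi β = 1)) := by
  rcases k8 with h1 | h1 | h1 | h1 <;> omega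

lemma locW_NWU (O : Out w h) (α β : Bool) (hS : S ⊆ RRU w h) (ht : lt (0, h - 1) ∉ S) {r : ℤ}
    (_hr : 3 ≤ r) (hw : 2 * r + 4 ≤ w) (hh : 2 * r + 4 ≤ h) :
    ∃ Vw, LocW (ENU w h α β) (od (WNU O α β S)) (BR (vt 0 h) r) (lt (0, h - 1)) Vw := by
  have h2 := O.h2
  have hp : ((0 : ℤ) + h) % 2 = 0 := by omega
  have hW : ∀ {x y : ℤ}, -2 ≤ x → x < w - 1 → 0 ≤ y → y ≤ h → (lt (x, y) ∈ od (WNU O α β S) ↔
      WF w h (bi α) (bi β) x y) := by
    intro x y a b c d
    rw [lt_mem_od, mem_WU ⟨a, by omega, by omega, d⟩ (notS_NW hS ht b)]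
  refine locW_mk (vt 0 (h - 2)) ?_
  intro X Y x1 y1 x2 y2 h0 k1 k2 k3 k4 k5 k6 k7
  rw [lt_mem_BR hp] at k6
  rw [abs_le, abs_le] at k6
  obtain ⟨t1, t2, t3⟩ := touch_NWU (by omega) k3 k4 (ins_E k7 mem_EU.1)
  clear k3 k4 k7
  have hcol : ∀ {Y' : ℤ}, (0 + Y') % 2 = 0 → h - 2 * r ≤ Y' → Y' ≤ h - 2 →
      Co (od (WNU O α β S) ∩ BR (vt 0 h) r) (vt 0 Y') (vt 0 (h - 2)) := by
    intro Y' f1 f2 f3
    refine col_vt (c := -1) (Y0 := Y') (Y1 := h - 2) ?_ f1 (by omega) (Or.inr (by norm_num))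
      (Or.inr (by norm_num)) le_rfl f3 f3 le_rfl
    intro y e1 e2
    rw [mem_inter, lt_mem_BR hp, abs_le, abs_le]
    refine ⟨(hW (by norm_num) (by omega) (by omega) (by omega)).2
      (Or.inl ⟨Or.inl rfl, by omega, by omega⟩), ?_⟩
    clear * - e1 e2 f2
    omega
  have hx1 : -2 ≤ x1 := by clear t3 k2; omega
  have hy1 : y1 ≤ h := by clear t3 k1; omega
  have hx2 : x1 < w - 1 := by clear t3 k1 k2; omega
  have hy2 : 0 ≤ y1 := by clear t3 k1 k2; omega
  have k5' := k5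
  rcases (hW hx1 hx2 hy2 hy1).1 k5 with k5 | k5 | k5 | k5
  · left
    have e1 : x1 = -1 := by clear k2 k6 t3; omega
    have e2 : X = 0 := by clear k2 k6 t3; omega
    subst e1 e2
    clear t3
    exact hcol h0 (by omega) (by omega)
  · exfalso
    clear k2 k6 t3
    omega
  · exfalso
    omega
  · right
    obtain ⟨hb, e1, a1, a2, a3⟩ := k5
    subst e1
    have e2 : Y = h - 1 := by
      rcases k2 with e2 | e2
      · exact e2
      · exfalso
        have e3 : Y = h := by rw [e2]; ring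
        have := t3 e3
        clear k6 t3
        omega
    have e3 : X = x1 := by clear k2 k6 t3; omega
    subst e2 e3
    intro x3 y3 e1 e2 e3
    have f1 : x3 = X + 1 ∨ x3 = X := by clear e2 k6 k1 k2 t3; omega
    have f2 : y3 = h ∨ y3 = h - 1 := by clear e1 k6 k1 k2 t3; omega
    clear e1 e2 k1 k2 h0 t1 t2 t3
    have hX : X + 2 < w := by clear f1 f2; omega
    clear k6
    have f3 := hW (x := x3) (y := y3) (by clear f2; omega) (by clear f2; omega)
      (by clear f1; omega) (by clear f1; omega)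
    rw [mem_union, mem_insert, f3] at e3
    clear f3
    rcases e3 with e3 | e3 | e3
    · rw [mem_EU] at e3
      omega
    · have := lt_inj e3
      simp only [Prod.mk.injEq] at this
      omega
    · unfold WF at e3
      omega

lemma locC_NWU (O : Out w h) (α β : Bool) (hS : S ⊆ RRU w h) (ht : lt (0, h - 1) ∉ S) {r : ℤ}
    (hr : 3 ≤ r) (hw : 2 * r + 4 ≤ w) (hh : 2 * r + 4 ≤ h) :
    ∃ Fw, LocC (ENU w h α β) (od (WNU O α β S)) (BR (vt 0 h) r) (lt (0, h - 1)) Fw := by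
  have h2 := O.h2
  have hp : ((0 : ℤ) + h) % 2 = 0 := by omega
  have hW : ∀ {x y : ℤ}, -2 ≤ x → x < w - 1 → 0 ≤ y → y ≤ h → (lt (x, y) ∈ od (WNU O α β S) ↔
      WF w h (bi α) (bi β) x y) := by
    intro x y a b c d
    rw [lt_mem_od, mem_WU ⟨a, by omega, by omega, d⟩ (notS_NW hS ht b)]
  refine locC_mk (ft 1 h) ?_
  intro X Y x1 y1 x2 y2 h0 k1 k2 k3 k4 k5 k5a k5b k5c k7
  rw [lt_mem_BR hp] at k5
  rw [abs_le, abs_le] at k5
  obtain ⟨t1, t2, t3⟩ := touch_NWU (by omega) k3 k4 (ins_E k7 mem_EU.1)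
  clear k3 k4 k7
  have hM : ∀ {x y : ℤ}, (-(2 * r) ≤ x - y - (0 - h) ∧ x - y - (0 - h) ≤ 2 * r) ∧
      (-(2 * r) ≤ x + y + 1 - (0 + h) ∧ x + y + 1 - (0 + h) ≤ 2 * r) →
      lt (x, y) ∉ ENU w h α β → ¬ (x = 0 ∧ y = h - 1) →
      lt (x, y) ∈ BR (vt 0 h) r \ insert (lt (0, h - 1)) (ENU w h α β) := by
    intro x y a b c
    rw [mem_sdiff, mem_insert, not_or, lt_mem_BR hp, abs_le, abs_le]
    refine ⟨a, fun h' => c ?_, b⟩
    have := lt_inj h'
    simpa only [Prod.mk.injEq] using this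
  have hrow : ∀ {X' : ℤ}, (X' + h) % 2 = 1 → -1 ≤ X' → X' ≤ 2 * r - 1 →
      Co (du (BR (vt 0 h) r \ insert (lt (0, h - 1)) (ENU w h α β))
        (od (WNU O α β S))) (ft X' h) (ft 1 h) := by
    intro X' f1 f2 f3
    refine row_ft (c := h) (X0 := -1) (X1 := 2 * r - 1) ?_ f1 (by omega) (Or.inl rfl)
      (Or.inl rfl) f2 f3 (by norm_num) (by omega)
    intro x e1 e2
    refine ⟨hM ?_ ?_ (by omega), ?_⟩
    · clear * - e1 e2
      omega
    · rw [mem_EU]
      clear * - e1 e2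
      omega
    · rw [hW (by omega) (by omega) (by omega) (by omega)]
      unfold WF
      clear * - e1 e2
      omega
  have hx1 : -2 ≤ x1 := by clear t3 k2; omega
  have hy1 : y1 ≤ h := by clear t3 k1; omega
  have hx2 : x1 < w - 1 := by clear t3 k1 k2; omega
  have hy2 : 0 ≤ y1 := by clear t3 k1 k2; omega
  have k5a' : lt (x1, y1) ∉ ENU w h α β := k5a
  left
  rcases (by clear k1 k2 t3; omega : y1 = h ∨ y1 = h - 1 ∨ y1 < h - 1) with q3 | q3 | q3
  · subst q3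
    have e1 : Y = y1 := by clear t3 k1; omega
    subst e1
    refine hrow h0 ?_ ?_
    · clear t3 k2
      omega
    · clear t3 k2
      omega
  · subst q3
    rcases (by clear k1 k2 t3 k5; omega : x1 = -2 ∨ x1 = -1 ∨ x1 = 0 ∨ 1 ≤ x1) with q4 | q4 | q4 | q4
    · exfalso
      clear k2 t3 k5
      omega
    · subst q4
      have e1 : X = 0 := by clear k2 t3 k5; omega
      subst e1
      have e2 : Y = h - 1 := by clear k1 t3 k5; omega
      subst e2
      refine (ad_ft (x := -1) (y := h - 1) (X' := -1) (Y' := h) h0 (Or.inr ⟨rfl, rfl⟩)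
        (Or.inl ⟨rfl, by ring⟩) (hM k5 k5a' (by omega)) k5b).trans
        (hrow (by omega) le_rfl (by omega))
    · subst q4
      exact absurd rfl k5c
    · have hb : bi β = 0 := by
        rcases bi_01 β with h' | h'
        · exact h'
        · exact absurd (mem_EU.2 (Or.inr (Or.inr ⟨h', q4, hx2, rfl⟩))) k5a'
      have hev : x1 % 2 = 0 := by
        rcases Int.emod_two_eq_zero_or_one x1 with h' | h'
        · exact h'
        · exact absurd ((hW hx1 hx2 hy2 hy1).2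
            (Or.inr (Or.inr (Or.inr ⟨hb, rfl, by linarith, by linarith, h'⟩)))) k5b
      have e2 : Y = h - 1 := by
        rcases k2 with e2 | e2
        · exact e2
        · exfalso
          have e3 : Y = h := by rw [e2]; ring
          have := t3 e3
          clear k5 t3
          omega
      subst e2
      have e3 : X = x1 := by clear k2 k5 t3; omega
      subst e3
      clear t3 k1 k2
      refine (ad_ft (x := X) (y := h - 1) (X' := X + 1) (Y' := h) h0 (Or.inl ⟨rfl, rfl⟩)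
        (Or.inl ⟨rfl, by ring⟩) (hM k5 k5a' (by omega)) k5b).trans
        (hrow (by omega) (by omega) (by omega))
  · exfalso
    rcases (by clear k1 k2 t3 k5; omega : x1 = -2 ∨ x1 = -1 ∨ 0 ≤ x1) with q4 | q4 | q4
    · clear k2 t3 k5
      omega
    · exact k5b ((hW hx1 hx2 hy2 hy1).2 (Or.inl ⟨Or.inl q4, by linarith, q3⟩))
    · exact k5a' (mem_EU.2 (Or.inl ⟨q4, by linarith, by linarith, q3⟩))

lemma locW_NE (O : Out w h) (α β : Bool) (hS : S ⊆ RRU w h) (ht : lt (w - 1, h - 1) ∉ S) {r : ℤ}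
    (_hr : 3 ≤ r) (hw : 2 * r + 4 ≤ w) (hh : 2 * r + 4 ≤ h) :
    ∃ Vw, LocW (ENU w h α β) (od (WNU O α β S)) (BR (vt (w + 1) (h + 1)) r)
      (lt (w - 1, h - 1)) Vw := by
  have w2 := O.w2
  have h2 := O.h2
  have hp : ((w + 1) + (h + 1)) % 2 = 0 := by omega
  have hW : ∀ {x y : ℤ}, 0 < x → x ≤ w + 1 → 0 ≤ y → y ≤ h → (lt (x, y) ∈ od (WNU O α β S) ↔
      WF w h (bi α) (bi β) x y) := by
    intro x y a b c d
    rw [lt_mem_od, mem_WU ⟨by omega, by omega, by omega, d⟩ (notS_NE hS ht a)]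
  refine locW_mk (vt (w + 1) (h - 1)) ?_
  intro X Y x1 y1 x2 y2 h0 k1 k2 k3 k4 k5 k6 k7
  rw [lt_mem_BR hp] at k6
  rw [abs_le, abs_le] at k6
  obtain ⟨t1, t2, t3, t4⟩ := touch_NE k3 k4 (ins_E k7 mem_EU.1)
  clear k3 k4 k7
  have hcol : ∀ {Y' : ℤ}, (w + 1 + Y') % 2 = 0 → h + 1 - 2 * r ≤ Y' → Y' ≤ h - 1 →
      Co (od (WNU O α β S) ∩ BR (vt (w + 1) (h + 1)) r) (vt (w + 1) Y') (vt (w + 1) (h - 1)) := by
    intro Y' f1 f2 f3
    refine col_vt (c := w + 1) (Y0 := Y') (Y1 := h - 1) ?_ f1 (by omega) (Or.inl rfl)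
      (Or.inl rfl) le_rfl f3 f3 le_rfl
    intro y e1 e2
    rw [mem_inter, lt_mem_BR hp, abs_le, abs_le]
    refine ⟨(hW (by omega) le_rfl (by omega) (by omega)).2
      (Or.inl ⟨Or.inr (Or.inr rfl), by omega, by omega⟩), ?_⟩
    clear * - e1 e2 f2
    omega
  have hx1 : 0 < x1 := by clear t3 t4 k1 k2; omega
  have hy1 : y1 ≤ h := by clear t3 t4 k1; omega
  have hx2 : x1 ≤ w + 1 := by clear t3 t4 k2; omega
  have hy2 : 0 ≤ y1 := by clear t3 t4 k1 k2; omega
  have k5' := k5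
  rcases (hW hx1 hx2 hy2 hy1).1 k5 with k5 | k5 | k5 | k5
  · left
    have e1 : x1 = w + 1 := by clear k1 k2 k6 t3 t4; omega
    subst e1
    have e2 : X = w + 1 := by clear k2 k6 t3 t4; omega
    subst e2
    clear t3 t4
    exact hcol h0 (by omega) (by omega)
  · left
    obtain ⟨e0, e1⟩ := k5
    subst e1
    rcases (by clear k1 k2 k6 t3 t4; omega : x1 = w ∨ x1 = w + 1) with e1 | e1
    · subst e1
      rcases (by clear k6 t3 t4 e0; omega : (X = x1 ∧ Y = h) ∨ (X = x1 + 1 ∧ Y = h - 1)) with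
        ⟨rfl, rfl⟩ | ⟨rfl, rfl⟩
      · refine ad_vt (x := X) (y := Y - 1) h0 (Or.inl ⟨rfl, rfl⟩) (Or.inr ⟨by ring, rfl⟩) ?_
        rw [mem_inter]
        refine ⟨k5', ?_⟩
        rw [lt_mem_BR hp, abs_le, abs_le]
        exact k6
      · exact Co.refl _ _
    · subst e1
      have e2 : X = w + 1 := by clear k2 k6 t3 t4 e0; omega
      have e3 : Y = h - 1 := by clear k6 t3 t4 e0; omega
      subst e2 e3
      exact Co.refl _ _
  · left
    obtain ⟨ha, e1, a1, a2, a3⟩ := k5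
    subst e1
    have e2 : X = x1 := by
      rcases k1 with e2 | e2
      · exact e2
      · exfalso
        have := t3 e2
        omega
    subst e2
    have e3 : Y = y1 + 1 := by clear k6 t3 t4; omega
    subst e3
    clear k1 k2 t3 t4
    refine (ad_vt (x := X) (y := y1) (X' := X + 1) (Y' := y1) h0 (Or.inl ⟨rfl, rfl⟩)
      (Or.inr ⟨rfl, rfl⟩) ?_).trans (hcol (by omega) (by omega) (by omega))
    rw [mem_inter]
    refine ⟨k5', ?_⟩
    rw [lt_mem_BR hp, abs_le, abs_le]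
    exact k6
  · right
    obtain ⟨hb, e1, a1, a2, a3⟩ := k5
    subst e1
    have e2 : Y = h - 1 := by
      rcases k2 with e2 | e2
      · exact e2
      · exfalso
        have e3 : Y = h := by rw [e2]; ring
        have := (t4 e3).2
        clear k6 t3 t4
        omega
    have e3 : X = x1 := by clear k2 k6 t3 t4; omega
    subst e2 e3
    intro x3 y3 e1 e2 e3
    have f1 : x3 = X + 1 ∨ x3 = X := by clear e2 k6 k1 k2 t3 t4; omega
    have f2 : y3 = h ∨ y3 = h - 1 := by clear e1 k6 k1 k2 t3 t4; omega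
    clear e1 e2 k1 k2 h0 t1 t2 t3 t4 k6
    have f3 := hW (x := x3) (y := y3) (by clear f2; omega) (by clear f2; omega)
      (by clear f1; omega) (by clear f1; omega)
    rw [mem_union, mem_insert, f3] at e3
    clear f3
    rcases e3 with e3 | e3 | e3
    · rw [mem_EU] at e3
      omega
    · have := lt_inj e3
      simp only [Prod.mk.injEq] at this
      omega
    · unfold WF at e3
      omega

lemma locC_NE (O : Out w h) (α β : Bool) (hS : S ⊆ RRU w h) (ht : lt (w - 1, h - 1) ∉ S) {r : ℤ}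
    (hr : 3 ≤ r) (hw : 2 * r + 4 ≤ w) (hh : 2 * r + 4 ≤ h) :
    ∃ Fw, LocC (ENU w h α β) (od (WNU O α β S)) (BR (vt (w + 1) (h + 1)) r)
      (lt (w - 1, h - 1)) Fw := by
  have w2 := O.w2
  have h2 := O.h2
  have hp : ((w + 1) + (h + 1)) % 2 = 0 := by omega
  have hW : ∀ {x y : ℤ}, 0 < x → x ≤ w + 1 → 0 ≤ y → y ≤ h → (lt (x, y) ∈ od (WNU O α β S) ↔
      WF w h (bi α) (bi β) x y) := by
    intro x y a b c d
    rw [lt_mem_od, mem_WU ⟨by omega, by omega, by omega, d⟩ (notS_NE hS ht a)]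
  refine locC_mk (ft (w - 1) h) ?_
  intro X Y x1 y1 x2 y2 h0 k1 k2 k3 k4 k5 k5a k5b k5c k7
  rw [lt_mem_BR hp] at k5
  rw [abs_le, abs_le] at k5
  obtain ⟨t1, t2, t3, t4⟩ := touch_NE k3 k4 (ins_E k7 mem_EU.1)
  clear k3 k4 k7
  have hM : ∀ {x y : ℤ}, (-(2 * r) ≤ x - y - (w + 1 - (h + 1)) ∧
      x - y - (w + 1 - (h + 1)) ≤ 2 * r) ∧
      (-(2 * r) ≤ x + y + 1 - (w + 1 + (h + 1)) ∧ x + y + 1 - (w + 1 + (h + 1)) ≤ 2 * r) →
      lt (x, y) ∉ ENU w h α β → ¬ (x = w - 1 ∧ y = h - 1) →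
      lt (x, y) ∈ BR (vt (w + 1) (h + 1)) r \ insert (lt (w - 1, h - 1)) (ENU w h α β) := by
    intro x y a b c
    rw [mem_sdiff, mem_insert, not_or, lt_mem_BR hp, abs_le, abs_le]
    refine ⟨a, fun h' => c ?_, b⟩
    have := lt_inj h'
    simpa only [Prod.mk.injEq] using this
  have hrow : ∀ {X' : ℤ}, (X' + h) % 2 = 1 → w + 1 - 2 * r ≤ X' → X' ≤ w - 1 →
      Co (du (BR (vt (w + 1) (h + 1)) r \ insert (lt (w - 1, h - 1)) (ENU w h α β))
        (od (WNU O α β S))) (ft X' h) (ft (w - 1) h) := by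
    intro X' f1 f2 f3
    refine row_ft (c := h) (X0 := X') (X1 := w - 1) ?_ f1 (by omega) (Or.inl rfl)
      (Or.inl rfl) le_rfl f3 f3 le_rfl
    intro x e1 e2
    refine ⟨hM ?_ ?_ (by omega), ?_⟩
    · clear * - e1 e2 f2 hr
      omega
    · rw [mem_EU]
      clear * - e1 e2
      omega
    · rw [hW (by omega) (by omega) (by omega) (by omega)]
      unfold WF
      clear * - e1 e2
      omega
  have hx1 : 0 < x1 := by clear t3 t4 k1 k2; omega
  have hy1 : y1 ≤ h := by clear t3 t4 k1; omega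
  have hx2 : x1 ≤ w + 1 := by clear t3 t4 k2; omega
  have hy2 : 0 < y1 := by clear t3 t4 k1 k2; omega
  have k5a' : lt (x1, y1) ∉ ENU w h α β := k5a
  rcases (by clear k1 k2 t3 t4; omega : y1 = h ∨ y1 = h - 1 ∨ y1 < h - 1) with q3 | q3 | q3
  · left
    subst q3
    have e1 : Y = y1 := by clear t3 t4 k1; omega
    subst e1
    have := (t4 rfl).1
    refine hrow h0 ?_ ?_
    · clear t3 t4 k2
      omega
    · clear t3 t4 k2 k1 k5
      omega
  · left
    subst q3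
    rcases (by clear k1 k2 t3 t4 k5; omega : x1 = w + 1 ∨ x1 = w ∨ x1 = w - 1 ∨ x1 < w - 1) with
      q4 | q4 | q4 | q4
    · exact absurd ((hW hx1 hx2 hy2.le hy1).2 (Or.inr (Or.inl ⟨Or.inr (Or.inr q4), rfl⟩))) k5b
    · exact absurd ((hW hx1 hx2 hy2.le hy1).2 (Or.inr (Or.inl ⟨Or.inl q4, rfl⟩))) k5b
    · subst q4
      exact absurd rfl k5c
    · have hb : bi β = 0 := by
        rcases bi_01 β with h' | h'
        · exact h'
        · exact absurd (mem_EU.2 (Or.inr (Or.inr ⟨h', hx1, q4, rfl⟩))) k5a'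
      have hev : x1 % 2 = 0 := by
        rcases Int.emod_two_eq_zero_or_one x1 with h' | h'
        · exact h'
        · exact absurd ((hW hx1 hx2 hy2.le hy1).2
            (Or.inr (Or.inr (Or.inr ⟨hb, rfl, hx1, by linarith, h'⟩)))) k5b
      rcases (by clear k5 t3 t4; omega : (X = x1 ∧ Y = h - 1) ∨ (X = x1 + 1 ∧ Y = h)) with
        ⟨rfl, rfl⟩ | ⟨rfl, rfl⟩
      · clear t3 t4 k1 k2
        refine (ad_ft (x := X) (y := h - 1) (X' := X + 1) (Y' := h) h0 (Or.inl ⟨rfl, rfl⟩)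
          (Or.inl ⟨rfl, by ring⟩) (hM k5 k5a' (by omega)) k5b).trans
          (hrow (by omega) (by omega) (by omega))
      · clear t3 t4 k1 k2
        exact hrow h0 (by omega) (by omega)
  · right
    have q1 : x1 = w := by
      rcases (by clear k1 k2 k5 t3 t4; omega : x1 = w ∨ x1 = w + 1 ∨ x1 < w) with h' | h' | h'
      · exact h'
      · exact absurd ((hW hx1 hx2 hy2.le hy1).2
          (Or.inl ⟨Or.inr (Or.inr h'), by linarith, q3⟩)) k5b
      · exact absurd (mem_EU.2 (Or.inl ⟨hx1.le, h', by linarith, q3⟩)) k5a'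
    subst q1
    have ha : bi α = 0 := by
      rcases bi_01 α with h' | h'
      · exact h'
      · exact absurd (mem_EU.2 (Or.inr (Or.inl ⟨h', rfl, by linarith, q3⟩))) k5a'
    have hev : y1 % 2 = 0 := by
      rcases Int.emod_two_eq_zero_or_one y1 with h' | h'
      · exact h'
      · exact absurd ((hW hx1 hx2 hy2.le hy1).2
          (Or.inr (Or.inr (Or.inl ⟨ha, rfl, by linarith, q3, h'⟩)))) k5b
    have e1 : X = x1 := by
      rcases k1 with e1 | e1
      · exact e1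
      · exfalso
        have := t3 e1
        omega
    subst e1
    have e2 : Y = y1 + 1 := by clear t3 t4 k1 k5; omega
    subst e2
    intro x3 y3 e1 e2 e3 e4
    have f1 : x3 = X + 1 ∨ x3 = X := by clear e2 k5 k1 k2 t3 t4; omega
    have f2 : y3 = y1 ∨ y3 = y1 - 1 := by clear e1 k5 k1 k2 t3 t4; omega
    clear e1 e2 k5 k1 k2 t3 t4
    have f3 := hW (x := x3) (y := y3) (by rcases f1 with rfl | rfl <;> linarith)
      (by rcases f1 with rfl | rfl <;> linarith)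
      (by rcases f2 with rfl | rfl <;> omega) (by rcases f2 with rfl | rfl <;> linarith)
    rcases f1 with rfl | rfl
    · exact absurd (f3.2 (Or.inl ⟨Or.inr (Or.inr rfl),
        by rcases f2 with rfl | rfl <;> linarith, by rcases f2 with rfl | rfl <;> linarith⟩)) e3
    · rcases f2 with rfl | rfl
      · exact ⟨rfl, rfl⟩
      · exact absurd (f3.2 (Or.inr (Or.inr (Or.inl ⟨ha, rfl, by linarith, by linarith,
          by omega⟩)))) e3

lemma XNU_od (O : Out w h) (α β : Bool) (hS : S ⊆ RRU w h) :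
    PlaneEnv (XNU O α β S hS) (od (WNU O α β S)) := by
  unfold XNU H13.R45.EO
  exact planeEnv_od

/-- **corner NW**, above -/
theorem dispD_NWU (O : Out w h) (α β : Bool) (hS : S ⊆ RRU w h)
    (hS' : insert (lt (0, h - 1)) S ⊆ RRU w h)
    (ht : lt (0, h - 1) ∉ S) {r : ℕ} (hr : 12 ≤ r) (hw : 2 * (r : ℤ) + 4 ≤ w)
    (hh : 2 * (r : ℤ) + 4 ≤ h)
    (root : (tv (vx O.c0)).1 ≤ - (2 * (r + 2) + 1) ∨ w + (2 * (r + 2) + 1) ≤ (tv (vx O.c0)).1 ∨
      (tv (vx O.c0)).2 ≤ - (2 * (r + 2) + 1) ∨ h + (2 * (r + 2) + 1) ≤ (tv (vx O.c0)).2) :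
    DispD (XNU O α β S hS) (XNU O α β (insert (lt (0, h - 1)) S) hS') (od (WNU O α β S))
      (lt (0, h - 1)) (vt 0 h) r 3 := by
  have h2 := O.h2
  have hp : ((0 : ℤ) + h) % 2 = 0 := by clear root; omega
  have htE : lt (0, h - 1) ∉ ENU w h α β := by rw [mem_EU]; clear root; omega
  have htW : lt (0, h - 1) ∉ od (WNU O α β S) := by
    rw [lt_mem_od, mem_WU ⟨by norm_num, by clear root; omega, by clear root; omega,
      by clear root; omega⟩ ht]
    unfold WF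
    clear root
    omega
  refine ⟨XNU_od O α β hS, ?_, rfl, rfl, rfl, htE, htW, ?_, ?_, by norm_num, by omega, ?_,
    locW_NWU O α β hS ht (by omega) hw hh, locC_NWU O α β hS ht (by omega) hw hh, ?_, ?_⟩
  · rw [← od_insert, ← WNU_insert]; exact XNU_od O α β hS'
  · intro h1
    apply O.hroot
    show plab O.c0 ∈ GA w h
    have h1' : plab O.c0 = lt (0, h - 1) := h1
    rw [h1']
    unfold GA
    rw [lt_mem_RT]
    clear root
    omega
  · refine far_mk hp ?_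
    show (tv (vx O.c0)).1 ≤ _ ∨ _ ≤ (tv (vx O.c0)).1 ∨ (tv (vx O.c0)).2 ≤ _ ∨
      _ ≤ (tv (vx O.c0)).2
    omega
  · unfold lt vt
    simp only
    clear root
    constructor <;> rw [← le_sub_iff_add_le, abs_le] <;> push_cast <;> omega
  · refine (quad_mk hp (s := 3) (by norm_num) ?_ true false ?_).1
    · intro l hl
      exact odd_ENU (mem_inter.1 hl).1
    · intro x y hl
      have h3 : lt (x, y) ∈ ENU w h α β := (mem_inter.1 hl).1
      rw [mem_EU] at h3
      simp only [Bool.false_eq_true, false_implies, true_implies, true_and, and_true,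
        Bool.true_eq_false]
      clear root
      omega
  · refine (quad_mk hp (s := 3) (by norm_num) ?_ true false ?_).2
    · intro l hl
      exact odd_ENU (mem_inter.1 hl).1
    · intro x y hl
      have h3 : lt (x, y) ∈ ENU w h α β := (mem_inter.1 hl).1
      rw [mem_EU] at h3
      simp only [Bool.false_eq_true, false_implies, true_implies, true_and, and_true,
        Bool.true_eq_false]
      clear root
      omega

/-- **corner NE**, above -/
theorem dispD_NE (O : Out w h) (α β : Bool) (hS : S ⊆ RRU w h)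
    (hS' : insert (lt (w - 1, h - 1)) S ⊆ RRU w h)
    (ht : lt (w - 1, h - 1) ∉ S) {r : ℕ} (hr : 12 ≤ r) (hw : 2 * (r : ℤ) + 4 ≤ w)
    (hh : 2 * (r : ℤ) + 4 ≤ h)
    (root : (tv (vx O.c0)).1 ≤ - (2 * (r + 2) + 1) ∨ w + (2 * (r + 2) + 1) ≤ (tv (vx O.c0)).1 ∨
      (tv (vx O.c0)).2 ≤ - (2 * (r + 2) + 1) ∨ h + (2 * (r + 2) + 1) ≤ (tv (vx O.c0)).2) :
    DispD (XNU O α β S hS) (XNU O α β (insert (lt (w - 1, h - 1)) S) hS') (od (WNU O α β S))
      (lt (w - 1, h - 1)) (vt (w + 1) (h + 1)) r 3 := by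
  have w2 := O.w2
  have h2 := O.h2
  have hp : ((w + 1) + (h + 1)) % 2 = 0 := by clear root; omega
  have htE : lt (w - 1, h - 1) ∉ ENU w h α β := by rw [mem_EU]; clear root; omega
  have htW : lt (w - 1, h - 1) ∉ od (WNU O α β S) := by
    rw [lt_mem_od, mem_WU ⟨by clear root; omega, by clear root; omega, by clear root; omega,
      by clear root; omega⟩ ht]
    unfold WF
    clear root
    omega
  refine ⟨XNU_od O α β hS, ?_, rfl, rfl, rfl, htE, htW, ?_, ?_, by norm_num, by omega, ?_,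
    locW_NE O α β hS ht (by omega) hw hh, locC_NE O α β hS ht (by omega) hw hh, ?_, ?_⟩
  · rw [← od_insert, ← WNU_insert]; exact XNU_od O α β hS'
  · intro h1
    apply O.hroot
    show plab O.c0 ∈ GA w h
    have h1' : plab O.c0 = lt (w - 1, h - 1) := h1
    rw [h1']
    unfold GA
    rw [lt_mem_RT]
    clear root
    omega
  · refine far_mk hp ?_
    show (tv (vx O.c0)).1 ≤ _ ∨ _ ≤ (tv (vx O.c0)).1 ∨ (tv (vx O.c0)).2 ≤ _ ∨
      _ ≤ (tv (vx O.c0)).2
    omega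
  · unfold lt vt
    simp only
    clear root
    constructor <;> rw [← le_sub_iff_add_le, abs_le] <;> push_cast <;> omega
  · refine (quad_mk hp (s := 3) (by norm_num) ?_ false false ?_).1
    · intro l hl
      exact odd_ENU (mem_inter.1 hl).1
    · intro x y hl
      have h3 : lt (x, y) ∈ ENU w h α β := (mem_inter.1 hl).1
      rw [mem_EU] at h3
      simp only [Bool.false_eq_true, false_implies, true_implies, true_and, and_true,
        Bool.true_eq_false]
      clear root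
      omega
  · refine (quad_mk hp (s := 3) (by norm_num) ?_ false false ?_).2
    · intro l hl
      exact odd_ENU (mem_inter.1 hl).1
    · intro x y hl
      have h3 : lt (x, y) ∈ ENU w h α β := (mem_inter.1 hl).1
      rw [mem_EU] at h3
      simp only [Bool.false_eq_true, false_implies, true_implies, true_and, and_true,
        Bool.true_eq_false]
      clear root
      omega

end Pool.Agent.H14.R45
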