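import Mathlib
import Pool.Agent.H14.R45.DispU
import Pool.Agent.Q1.M6e.Pieces
import Pool.Agent.H13.R45.OFarI
import Pool.Agent.Q1.M6e.PathT

set_option autoImplicit false
open Finset

/-! # `DL45` of the pieces of Theorem C: displacement of the frozen real tiles -/

namespace Pool.Agent.H14.R45

open Pool.Agent.H75.Perc hiding ph NA
open Pool.Agent.H75.TwoArm Pool.Agent.H75.Four Pool.Agent.H69.Q1
open Pool.Agent.Q1 Pool.Agent.Q1.M6c
open Pool.Agent.H33.Q1 (lt tt tv tf lt_inj tt_lt lt_odd lt_tt)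
open Pool.Agent.H74.R45 (Pot sg sg_even sg_odd RT lt_mem_RT odd_RT Out GA)
open Pool.Agent.H13.R45
open Pool.Agent.Q1.M6e (OFar Inn inc2 datJ datL datU RRJ LCq Laq w4 mE LE Tot_incW disj_low disj_up
  qT_low_bulk qT_low_tie qT_up_bulk qT_up_tie sL sU LC_sub LC_sum exists_pot_half)
open Pool.Agent.H95.R45 (Sc)

variable {w h : ℤ} {O : Out w h}

/-! ### One real tile -/

lemma inc_incW (X : Env) (c : ℤ × ℤ) : X.incW (fun _ => 1 / 2) c = X.inc c := by
  rw [Env.inc_eq]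
  rfl

lemma exists_pot_inc {X : Env} {x0 x1 y0 y1 : ℤ} (hE : RT x0 x1 y0 y1 ⊆ X.E) :
    ∃ H, Pot (fun c => X.inc c) H x0 x1 y0 y1 := by
  obtain ⟨H, hH⟩ := exists_pot_half (X := X) (q := fun _ => 1 / 2) hE (fun _ _ => rfl)
  simp only [inc_incW] at hH
  exact ⟨H, hH⟩

/-- the sum along the path, below -/
noncomputable def TLo (O : Out w h) (α β : Bool) (p q : ℤ × ℤ) (S : Finset (ℤ × ℤ)) : ℂ :=
  ∑ c ∈ LCq p q, Laq p q c * INL O α β c S

/-- the sum along the path, above -/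
noncomputable def TUp (O : Out w h) (α β : Bool) (p q : ℤ × ℤ) (S : Finset (ℤ × ℤ)) : ℂ :=
  ∑ c ∈ LCq p q, Laq p q c * INU O α β c S

lemma Sc.bounds {η : ℝ} (hη : 0 < η) {R : ℕ} (sc : Sc η R O) : (⌊η * R⌋₊ : ℤ) ≤ w ∧
    (⌊η * R⌋₊ : ℤ) ≤ h ∧ ((tv (vx O.c0)).1 ≤ -(⌊η * R⌋₊ : ℤ) ∨ w + (⌊η * R⌋₊ : ℤ) ≤ (tv (vx O.c0)).1 ∨
      (tv (vx O.c0)).2 ≤ -(⌊η * R⌋₊ : ℤ) ∨ h + (⌊η * R⌋₊ : ℤ) ≤ (tv (vx O.c0)).2) := by
  have hηR : 0 ≤ η * R := by positivity
  have hmle : ((⌊η * R⌋₊ : ℕ) : ℝ) ≤ η * R := Nat.floor_le hηR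
  refine ⟨?_, ?_, ?_⟩
  · have : ((⌊η * R⌋₊ : ℕ) : ℝ) ≤ w := hmle.trans sc.w1
    exact_mod_cast this
  · have : ((⌊η * R⌋₊ : ℕ) : ℝ) ≤ h := hmle.trans sc.h1
    exact_mod_cast this
  · have hfl : (⌊η * R⌋ : ℤ) = ((⌊η * R⌋₊ : ℕ) : ℤ) := (Int.natCast_floor_eq_floor hηR).symm
    have := sc.far.root (tv (vx O.c0)).1 (tv (vx O.c0)).2 rfl
    rw [hfl] at this
    exact this

/-- **One real tile, below** -/
theorem step_low (hAP : AP PlaneK) (η : ℝ) (hη : 0 < η) : ∃ C : ℝ, 0 < C ∧ ∃ R0 : ℕ,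
    ∀ R : ℕ, R0 ≤ R → ∀ (w h : ℤ) (O : Out w h), Sc η R O → ∀ (α β : Bool) (t : ℤ × ℤ),
    t ∈ RRL h → ∀ S ⊆ RRL h, ∀ p q : ℤ × ℤ, Inn w h (η * R) p → Inn w h (η * R) q →
    ‖TLo O α β p q (insert t S) - TLo O α β p q S‖ ≤ C * (R : ℝ) ^ (-(2 / 3) : ℝ) := by
  obtain ⟨C, hC, R0, key⟩ := disp_scale hAP η hη 3
  refine ⟨C, hC, R0 + ⌈200 / η⌉₊, ?_⟩
  intro R hR w h O sc α β t ht S hS p q hp hq
  have hw := O.hw
  have hh := O.hh
  by_cases htS : t ∈ S
  · rw [insert_eq_of_mem htS, sub_self, norm_zero]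
    positivity
  have hS' : insert t S ⊆ RRL h := insert_subset ht hS
  obtain ⟨m1, m2, key⟩ := key R (by omega)
  obtain ⟨b1, b2, b3⟩ := Sc.bounds hη sc
  have hm : 200 ≤ ⌊η * R⌋₊ := by
    refine Nat.le_floor ?_
    have h1 : (200 : ℝ) / η ≤ R := by
      refine (Nat.le_ceil _).trans ?_
      have : ⌈200 / η⌉₊ ≤ R := by omega
      exact_mod_cast this
    rw [div_le_iff₀ hη] at h1
    push_cast
    linarith
  set m : ℕ := ⌊η * R⌋₊ with hmd
  obtain ⟨p0, hpos, D⟩ : ∃ p0 : ℤ × ℤ, ((tv p0).1 ≤ 0 + 2 ∨ w - 2 ≤ (tv p0).1 ∨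
      (tv p0).2 ≤ 0 + 2 ∨ h - 2 ≤ (tv p0).2) ∧
      DispD (XNL O α β S hS) (XNL O α β (insert t S) hS') (od (WNL O α β S)) t p0 (m / 8) 3 := by
    unfold RRL at ht
    rw [mem_insert, mem_singleton] at ht
    rcases ht with rfl | rfl
    · refine ⟨vt (-1) (-1), Or.inl ?_, dispD_SW O α β hS hS' htS (by omega) (by clear b3; omega)
        (by clear b3; omega) (by omega)⟩
      unfold tv vt; norm_num
    · refine ⟨vt (-1) (h + 1), Or.inl ?_, dispD_NWL O α β hS hS' htS (by omega)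
        (by clear b3; omega) (by clear b3; omega) (by omega)⟩
      have := O.h2
      unfold tv vt; simp only; omega
  have hE : RT 0 w 0 h ⊆ ENL w h α β := by
    unfold ENL
    exact subset_union_left.trans subset_union_left
  obtain ⟨H, hH⟩ := exists_pot_inc (X := XNL O α β S hS) hE
  obtain ⟨H', hH'⟩ := exists_pot_inc (X := XNL O α β (insert t S) hS') hE
  have hηR : 0 ≤ η * R := by positivity
  obtain ⟨p1, p2, p3, p4⟩ := hp
  obtain ⟨q1, q2, q3, q4⟩ := hq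
  have cz : ∀ {a : ℤ}, η * R ≤ a → 0 ≤ a := by
    intro a ha
    have : (0 : ℝ) ≤ a := hηR.trans ha
    exact_mod_cast this
  have cb : ∀ {a b : ℤ}, (a : ℝ) + η * R ≤ b → a ≤ b := by
    intro a b ha
    have : (a : ℝ) ≤ b := by linarith
    exact_mod_cast this
  have h := key _ _ _ _ _ D 0 w 0 h hE (by push_cast; linarith [sc.w2])
    (by push_cast; linarith [sc.h2]) hpos H H' hH hH' q.1 q.2 p.1 p.2 (by push_cast; linarith) q2
    (by push_cast; linarith) q4 (by push_cast; linarith) p2 (by push_cast; linarith) p4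
  have s1 : TLo O α β p q S = H p.1 p.2 - H q.1 q.2 := by
    unfold TLo LCq Laq
    rw [← LC_sum hH (cz p1) (cb p2) (cz p3) (cb p4) (cz q1) (cb q2) (cz q3) (cb q4)]
    exact sum_congr rfl fun c _ => by rw [XNL_inc]
  have s2 : TLo O α β p q (insert t S) = H' p.1 p.2 - H' q.1 q.2 := by
    unfold TLo LCq Laq
    rw [← LC_sum hH' (cz p1) (cb p2) (cz p3) (cb p4) (cz q1) (cb q2) (cz q3) (cb q4)]
    exact sum_congr rfl fun c _ => by rw [XNL_inc]
  rw [s1, s2, show H' p.1 p.2 - H' q.1 q.2 - (H p.1 p.2 - H q.1 q.2) =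
    (H' p.1 p.2 - H p.1 p.2) - (H' q.1 q.2 - H q.1 q.2) by ring]
  exact h

/-- **One real tile, above** -/
theorem step_up (hAP : AP PlaneK) (η : ℝ) (hη : 0 < η) : ∃ C : ℝ, 0 < C ∧ ∃ R0 : ℕ,
    ∀ R : ℕ, R0 ≤ R → ∀ (w h : ℤ) (O : Out w h), Sc η R O → ∀ (α β : Bool) (t : ℤ × ℤ),
    t ∈ RRU w h → ∀ S ⊆ RRU w h, ∀ p q : ℤ × ℤ, Inn w h (η * R) p → Inn w h (η * R) q →
    ‖TUp O α β p q (insert t S) - TUp O α β p q S‖ ≤ C * (R : ℝ) ^ (-(2 / 3) : ℝ) := by
  obtain ⟨C, hC, R0, key⟩ := disp_scale hAP (η / 2) (by positivity) 3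
  refine ⟨C, hC, R0 + ⌈400 / η⌉₊, ?_⟩
  intro R hR w h O sc α β t ht S hS p q hp hq
  have hw := O.hw
  have hh := O.hh
  by_cases htS : t ∈ S
  · rw [insert_eq_of_mem htS, sub_self, norm_zero]
    positivity
  have hS' : insert t S ⊆ RRU w h := insert_subset ht hS
  obtain ⟨m1, m2, key⟩ := key R (by omega)
  obtain ⟨b1, b2, b3⟩ := Sc.bounds hη sc
  have hR1 : (400 : ℝ) ≤ η * R := by
    have h1 : (400 : ℝ) / η ≤ R := by
      refine (Nat.le_ceil _).trans ?_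
      have : ⌈400 / η⌉₊ ≤ R := by omega
      exact_mod_cast this
    rw [div_le_iff₀ hη] at h1
    linarith
  have hm : 200 ≤ ⌊η / 2 * R⌋₊ := by
    refine Nat.le_floor ?_
    push_cast
    linarith
  have hmm : ⌊η / 2 * R⌋₊ ≤ ⌊η * R⌋₊ := by
    refine Nat.floor_mono ?_
    linarith
  set m' : ℕ := ⌊η * R⌋₊ with hmd'
  set m : ℕ := ⌊η / 2 * R⌋₊ with hmd
  obtain ⟨p0, hpos, D⟩ : ∃ p0 : ℤ × ℤ, ((tv p0).1 ≤ 0 + 2 ∨ w - 2 ≤ (tv p0).1 ∨
      (tv p0).2 ≤ -1 + 2 ∨ h - 1 - 2 ≤ (tv p0).2) ∧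
      DispD (XNU O α β S hS) (XNU O α β (insert t S) hS') (od (WNU O α β S)) t p0 (m / 8) 3 := by
    unfold RRU at ht
    rw [mem_insert, mem_singleton] at ht
    have w2 := O.w2
    have h2 := O.h2
    rcases ht with rfl | rfl
    · refine ⟨vt 0 h, Or.inl ?_, dispD_NWU O α β hS hS' htS (by omega) (by clear b3; omega)
        (by clear b3; omega) (by omega)⟩
      unfold tv vt; simp only; omega
    · refine ⟨vt (w + 1) (h + 1), Or.inr (Or.inl ?_), dispD_NE O α β hS hS' htS (by omega)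
        (by clear b3; omega) (by clear b3; omega) (by omega)⟩
      unfold tv vt; simp only; omega
  have hE : RT 0 w (-1) (h - 1) ⊆ ENU w h α β := by
    unfold ENU
    exact subset_union_left.trans subset_union_left
  obtain ⟨H, hH⟩ := exists_pot_inc (X := XNU O α β S hS) hE
  obtain ⟨H', hH'⟩ := exists_pot_inc (X := XNU O α β (insert t S) hS') hE
  have hηR : 0 ≤ η * R := by positivity
  obtain ⟨p1, p2, p3, p4⟩ := hp
  obtain ⟨q1, q2, q3, q4⟩ := hq
  have cz : ∀ {a : ℤ}, η * R ≤ a → 0 ≤ a := by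
    intro a ha
    have : (0 : ℝ) ≤ a := hηR.trans ha
    exact_mod_cast this
  have cb : ∀ {a b : ℤ}, (a : ℝ) + η * R ≤ b → a ≤ b := by
    intro a b ha
    have : (a : ℝ) ≤ b := by linarith
    exact_mod_cast this
  have cb' : ∀ {a b : ℤ}, (a : ℝ) + η * R ≤ b → a ≤ b - 1 := by
    intro a b ha
    have : (a : ℝ) + 1 ≤ b := by linarith
    have h3 : a + 1 ≤ b := by exact_mod_cast this
    omega
  have hsz : (R : ℝ) / η ≤ R / (η / 2) := by
    refine div_le_div_of_nonneg_left (by positivity) (by positivity) (by linarith)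
  have h := key _ _ _ _ _ D 0 w (-1) (h - 1) hE (by push_cast; linarith [sc.w2])
    (by push_cast; linarith [sc.h2]) hpos H H' hH hH' q.1 q.2 p.1 p.2 (by push_cast; linarith)
    (by linarith) (by push_cast; linarith) (by push_cast; linarith) (by push_cast; linarith)
    (by linarith) (by push_cast; linarith) (by push_cast; linarith)
  have s1 : TUp O α β p q S = H p.1 p.2 - H q.1 q.2 := by
    unfold TUp LCq Laq
    rw [← LC_sum hH (cz p1) (cb p2) (by have := cz p3; omega) (cb' p4) (cz q1) (cb q2)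
      (by have := cz q3; omega) (cb' q4)]
    exact sum_congr rfl fun c _ => by rw [XNU_inc]
  have s2 : TUp O α β p q (insert t S) = H' p.1 p.2 - H' q.1 q.2 := by
    unfold TUp LCq Laq
    rw [← LC_sum hH' (cz p1) (cb p2) (by have := cz p3; omega) (cb' p4) (cz q1) (cb q2)
      (by have := cz q3; omega) (cb' q4)]
    exact sum_congr rfl fun c _ => by rw [XNU_inc]
  rw [s1, s2, show H' p.1 p.2 - H' q.1 q.2 - (H p.1 p.2 - H q.1 q.2) =
    (H' p.1 p.2 - H p.1 p.2) - (H' q.1 q.2 - H q.1 q.2) by ring]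
  exact h

/-- from one label to all states of two labels -/
lemma states {F : Finset (ℤ × ℤ) → ℂ} {r1 r2 : ℤ × ℤ} {C : ℝ}
    (h1 : ∀ S ⊆ ({r1, r2} : Finset (ℤ × ℤ)), ‖F (insert r1 S) - F S‖ ≤ C)
    (h2 : ∀ S ⊆ ({r1, r2} : Finset (ℤ × ℤ)), ‖F (insert r2 S) - F S‖ ≤ C)
    {S S' : Finset (ℤ × ℤ)} (hS : S ⊆ ({r1, r2} : Finset (ℤ × ℤ)))
    (hS' : S' ⊆ ({r1, r2} : Finset (ℤ × ℤ))) : ‖F S - F S'‖ ≤ 4 * C := by
  have key : ∀ S ⊆ ({r1, r2} : Finset (ℤ × ℤ)), ‖F {r1, r2} - F S‖ ≤ 2 * C := by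
    intro S hS
    have e1 := h2 S hS
    have e2 := h1 (insert r2 S) (insert_subset (by simp) hS)
    have e3 : insert r1 (insert r2 S) = ({r1, r2} : Finset (ℤ × ℤ)) := by
      refine Subset.antisymm (insert_subset (by simp) (insert_subset (by simp) hS)) ?_
      intro x hx
      rw [mem_insert, mem_singleton] at hx
      rw [mem_insert, mem_insert]
      tauto
    rw [e3] at e2
    have e4 : F {r1, r2} - F S = (F {r1, r2} - F (insert r2 S)) + (F (insert r2 S) - F S) := by ring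
    rw [e4]
    refine (norm_add_le _ _).trans ?_
    linarith
  have e1 := key S hS
  have e2 := key S' hS'
  have e4 : F S - F S' = (F {r1, r2} - F S') - (F {r1, r2} - F S) := by ring
  rw [e4]
  refine (norm_sub_le _ _).trans ?_
  linarith

/-- parameters of the two walls -/
noncomputable def sv (α β i : Bool) : ℂ :=
  if i = true then (if α = true then 1 / 4 else 0) else (if β = true then 1 / 4 else 0)

lemma sv_cases {s : Bool → ℂ} (h : (s = fun _ => 0) ∨ s = w4 false ∨ s = w4 true) :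
    ∃ α β, s = sv α β := by
  rcases h with rfl | rfl | rfl
  · exact ⟨false, false, by funext i; cases i <;> simp [sv]⟩
  · exact ⟨false, true, by funext i; cases i <;> simp [sv, w4]⟩
  · exact ⟨true, false, by funext i; cases i <;> simp [sv, w4]⟩

lemma tot_low {m L : ℤ} {S : Finset (ℤ × ℤ)} (hS : S ⊆ RRL h) {η : ℝ} {R : ℕ} (sc : Sc η R O)
    (hL : 3 ≤ ⌊η * R⌋) (α β : Bool) {p q : ℤ × ℤ} (p1 : 0 ≤ p.1) (p2 : p.1 ≤ w) (p3 : 0 ≤ p.2)
    (p4 : p.2 ≤ h) (q1 : 0 ≤ q.1) (q2 : q.1 ≤ w) (q3 : 0 ≤ q.2) (q4 : q.2 ≤ h) :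
    (datL O m L S hS).tot (LCq p q) (Laq p q) (sv α β) = TLo O α β p q S := by
  have hw := O.hw
  have hh := O.hh
  have e1 : (datL O m L S hS).tot (LCq p q) (Laq p q) (sv α β) =
      ∑ c ∈ LCq p q, Laq p q c * (XL O S hS).incW (qTL w h S α β) c := by
    refine Tot_incW (XL_E (hS := hS)) disj_low ?_ ?_
    · intro e he
      rw [qTL_eq O (mem_union_left _ he)]
      exact qT_low_bulk he
    · intro e he
      have h1 := qT_low_tie (a := if β = true then (1 / 2 : ℂ) else 0)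
        (b := if α = true then (1 / 2 : ℂ) else 1) hh he
      rw [qTL_eq O (mem_union_right _ he), h1]
      have h2 : sL (if β = true then (1 / 2 : ℂ) else 0) (if α = true then (1 / 2 : ℂ) else 1) e =
          sv α β ((datL O m L S hS).fm e) := by
        show _ = sv α β (fmL e)
        unfold sL sv
        cases α <;> cases β <;> cases fmL e <;> norm_num
      rw [h2]
      rfl
  rw [e1]
  unfold TLo
  refine sum_congr rfl fun c hc => ?_
  congr 1
  rw [← XNL_inc hS]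
  refine natL hS (root_PT le_rfl (by omega) sc.far hL) ?_
  rcases LC_sub p1 p2 p3 p4 q1 q2 q3 q4 hc with ⟨x, y, rfl, h5⟩ | ⟨x, y, rfl, h5⟩
  · exact he_low (by omega) hh h5.1 h5.2.1 h5.2.2.1
  · exact ve_low (by omega) hh h5.1 h5.2.1 h5.2.2.1

lemma tot_up {m L : ℤ} {S : Finset (ℤ × ℤ)} (hS : S ⊆ RRU w h) {η : ℝ} {R : ℕ} (sc : Sc η R O)
    (hL : 3 ≤ ⌊η * R⌋) (α β : Bool) {p q : ℤ × ℤ} (p1 : 0 ≤ p.1) (p2 : p.1 ≤ w) (p3 : -1 ≤ p.2)
    (p4 : p.2 ≤ h - 1) (q1 : 0 ≤ q.1) (q2 : q.1 ≤ w) (q3 : -1 ≤ q.2) (q4 : q.2 ≤ h - 1) :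
    (datU O m L S hS).tot (LCq p q) (Laq p q) (sv α β) = TUp O α β p q S := by
  have hw := O.hw
  have hh := O.hh
  have e1 : (datU O m L S hS).tot (LCq p q) (Laq p q) (sv α β) =
      ∑ c ∈ LCq p q, Laq p q c * (XU O S hS).incW (qTU w h S α β) c := by
    refine Tot_incW (XU_E (hS := hS)) disj_up ?_ ?_
    · intro e he
      rw [qTU_eq O (mem_union_left _ he)]
      exact qT_up_bulk hh he
    · intro e he
      have h1 := qT_up_tie (a := if β = true then (1 / 2 : ℂ) else 0)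
        (b := if α = true then (1 / 2 : ℂ) else 1) hw hh he
      rw [qTU_eq O (mem_union_right _ he), h1]
      have h2 : sU w (if β = true then (1 / 2 : ℂ) else 0) (if α = true then (1 / 2 : ℂ) else 1) e =
          sv α β ((datU O m L S hS).fm e) := by
        show _ = sv α β (fmU w e)
        unfold sU sv
        cases α <;> cases β <;> cases fmU w e <;> norm_num
      rw [h2]
      rfl
  rw [e1]
  unfold TUp
  refine sum_congr rfl fun c hc => ?_
  congr 1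
  rw [← XNU_inc hS]
  refine natU hS (root_PT (by omega) le_rfl sc.far hL) ?_
  rcases LC_sub p1 p2 p3 p4 q1 q2 q3 q4 hc with ⟨x, y, rfl, h5⟩ | ⟨x, y, rfl, h5⟩
  · exact he_up (by omega) hh h5.1 h5.2.1 h5.2.2.2
  · exact ve_up (by omega) hh h5.1 h5.2.1 h5.2.2.2

/-- **Displacement of the frozen states.** -/
theorem dl45' (hAP : AP PlaneK) : M6e.DL45 := by
  intro η hη
  obtain ⟨C1, hC1, R1, key1⟩ := step_low hAP η hη
  obtain ⟨C2, hC2, R2, key2⟩ := step_up hAP η hη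
  refine ⟨4 * (C1 + C2), R1 + R2 + ⌈4 / η⌉₊, ?_⟩
  intro R hR w h O sc top S S' hS hS' p q hp hq s hs
  obtain ⟨α, β, rfl⟩ := sv_cases hs
  have hηR : (4 : ℝ) ≤ η * R := by
    have h1 : (4 : ℝ) / η ≤ R := by
      refine (Nat.le_ceil _).trans ?_
      have : ⌈4 / η⌉₊ ≤ R := by omega
      exact_mod_cast this
    rw [div_le_iff₀ hη] at h1
    linarith
  have hL : 3 ≤ ⌊η * R⌋ := by
    rw [Int.le_floor]
    push_cast
    linarith
  have hR0 : (0 : ℝ) ≤ (R : ℝ) ^ (-(2 / 3) : ℝ) := by positivity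
  obtain ⟨p1, p2, p3, p4⟩ := id hp
  obtain ⟨q1, q2, q3, q4⟩ := id hq
  have cz : ∀ {a : ℤ}, η * R ≤ a → 0 ≤ a := by
    intro a ha
    have : (0 : ℝ) ≤ a := by linarith
    exact_mod_cast this
  have cb : ∀ {a b : ℤ}, (a : ℝ) + η * R ≤ b → a ≤ b - 1 := by
    intro a b ha
    have : (a : ℝ) + 1 ≤ b := by linarith
    have h3 : a + 1 ≤ b := by exact_mod_cast this
    omega
  have cb1 : ∀ {a b : ℤ}, a ≤ b - 1 → a ≤ b := fun h => by omega
  have cb2 : ∀ {a : ℤ}, 0 ≤ a → -1 ≤ a := fun h => by omega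
  cases top
  · have hS1 : S ⊆ RRL h := hS
    have hS1' : S' ⊆ RRL h := hS'
    have e1 := tot_low (m := mE η R) (L := LE η R) hS1 sc hL α β (cz p1) (cb1 (cb p2)) (cz p3)
      (cb1 (cb p4)) (cz q1) (cb1 (cb q2)) (cz q3) (cb1 (cb q4))
    have e2 := tot_low (m := mE η R) (L := LE η R) hS1' sc hL α β (cz p1) (cb1 (cb p2)) (cz p3)
      (cb1 (cb p4)) (cz q1) (cb1 (cb q2)) (cz q3) (cb1 (cb q4))
    show ‖(datL O (mE η R) (LE η R) S hS1).tot (LCq p q) (Laq p q) (sv α β) -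
      (datL O (mE η R) (LE η R) S' hS1').tot (LCq p q) (Laq p q) (sv α β)‖ ≤ _
    rw [e1, e2]
    have key := states (F := TLo O α β p q) (r1 := lt (-1, 0)) (r2 := lt (-1, h - 1))
      (C := C1 * (R : ℝ) ^ (-(2 / 3) : ℝ))
      (fun S hS => key1 R (by omega) w h O sc α β _ (by unfold RRL; simp) S hS p q hp hq)
      (fun S hS => key1 R (by omega) w h O sc α β _ (by unfold RRL; simp) S hS p q hp hq) hS1 hS1'
    refine key.trans ?_
    rw [← mul_assoc]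
    refine mul_le_mul_of_nonneg_right ?_ hR0
    linarith
  · have hS1 : S ⊆ RRU w h := hS
    have hS1' : S' ⊆ RRU w h := hS'
    have e1 := tot_up (m := mE η R) (L := LE η R) hS1 sc hL α β (cz p1) (cb1 (cb p2)) (cb2 (cz p3))
      (cb p4) (cz q1) (cb1 (cb q2)) (cb2 (cz q3)) (cb q4)
    have e2 := tot_up (m := mE η R) (L := LE η R) hS1' sc hL α β (cz p1) (cb1 (cb p2))
      (cb2 (cz p3)) (cb p4) (cz q1) (cb1 (cb q2)) (cb2 (cz q3)) (cb q4)
    show ‖(datU O (mE η R) (LE η R) S hS1).tot (LCq p q) (Laq p q) (sv α β) -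
      (datU O (mE η R) (LE η R) S' hS1').tot (LCq p q) (Laq p q) (sv α β)‖ ≤ _
    rw [e1, e2]
    have key := states (F := TUp O α β p q) (r1 := lt (0, h - 1)) (r2 := lt (w - 1, h - 1))
      (C := C2 * (R : ℝ) ^ (-(2 / 3) : ℝ))
      (fun S hS => key2 R (by omega) w h O sc α β _ (by unfold RRU; simp) S hS p q hp hq)
      (fun S hS => key2 R (by omega) w h O sc α β _ (by unfold RRU; simp) S hS p q hp hq) hS1 hS1'
    refine key.trans ?_
    rw [← mul_assoc]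
    refine mul_le_mul_of_nonneg_right ?_ hR0
    linarith

end Pool.Agent.H14.R45
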